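import Mathlib

/-!
PROJECT PI (MP_797ebb_an, a space without an infinite bibasic system `(x_n, f_n)` with
`(f_n)` equivalent to `(phi_n)`). Definitions. DONE.

`Cube k` is `{-1,1}^k` (as `Fin k → Bool`), `sg` the sign of a bit (an integer, it acts on every
additive group), `av` the average of a real function on the cube, `rs z` the Rademacher sum
`w ↦ ∑ sg (w j) z_j`, `co 𝕜 f j` the coefficient `E [sg (w j) f w]`, `wal A` the Walsh function,
`N2 p f` the norm `(E p (f w) ^ 2) ^ (1/2)`, `l1 m` the norm of `L_1` of the cube,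
`quo Q ι` the quotient seminorm `inf_a Q (w + ι a)`, `dq m` the distance to the Rademacher span,
`pq p x` the push-out seminorm `inf_a p (v + ∑ a_i x_i) + |b - ∑ a_i r_i|_1`,
`Cot p K`: the seminorm has cotype 2 constant `K` (with `L_1` averages),
`kap`, `UU`: the kernel and the operator `(T_a - T_(-a)) / 2`, `T_a` the Riesz product operator.
-/

set_option autoImplicit false

namespace Pool.Agent.Helper54.PI

open Finset

noncomputable section

/-- The discrete cube. -/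
abbrev Cube (k : ℕ) : Type := Fin k → Bool

/-- The sign of a bit. -/
def sg (b : Bool) : ℤ := if b then 1 else -1

/-- Average of a real function on the cube. -/
def av {k : ℕ} (f : Cube k → ℝ) : ℝ := (∑ w, f w) / 2 ^ k

/-- Rademacher sum. -/
def rs {k : ℕ} {X : Type} [AddCommGroup X] (z : Fin k → X) (w : Cube k) : X :=
  ∑ j, sg (w j) • z j

/-- Rademacher coefficient of a function on the cube. -/
def co (𝕜 : Type) [RCLike 𝕜] {k : ℕ} {X : Type} [AddCommGroup X] [Module 𝕜 X]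
    (f : Cube k → X) (j : Fin k) : X :=
  ((2 : 𝕜) ^ k)⁻¹ • ∑ w, sg (w j) • f w

/-- Walsh function. -/
def wal {k : ℕ} (A : Finset (Fin k)) (w : Cube k) : ℝ := ∏ i ∈ A, (sg (w i) : ℝ)

/-- Walsh coefficient of a scalar function. -/
def wc {𝕜 : Type} [RCLike 𝕜] {k : ℕ} (f : Cube k → 𝕜) (A : Finset (Fin k)) : 𝕜 :=
  ((2 : 𝕜) ^ k)⁻¹ * ∑ w, ((wal A w : ℝ) : 𝕜) * f w

/-- The kernel of `(T_a - T_(-a)) / 2`. -/
def kap {k : ℕ} (a : ℝ) (x y : Cube k) : ℝ :=
  ((∏ i, (1 + a * ((sg (x i) : ℝ) * sg (y i)))) - ∏ i, (1 - a * ((sg (x i) : ℝ) * sg (y i)))) /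
    2 / 2 ^ k

/-- The operator `(T_a - T_(-a)) / 2`. -/
def UU (𝕜 : Type) [RCLike 𝕜] {k : ℕ} {X : Type} [AddCommGroup X] [Module 𝕜 X]
    (a : ℝ) (f : Cube k → X) (x : Cube k) : X :=
  ∑ y, ((kap a x y : ℝ) : 𝕜) • f y

section Semi

variable {𝕜 : Type} [RCLike 𝕜]

/-- The norm of `L_2` of a function on the cube with values in a seminormed space. -/
def N2 {X : Type} [AddCommGroup X] [Module 𝕜 X] (p : Seminorm 𝕜 X) {k : ℕ} (f : Cube k → X) : ℝ :=
  Real.sqrt (av fun w => p (f w) ^ 2)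

/-- Cotype 2 with constant `K`. -/
def Cot {X : Type} [AddCommGroup X] [Module 𝕜 X] (p : Seminorm 𝕜 X) (K : ℝ) : Prop :=
  ∀ (k : ℕ) (z : Fin k → X), Real.sqrt (∑ j, p (z j) ^ 2) ≤ K * av fun w => p (rs z w)

theorem av_nonneg {k : ℕ} {f : Cube k → ℝ} (h : ∀ w, 0 ≤ f w) : 0 ≤ av f :=
  div_nonneg (Finset.sum_nonneg fun w _ => h w) (by positivity)

theorem av_mono {k : ℕ} {f g : Cube k → ℝ} (h : ∀ w, f w ≤ g w) : av f ≤ av g :=
  div_le_div_of_nonneg_right (Finset.sum_le_sum fun w _ => h w) (by positivity)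

theorem av_add {k : ℕ} (f g : Cube k → ℝ) : (av fun w => f w + g w) = av f + av g := by
  unfold av
  rw [Finset.sum_add_distrib, add_div]

theorem av_sub {k : ℕ} (f g : Cube k → ℝ) : (av fun w => f w - g w) = av f - av g := by
  unfold av
  rw [Finset.sum_sub_distrib, sub_div]

theorem av_mul {k : ℕ} (c : ℝ) (f : Cube k → ℝ) : (av fun w => c * f w) = c * av f := by
  unfold av
  rw [← Finset.mul_sum, mul_div_assoc]

theorem av_const {k : ℕ} (c : ℝ) : (av fun _ : Cube k => c) = c := by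
  unfold av
  rw [Finset.sum_const, Finset.card_univ, Fintype.card_fun, Fintype.card_bool, Fintype.card_fin,
    nsmul_eq_mul]
  push_cast
  field_simp

/-- The norm of `L_1` of the cube. -/
def l1 (𝕜 : Type) [RCLike 𝕜] (m : ℕ) : Seminorm 𝕜 (Cube m → 𝕜) :=
  Seminorm.of (fun b => av fun w => ‖b w‖)
    (fun b c => by
      rw [← av_add]
      exact av_mono fun w => norm_add_le _ _)
    (fun a b => by
      rw [← av_mul]
      congr 1
      funext w
      rw [Pi.smul_apply, norm_smul])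

theorem l1_apply (m : ℕ) (b : Cube m → 𝕜) : l1 𝕜 m b = av fun w => ‖b w‖ := rfl

/-- Quotient seminorm. -/
def quo {W A : Type} [AddCommGroup W] [Module 𝕜 W] [AddCommGroup A] [Module 𝕜 A]
    (Q : Seminorm 𝕜 W) (ι : A →ₗ[𝕜] W) : Seminorm 𝕜 W :=
  Seminorm.ofSMulLE (fun w => ⨅ a, Q (w + ι a))
    (by
      apply le_antisymm
      · refine (ciInf_le ⟨0, ?_⟩ 0).trans ?_
        · rintro _ ⟨a, rfl⟩
          exact apply_nonneg _ _
        · simp
      · exact Real.iInf_nonneg fun a => apply_nonneg _ _)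
    (fun x y => by
      have hb : ∀ w : W, BddBelow (Set.range fun a => Q (w + ι a)) := fun w =>
        ⟨0, by rintro _ ⟨a, rfl⟩; exact apply_nonneg _ _⟩
      refine le_of_forall_pos_le_add fun δ hδ => ?_
      obtain ⟨a, ha⟩ := exists_lt_of_ciInf_lt (lt_add_of_pos_right (⨅ a, Q (x + ι a)) (half_pos hδ))
      obtain ⟨b, hb'⟩ := exists_lt_of_ciInf_lt
        (lt_add_of_pos_right (⨅ a, Q (y + ι a)) (half_pos hδ))
      refine (ciInf_le (hb _) (a + b)).trans ?_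
      have h1 : x + y + ι (a + b) = (x + ι a) + (y + ι b) := by
        rw [map_add]
        abel
      rw [h1]
      have h2 := map_add_le_add Q (x + ι a) (y + ι b)
      linarith)
    (fun r x => by
      have hb : ∀ w : W, BddBelow (Set.range fun a => Q (w + ι a)) := fun w =>
        ⟨0, by rintro _ ⟨a, rfl⟩; exact apply_nonneg _ _⟩
      rw [Real.mul_iInf_of_nonneg (norm_nonneg _)]
      refine le_ciInf fun a => (ciInf_le (hb _) (r • a)).trans ?_
      rw [map_smul, ← smul_add, map_smul_eq_mul])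

theorem quo_apply {W A : Type} [AddCommGroup W] [Module 𝕜 W] [AddCommGroup A] [Module 𝕜 A]
    (Q : Seminorm 𝕜 W) (ι : A →ₗ[𝕜] W) (w : W) : quo Q ι w = ⨅ a, Q (w + ι a) := rfl

theorem quo_le {W A : Type} [AddCommGroup W] [Module 𝕜 W] [AddCommGroup A] [Module 𝕜 A]
    (Q : Seminorm 𝕜 W) (ι : A →ₗ[𝕜] W) (w : W) (a : A) : quo Q ι w ≤ Q (w + ι a) :=
  ciInf_le ⟨0, by rintro _ ⟨a, rfl⟩; exact apply_nonneg _ _⟩ a

theorem le_quo {W A : Type} [AddCommGroup W] [Module 𝕜 W] [AddCommGroup A] [Module 𝕜 A]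
    (Q : Seminorm 𝕜 W) (ι : A →ₗ[𝕜] W) (w : W) (c : ℝ) (h : ∀ a, c ≤ Q (w + ι a)) :
    c ≤ quo Q ι w :=
  le_ciInf h

theorem quo_near {W A : Type} [AddCommGroup W] [Module 𝕜 W] [AddCommGroup A] [Module 𝕜 A]
    (Q : Seminorm 𝕜 W) (ι : A →ₗ[𝕜] W) (w : W) (δ : ℝ) (hδ : 0 < δ) :
    ∃ a, Q (w + ι a) ≤ quo Q ι w + δ := by
  obtain ⟨a, ha⟩ := exists_lt_of_ciInf_lt (lt_add_of_pos_right (⨅ a, Q (w + ι a)) hδ)
  exact ⟨a, ha.le⟩

/-- Rademacher sums of scalars, as a linear map. -/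
def rsL (𝕜 : Type) [RCLike 𝕜] (m : ℕ) : (Fin m → 𝕜) →ₗ[𝕜] (Cube m → 𝕜) where
  toFun := rs
  map_add' a b := by
    funext w
    unfold rs
    rw [Pi.add_apply, ← Finset.sum_add_distrib]
    refine Finset.sum_congr rfl fun j _ => ?_
    rw [Pi.add_apply, smul_add]
  map_smul' c a := by
    funext w
    unfold rs
    rw [Pi.smul_apply, RingHom.id_apply, Finset.smul_sum]
    refine Finset.sum_congr rfl fun j _ => ?_
    rw [Pi.smul_apply, smul_comm]

theorem rsL_apply (m : ℕ) (a : Fin m → 𝕜) : rsL 𝕜 m a = rs a := rfl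

/-- Distance in `L_1` to the Rademacher span. -/
def dq (𝕜 : Type) [RCLike 𝕜] (m : ℕ) : Seminorm 𝕜 (Cube m → 𝕜) := quo (l1 𝕜 m) (-rsL 𝕜 m)

/-- The linear combination of the vectors `x_i`. -/
def lc {V : Type} [AddCommGroup V] [Module 𝕜 V] {m : ℕ} (x : Fin m → V) :
    (Fin m → 𝕜) →ₗ[𝕜] V where
  toFun a := ∑ i, a i • x i
  map_add' a b := by
    rw [← Finset.sum_add_distrib]
    refine Finset.sum_congr rfl fun j _ => ?_
    rw [Pi.add_apply, add_smul]
  map_smul' c a := by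
    rw [RingHom.id_apply, Finset.smul_sum]
    refine Finset.sum_congr rfl fun j _ => ?_
    rw [Pi.smul_apply, smul_eq_mul, mul_smul]

theorem lc_apply {V : Type} [AddCommGroup V] [Module 𝕜 V] {m : ℕ} (x : Fin m → V)
    (a : Fin m → 𝕜) : lc x a = ∑ i, a i • x i := rfl

/-- The push-out seminorm on `V × L_1`. -/
def pq {V : Type} [AddCommGroup V] [Module 𝕜 V] (p : Seminorm 𝕜 V) {m : ℕ} (x : Fin m → V) :
    Seminorm 𝕜 (V × (Cube m → 𝕜)) :=
  quo (p.comp (LinearMap.fst 𝕜 V (Cube m → 𝕜)) + (l1 𝕜 m).comp (LinearMap.snd 𝕜 V (Cube m → 𝕜)))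
    ((lc x).prod (-rsL 𝕜 m))

theorem pq_le {V : Type} [AddCommGroup V] [Module 𝕜 V] (p : Seminorm 𝕜 V) {m : ℕ} (x : Fin m → V)
    (v : V) (b : Cube m → 𝕜) (a : Fin m → 𝕜) :
    pq p x (v, b) ≤ p (v + ∑ i, a i • x i) + l1 𝕜 m (b - rs a) := by
  refine (quo_le _ _ _ a).trans (le_of_eq ?_)
  change p (v + ∑ i, a i • x i) + l1 𝕜 m (b + -rs a) = _
  rw [← sub_eq_add_neg]

theorem le_pq {V : Type} [AddCommGroup V] [Module 𝕜 V] (p : Seminorm 𝕜 V) {m : ℕ} (x : Fin m → V)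
    (v : V) (b : Cube m → 𝕜) (c : ℝ)
    (h : ∀ a : Fin m → 𝕜, c ≤ p (v + ∑ i, a i • x i) + l1 𝕜 m (b - rs a)) :
    c ≤ pq p x (v, b) := by
  refine le_quo _ _ _ _ fun a => (h a).trans (le_of_eq ?_)
  change _ = p (v + ∑ i, a i • x i) + l1 𝕜 m (b + -rs a)
  rw [← sub_eq_add_neg]

theorem dq_le (m : ℕ) (b : Cube m → 𝕜) (a : Fin m → 𝕜) : dq 𝕜 m b ≤ l1 𝕜 m (b - rs a) := by
  refine (quo_le _ _ _ a).trans (le_of_eq ?_)
  change l1 𝕜 m (b + -rs a) = _
  rw [← sub_eq_add_neg]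

theorem dq_near (m : ℕ) (b : Cube m → 𝕜) (δ : ℝ) (hδ : 0 < δ) :
    ∃ a : Fin m → 𝕜, l1 𝕜 m (b - rs a) ≤ dq 𝕜 m b + δ := by
  obtain ⟨a, ha⟩ := quo_near (l1 𝕜 m) (-rsL 𝕜 m) b δ hδ
  refine ⟨a, (le_of_eq ?_).trans ha⟩
  change _ = l1 𝕜 m (b + -rs a)
  rw [← sub_eq_add_neg]

end Semi

end

end Pool.Agent.Helper54.PI
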