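import Mathlib
import Pool.Agent.Helper54.PI.Defs

/-!
PROJECT PI, module PI-06. Algebraic identities for `UU`, `co`, `rs`.

PROOF. (`UU_rs`) `∑ y, kap a x y * sg (y j) = a * sg (x j)`: the sum over `y : Fin k → Bool` of
`sg (y j) ∏ i, (1 + a s_i)` is a product of sums over bits: the factor of `i = j` is
`(1 + a sg (x j)) - (1 - a sg (x j)) = 2 a sg (x j)`, the others are `2`
(`Finset.prod_univ_sum` / `Fintype.piFinset_univ`; write `sg (y j) = ∏ i, if i = j then .. else 1`);
the same with `-a`.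
(`co_rs`) orthogonality `∑ w, sg (w i) sg (w j) = 2 ^ k` if `i = j` and `0` otherwise (flip the bit
`i`: `Finset.sum_involution` or change of variables).
The others are linearity.
-/

set_option autoImplicit false

namespace Pool.Agent.Helper54.PI

open Finset

variable {𝕜 : Type} [RCLike 𝕜] {X Y : Type} [AddCommGroup X] [Module 𝕜 X] [AddCommGroup Y]
  [Module 𝕜 Y]

/-- Sums over the cube of products over the bits. -/
private theorem sum_prod_bits {k : ℕ} (g : Fin k → Bool → ℝ) :
    ∑ y : Cube k, ∏ i, g i (y i) = ∏ i, (g i true + g i false) := by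
  have h := Finset.prod_univ_sum (fun _ : Fin k => (Finset.univ : Finset Bool)) g
  rw [Fintype.piFinset_univ] at h
  rw [← h]
  refine Finset.prod_congr rfl fun i _ => ?_
  rw [Fintype.sum_bool]

/-- The sum of the Riesz product against a Rademacher function. -/
private theorem sum_riesz {k : ℕ} (a : ℝ) (x : Cube k) (j : Fin k) :
    ∑ y : Cube k, (∏ i, (1 + a * ((sg (x i) : ℝ) * sg (y i)))) * (sg (y j) : ℝ) =
      2 ^ k * (a * sg (x j)) := by
  have h1 : ∀ y : Cube k, (∏ i, (1 + a * ((sg (x i) : ℝ) * sg (y i)))) * (sg (y j) : ℝ) =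
      ∏ i, ((1 + a * ((sg (x i) : ℝ) * sg (y i))) * (if i = j then (sg (y i) : ℝ) else 1)) := by
    intro y
    rw [Finset.prod_mul_distrib, Finset.prod_ite_eq' Finset.univ j (fun i => (sg (y i) : ℝ))]
    simp
  rw [Finset.sum_congr rfl fun y _ => h1 y]
  rw [sum_prod_bits (fun i b => (1 + a * ((sg (x i) : ℝ) * sg b)) *
    (if i = j then (sg b : ℝ) else 1))]
  have h2 : ∀ i : Fin k, ((1 + a * ((sg (x i) : ℝ) * sg true)) *
      (if i = j then (sg true : ℝ) else 1) + (1 + a * ((sg (x i) : ℝ) * sg false)) *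
      (if i = j then (sg false : ℝ) else 1)) = 2 * (if i = j then a * sg (x i) else 1) := by
    intro i
    have e1 : ((sg true : ℤ) : ℝ) = 1 := by simp [sg]
    have e2 : ((sg false : ℤ) : ℝ) = -1 := by simp [sg]
    rw [e1, e2]
    split_ifs <;> ring
  rw [Finset.prod_congr rfl fun i _ => h2 i, Finset.prod_mul_distrib,
    Finset.prod_ite_eq' Finset.univ j (fun i => a * (sg (x i) : ℝ))]
  simp

private theorem sum_kap {k : ℕ} (a : ℝ) (x : Cube k) (j : Fin k) :
    ∑ y : Cube k, kap a x y * (sg (y j) : ℝ) = a * sg (x j) := by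
  have h1 := sum_riesz a x j
  have h2 := sum_riesz (-a) x j
  have h3 : ∀ y : Cube k, kap a x y * (sg (y j) : ℝ) =
      (2 * 2 ^ k)⁻¹ * ((∏ i, (1 + a * ((sg (x i) : ℝ) * sg (y i)))) * (sg (y j) : ℝ)) -
      (2 * 2 ^ k)⁻¹ * ((∏ i, (1 + -a * ((sg (x i) : ℝ) * sg (y i)))) * (sg (y j) : ℝ)) := by
    intro y
    have e : ∀ i, (1 + -a * ((sg (x i) : ℝ) * sg (y i))) =
        1 - a * ((sg (x i) : ℝ) * sg (y i)) := by
      intro i
      ring
    rw [Finset.prod_congr rfl fun i _ => e i]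
    unfold kap
    field_simp
  rw [Finset.sum_congr rfl fun y _ => h3 y, Finset.sum_sub_distrib, ← Finset.mul_sum,
    ← Finset.mul_sum, h1, h2]
  field_simp
  ring

private theorem zsmul_eq_coe {Z : Type} [AddCommGroup Z] [Module 𝕜 Z] (n : ℤ) (z : Z) :
    n • z = (((n : ℝ) : 𝕜)) • z := by
  rw [RCLike.ofReal_intCast, Int.cast_smul_eq_zsmul]

theorem UU_rs {k : ℕ} (a : ℝ) (z : Fin k → X) :
    UU 𝕜 a (rs z) = fun w => ((a : ℝ) : 𝕜) • rs z w := by
  funext x
  unfold UU rs
  have h1 : ∀ y : Cube k, ((kap a x y : ℝ) : 𝕜) • ∑ j, sg (y j) • z j =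
      ∑ j, (((kap a x y * (sg (y j) : ℝ) : ℝ)) : 𝕜) • z j := by
    intro y
    rw [Finset.smul_sum]
    refine Finset.sum_congr rfl fun j _ => ?_
    rw [zsmul_eq_coe (𝕜 := 𝕜) (sg (y j)) (z j), smul_smul, RCLike.ofReal_mul]
  rw [Finset.sum_congr rfl fun y _ => h1 y, Finset.sum_comm, Finset.smul_sum]
  refine Finset.sum_congr rfl fun j _ => ?_
  rw [← Finset.sum_smul, ← RCLike.ofReal_sum, sum_kap, zsmul_eq_coe (𝕜 := 𝕜) (sg (x j)) (z j),
    smul_smul, RCLike.ofReal_mul]

theorem UU_sub {k : ℕ} (a : ℝ) (f g : Cube k → X) :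
    UU 𝕜 a (fun w => f w - g w) = fun w => UU 𝕜 a f w - UU 𝕜 a g w := by
  funext x
  unfold UU
  rw [← Finset.sum_sub_distrib]
  refine Finset.sum_congr rfl fun y _ => ?_
  rw [smul_sub]

theorem UU_map {k : ℕ} (a : ℝ) (L : X →ₗ[𝕜] Y) (f : Cube k → X) :
    UU 𝕜 a (fun w => L (f w)) = fun w => L (UU 𝕜 a f w) := by
  funext x
  unfold UU
  rw [map_sum]
  refine Finset.sum_congr rfl fun y _ => ?_
  rw [map_smul]

/-- Orthogonality of the Rademacher functions. -/
private theorem sum_sg_mul {k : ℕ} (i j : Fin k) :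
    ∑ w : Cube k, (sg (w j) : ℤ) * sg (w i) = if i = j then 2 ^ k else 0 := by
  by_cases h : i = j
  · subst h
    rw [if_pos rfl]
    have e : ∀ w : Cube k, (sg (w i) : ℤ) * sg (w i) = 1 := by
      intro w
      unfold sg
      split_ifs <;> norm_num
    rw [Finset.sum_congr rfl fun w _ => e w]
    simp
  · rw [if_neg h]
    refine Finset.sum_involution (fun w _ => Function.update w i (!(w i))) ?_ ?_ ?_ ?_
    · intro w _
      have hji : j ≠ i := fun e => h e.symm
      rw [Function.update_self, Function.update_of_ne hji]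
      unfold sg
      cases w i <;> simp
    · intro w _ _ he
      have := congrFun he i
      rw [Function.update_self] at this
      cases hb : w i <;> rw [hb] at this <;> simp at this
    · intro w _
      exact Finset.mem_univ _
    · intro w _
      funext t
      by_cases ht : t = i
      · subst ht
        simp
      · simp [Function.update_of_ne ht]

theorem co_rs {k : ℕ} (z : Fin k → X) (j : Fin k) : co 𝕜 (rs z) j = z j := by
  unfold co rs
  have h1 : ∀ w : Cube k, sg (w j) • ∑ i, sg (w i) • z i = ∑ i, (sg (w j) * sg (w i)) • z i := by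
    intro w
    rw [Finset.smul_sum]
    refine Finset.sum_congr rfl fun i _ => ?_
    rw [smul_smul]
  rw [Finset.sum_congr rfl fun w _ => h1 w, Finset.sum_comm]
  have h2 : ∀ i : Fin k, ∑ w : Cube k, (sg (w j) * sg (w i)) • z i =
      if i = j then ((2 : ℤ) ^ k) • z i else 0 := by
    intro i
    rw [← Finset.sum_smul, sum_sg_mul]
    split_ifs
    · rfl
    · rw [zero_smul]
  rw [Finset.sum_congr rfl fun i _ => h2 i, Finset.sum_ite_eq' Finset.univ j]
  rw [if_pos (Finset.mem_univ _), zsmul_eq_coe (𝕜 := 𝕜), smul_smul]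
  have h3 : ((2 : 𝕜) ^ k)⁻¹ * ((((2 : ℤ) ^ k : ℤ) : ℝ) : 𝕜) = 1 := by
    have : ((2 : 𝕜) ^ k) ≠ 0 := pow_ne_zero _ two_ne_zero
    push_cast
    rw [inv_mul_cancel₀ this]
  rw [h3, one_smul]

theorem co_sub {k : ℕ} (f g : Cube k → X) (j : Fin k) :
    co 𝕜 (fun w => f w - g w) j = co 𝕜 f j - co 𝕜 g j := by
  unfold co
  rw [← smul_sub, ← Finset.sum_sub_distrib]
  congr 1
  refine Finset.sum_congr rfl fun w _ => ?_
  rw [smul_sub]

theorem co_map {k : ℕ} (L : X →ₗ[𝕜] Y) (f : Cube k → X) (j : Fin k) :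
    co 𝕜 (fun w => L (f w)) j = L (co 𝕜 f j) := by
  unfold co
  rw [map_smul, map_sum]
  congr 1
  refine Finset.sum_congr rfl fun w _ => ?_
  rw [map_zsmul]

theorem rs_map {k : ℕ} (L : X →ₗ[𝕜] Y) (z : Fin k → X) (w : Cube k) :
    rs (fun j => L (z j)) w = L (rs z w) := by
  unfold rs
  rw [map_sum]
  refine Finset.sum_congr rfl fun j _ => ?_
  rw [map_zsmul]

theorem rs_add {k : ℕ} (z y : Fin k → X) (w : Cube k) :
    rs (fun j => z j + y j) w = rs z w + rs y w := by
  unfold rs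
  rw [← Finset.sum_add_distrib]
  refine Finset.sum_congr rfl fun j _ => ?_
  rw [smul_add]

theorem rs_sub {k : ℕ} (z y : Fin k → X) (w : Cube k) :
    rs (fun j => z j - y j) w = rs z w - rs y w := by
  unfold rs
  rw [← Finset.sum_sub_distrib]
  refine Finset.sum_congr rfl fun j _ => ?_
  rw [smul_sub]

end Pool.Agent.Helper54.PI
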