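import Mathlib

/-!
PROJECT PI, module PI-16. The Banach space of a seminorm.

PROOF. `P.toAddGroupSeminorm.toSeminormedAddCommGroup` (a local instance, best on a type synonym or
with `letI`), `NormedSpace` structure from `map_smul_eq_mul`; `SeparationQuotient` of it is a normed
space (`SeparationQuotient` instances), `UniformSpace.Completion` of it is a Banach space. `T` is the
composition of `SeparationQuotient.mk` and the coercion into the completion
(`UniformSpace.Completion.toComplₗᵢ`); `‖T v‖ = P v`; dense range: `UniformSpace.Completion.denseRange_coe`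
and surjectivity of `mk`. (The completion of a seminormed space is already separated, so the
`SeparationQuotient` can be skipped: `UniformSpace.Completion V` is a `NormedAddCommGroup` for a
`SeminormedAddCommGroup V`.)
-/

set_option autoImplicit false

namespace Pool.Agent.Helper54.PI

theorem exists_banach {𝕜 : Type} [RCLike 𝕜] {V : Type} [AddCommGroup V] [Module 𝕜 V]
    (P : Seminorm 𝕜 V) :
    ∃ (E : Type) (_ : NormedAddCommGroup E) (_ : NormedSpace 𝕜 E) (_ : CompleteSpace E)
      (T : V →ₗ[𝕜] E), (∀ v, ‖T v‖ = P v) ∧ DenseRange T := by
  let i1 : SeminormedAddCommGroup V := P.toAddGroupSeminorm.toSeminormedAddCommGroup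
  let i2 : NormedSpace 𝕜 V :=
    { norm_smul_le := fun a v => le_of_eq (map_smul_eq_mul P a v) }
  refine ⟨UniformSpace.Completion V, inferInstance, inferInstance, inferInstance,
    (UniformSpace.Completion.toComplₗᵢ (𝕜 := 𝕜) (E := V)).toLinearMap, ?_, ?_⟩
  · intro v
    exact UniformSpace.Completion.norm_coe v
  · exact UniformSpace.Completion.denseRange_coe

end Pool.Agent.Helper54.PI
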