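import Mathlib

/-!
PROJECT PI: definitions of the final statement. DONE.
-/

set_option autoImplicit false

namespace Pool.Agent.Helper54.PI

open Finset Filter Topology

/-- `u` is a basic sequence: every element of the closed linear span has a unique expansion. -/
def IsBasic (𝕜 : Type) [RCLike 𝕜] {X : Type} [NormedAddCommGroup X] [NormedSpace 𝕜 X]
    (u : ℕ → X) : Prop :=
  ∀ y ∈ (Submodule.span 𝕜 (Set.range u)).topologicalClosure,
    ∃! a : ℕ → 𝕜, Tendsto (fun N => ∑ n ∈ range N, a n • u n) atTop (𝓝 y)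

/-- `(x, f)` is a bibasic system. -/
structure Bibasic (𝕜 : Type) [RCLike 𝕜] {E : Type} [NormedAddCommGroup E] [NormedSpace 𝕜 E]
    (x : ℕ → E) (f : ℕ → E →L[𝕜] 𝕜) : Prop where
  biorthogonal : ∀ m n, f m (x n) = if m = n then 1 else 0
  basic_x : IsBasic 𝕜 x
  basic_f : IsBasic 𝕜 f

/-- The two series `∑ a_n u_n`, `∑ a_n v_n` converge for the same scalar sequences. -/
def SeqEquiv (𝕜 : Type) [RCLike 𝕜] {X Y : Type} [NormedAddCommGroup X] [NormedSpace 𝕜 X]
    [NormedAddCommGroup Y] [NormedSpace 𝕜 Y] (u : ℕ → X) (v : ℕ → Y) : Prop :=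
  ∀ a : ℕ → 𝕜, (∃ y, Tendsto (fun N => ∑ n ∈ range N, a n • u n) atTop (𝓝 y)) ↔
    ∃ y, Tendsto (fun N => ∑ n ∈ range N, a n • v n) atTop (𝓝 y)

/-- The restrictions of the `f n` to the closed linear span of the `x j`. -/
def restr {𝕜 : Type} [RCLike 𝕜] {E : Type} [NormedAddCommGroup E] [NormedSpace 𝕜 E]
    (x : ℕ → E) (f : ℕ → E →L[𝕜] 𝕜) (n : ℕ) :
    ↥(Submodule.span 𝕜 (Set.range x)).topologicalClosure →L[𝕜] 𝕜 :=
  (f n).comp (Submodule.span 𝕜 (Set.range x)).topologicalClosure.subtypeL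

end Pool.Agent.Helper54.PI
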