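import Mathlib
import Pool.Agent.Helper54.PI.Spec

/-!
PROJECT PI, module PI-22. An equivalent bibasic system gives bounded projections of every rank.

PROOF. Let `Z = [x_n]` (closed span, a Banach space), `φ n = restr x f n`, `S_N = ∑ n < N, φ n ⊗ x_n` on
`Z`. (1) For `y ∈ Z` the expansion `y = ∑ a_n x_n` has `a_n = φ n y` (apply the continuous `f m` and
biorthogonality), so `S_N y → y` and by `banach_steinhaus` `‖S_N‖ ≤ K` for all `N`.
(2) Let `Y ⊂ Z*` be the closed span of the `φ n` (a Banach space). For `g ∈ Y`: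
`∑ n < N, g (x_n) • φ n = g ∘ S_N → g` (true for `g` in the span, eventually constant; the set of
such `g` is closed because `‖g ∘ S_N‖ ≤ K ‖g‖`). By the equivalence `∑ n < N, g (x_n) • f n`
converges in `E*`, so the operators `Θ_N : Y → E*`, `Θ_N g = ∑ n < N, g (x_n) • f n` are pointwise
bounded: `banach_steinhaus`: `‖Θ_N‖ ≤ C`.
(3) For every `ψ ∈ Z*`: `ψ ∘ S_N = ∑ n < N, ψ (x_n) • φ n ∈ Y` has norm `≤ K ‖ψ‖`, and
`Θ_N (ψ ∘ S_N) = ∑ n < N, ψ (x_n) • f n`; so `‖∑ n < N, ψ (x_n) • f n‖ ≤ C K ‖ψ‖`.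
(4) `P_N y = ∑ n < N, f n y • x_n`. For `ψ ∈ E*` (restricted to `Z`):
`|ψ (P_N y)| = |(∑ n < N, ψ (x_n) • f n) y| ≤ C K ‖ψ‖ ‖y‖`; Hahn-Banach (`exists_dual_vector`):
`‖P_N y‖ ≤ C K ‖y‖`.
The range of `P_N` is the span of `x_0, ..., x_(N-1)`, linearly independent by biorthogonality:
dimension `N`; `P_N (P_N y) = P_N y`.
-/

set_option autoImplicit false

namespace Pool.Agent.Helper54.PI

open Finset Filter Topology

private lemma bib_expand {𝕜 E : Type} [RCLike 𝕜] [NormedAddCommGroup E] [NormedSpace 𝕜 E]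
    (x : ℕ → E) (f : ℕ → E →L[𝕜] 𝕜) (hb : Bibasic 𝕜 x f)
    (y : E) (hy : y ∈ (Submodule.span 𝕜 (Set.range x)).topologicalClosure) :
    Tendsto (fun N => ∑ n ∈ range N, f n y • x n) atTop (𝓝 y) := by
  obtain ⟨a, ha, -⟩ := hb.basic_x y hy
  have hcoef : ∀ m, a m = f m y := by
    intro m
    have h1 : Tendsto (fun N => f m (∑ n ∈ range N, a n • x n)) atTop (𝓝 (f m y)) :=
      ((f m).continuous.tendsto y).comp ha
    have h2 : Tendsto (fun N => f m (∑ n ∈ range N, a n • x n)) atTop (𝓝 (a m)) := by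
      refine tendsto_const_nhds.congr' ?_
      filter_upwards [eventually_gt_atTop m] with N hN
      rw [map_sum, Finset.sum_eq_single m]
      · rw [map_smul, hb.biorthogonal, if_pos rfl, smul_eq_mul, mul_one]
      · intro n _ hn
        rw [map_smul, hb.biorthogonal, if_neg (Ne.symm hn), smul_zero]
      · intro h
        exact absurd (Finset.mem_range.2 hN) h
    exact tendsto_nhds_unique h2 h1
  refine ha.congr fun N => ?_
  refine Finset.sum_congr rfl fun n _ => ?_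
  rw [hcoef n]

private lemma bib_bdd {X : Type} [NormedAddCommGroup X] (u : ℕ → X) (y : X)
    (h : Tendsto u atTop (𝓝 y)) : ∃ C : ℝ, ∀ N, ‖u N‖ ≤ C := by
  obtain ⟨C, hC⟩ := (Metric.isBounded_range_of_tendsto u h).exists_norm_le
  exact ⟨C, fun N => hC _ ⟨N, rfl⟩⟩

private lemma bib_unif {𝕜 V W : Type} [RCLike 𝕜] [NormedAddCommGroup V] [NormedSpace 𝕜 V]
    [CompleteSpace V] [NormedAddCommGroup W] [NormedSpace 𝕜 W] (Y : Submodule 𝕜 V)
    (hY : IsClosed (Y : Set V)) (Θ : ℕ → V →L[𝕜] W)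
    (h : ∀ g ∈ Y, ∃ C : ℝ, ∀ N, ‖Θ N g‖ ≤ C) :
    ∃ C : ℝ, 0 ≤ C ∧ ∀ N, ∀ g ∈ Y, ‖Θ N g‖ ≤ C * ‖g‖ := by
  have hcs : CompleteSpace ↥Y := hY.completeSpace_coe
  obtain ⟨C, hC⟩ := banach_steinhaus (g := fun N => (Θ N).comp Y.subtypeL)
    (fun g => h g g.2)
  refine ⟨C, le_trans (norm_nonneg _) (hC 0), fun N g hg => ?_⟩
  have h1 := ((Θ N).comp Y.subtypeL).le_opNorm ⟨g, hg⟩
  refine le_trans h1 ?_
  exact mul_le_mul_of_nonneg_right (hC N) (norm_nonneg _)

private lemma bib_key {𝕜 E : Type} [RCLike 𝕜] [NormedAddCommGroup E] [NormedSpace 𝕜 E]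
    [CompleteSpace E] (x : ℕ → E) (f : ℕ → E →L[𝕜] 𝕜) (hb : Bibasic 𝕜 x f)
    (he : SeqEquiv 𝕜 f (restr x f)) :
    ∃ C : ℝ, 0 ≤ C ∧ ∀ N : ℕ, ∀ g : E →L[𝕜] 𝕜,
      ‖∑ n ∈ range N, g (x n) • f n‖ ≤ C * ‖g‖ := by
  obtain ⟨Z, hZ⟩ : ∃ Z : Submodule 𝕜 E, Z = (Submodule.span 𝕜 (Set.range x)).topologicalClosure :=
    ⟨_, rfl⟩
  have hxZ : ∀ n, x n ∈ (Submodule.span 𝕜 (Set.range x)).topologicalClosure := fun n =>
    Submodule.le_topologicalClosure _ (Submodule.subset_span ⟨n, rfl⟩)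
  obtain ⟨xz, hxz⟩ : ∃ xz : ℕ → ↥(Submodule.span 𝕜 (Set.range x)).topologicalClosure,
      ∀ n, (xz n : E) = x n := ⟨fun n => ⟨x n, hxZ n⟩, fun n => rfl⟩
  obtain ⟨φ, hφ⟩ : ∃ φ : ℕ → ↥(Submodule.span 𝕜 (Set.range x)).topologicalClosure →L[𝕜] 𝕜,
      φ = restr x f := ⟨_, rfl⟩
  have hφa : ∀ n z, φ n z = f n (z : E) := by
    intro n z
    rw [hφ]
    rfl
  have hφx : ∀ m n, φ m (xz n) = if m = n then 1 else 0 := by
    intro m n
    rw [hφa, hxz, hb.biorthogonal]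
  rw [← hφ] at he
  obtain ⟨S, hS⟩ : ∃ S : ℕ → ↥(Submodule.span 𝕜 (Set.range x)).topologicalClosure →L[𝕜]
      ↥(Submodule.span 𝕜 (Set.range x)).topologicalClosure,
      S = fun N => ∑ n ∈ range N, (φ n).smulRight (xz n) := ⟨_, rfl⟩
  have hSa : ∀ N z, S N z = ∑ n ∈ range N, φ n z • xz n := by
    intro N z
    rw [hS]
    simp
  have hSlim : ∀ z, Tendsto (fun N => S N z) atTop (𝓝 z) := by
    intro z
    have h1 := bib_expand x f hb (z : E) z.2
    rw [tendsto_subtype_rng]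
    refine h1.congr fun N => ?_
    rw [hSa, Submodule.coe_sum]
    refine Finset.sum_congr rfl fun n _ => ?_
    rw [Submodule.coe_smul, hxz, hφa]
  obtain ⟨K, hK⟩ := banach_steinhaus (g := S) (fun z => bib_bdd _ _ (hSlim z))
  have hK0 : 0 ≤ K := le_trans (norm_nonneg _) (hK 0)
  -- the space Y
  have hcomp : ∀ N (g : ↥(Submodule.span 𝕜 (Set.range x)).topologicalClosure →L[𝕜] 𝕜),
      g.comp (S N) = ∑ n ∈ range N, g (xz n) • φ n := by
    intro N g
    ext z
    rw [ContinuousLinearMap.comp_apply, hSa, map_sum, _root_.sum_apply]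
    refine Finset.sum_congr rfl fun n _ => ?_
    rw [map_smul, _root_.smul_apply, smul_eq_mul, smul_eq_mul, mul_comm]
  have hnormcomp : ∀ N (g : ↥(Submodule.span 𝕜 (Set.range x)).topologicalClosure →L[𝕜] 𝕜),
      ‖g.comp (S N)‖ ≤ K * ‖g‖ := by
    intro N g
    refine (ContinuousLinearMap.opNorm_comp_le g (S N)).trans ?_
    rw [mul_comm]
    exact mul_le_mul_of_nonneg_right (hK N) (norm_nonneg _)
  have hspan : ∀ g ∈ Submodule.span 𝕜 (Set.range φ), ∃ N₀, ∀ N, N₀ ≤ N → g.comp (S N) = g := by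
    intro g hg
    induction hg using Submodule.span_induction with
    | mem g hg =>
      obtain ⟨m, rfl⟩ := hg
      refine ⟨m + 1, fun N hN => ?_⟩
      rw [hcomp, Finset.sum_eq_single m]
      · rw [hφx, if_pos rfl, one_smul]
      · intro n _ hn
        rw [hφx, if_neg (Ne.symm hn)]
        exact zero_smul 𝕜 (φ n)
      · intro h
        exact absurd (Finset.mem_range.2 (by omega)) h
    | zero => exact ⟨0, fun N _ => by rw [ContinuousLinearMap.zero_comp]⟩
    | add g h _ _ hg hh =>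
      obtain ⟨a, ha⟩ := hg
      obtain ⟨b, hb'⟩ := hh
      refine ⟨max a b, fun N hN => ?_⟩
      rw [ContinuousLinearMap.add_comp, ha N (le_trans (le_max_left _ _) hN),
        hb' N (le_trans (le_max_right _ _) hN)]
    | smul c g _ hg =>
      obtain ⟨a, ha⟩ := hg
      refine ⟨a, fun N hN => ?_⟩
      rw [ContinuousLinearMap.smul_comp, ha N hN]
  have hYlim : ∀ g ∈ (Submodule.span 𝕜 (Set.range φ)).topologicalClosure,
      Tendsto (fun N => ∑ n ∈ range N, g (xz n) • φ n) atTop (𝓝 g) := by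
    intro g hg
    rw [Metric.tendsto_atTop]
    intro ε hε
    have hg2 : g ∈ closure (Submodule.span 𝕜 (Set.range φ) :
        Set (↥(Submodule.span 𝕜 (Set.range x)).topologicalClosure →L[𝕜] 𝕜)) := hg
    rw [Metric.mem_closure_iff] at hg2
    obtain ⟨g', hg', hd⟩ := hg2 (ε / (K + 2)) (by positivity)
    obtain ⟨N₀, hN₀⟩ := hspan g' hg'
    refine ⟨N₀, fun N hN => ?_⟩
    rw [← hcomp, dist_eq_norm]
    have e1 : g.comp (S N) - g = (g - g').comp (S N) - (g - g') := by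
      rw [ContinuousLinearMap.sub_comp, hN₀ N hN]
      abel
    rw [e1]
    rw [dist_eq_norm] at hd
    have h3 := hnormcomp N (g - g')
    have h4 := norm_sub_le ((g - g').comp (S N)) (g - g')
    have h5 : (K + 1) * ‖g - g'‖ < ε := by
      have h6 : (K + 1) * ‖g - g'‖ ≤ (K + 1) * (ε / (K + 2)) :=
        mul_le_mul_of_nonneg_left hd.le (by linarith)
      have h7 : (K + 1) * (ε / (K + 2)) < ε := by
        rw [mul_div_assoc', div_lt_iff₀ (by linarith)]
        nlinarith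
      linarith
    nlinarith
  obtain ⟨Θ, hΘ⟩ : ∃ Θ : ℕ →
      (↥(Submodule.span 𝕜 (Set.range x)).topologicalClosure →L[𝕜] 𝕜) →L[𝕜] (E →L[𝕜] 𝕜),
      ∀ N g, Θ N g = ∑ n ∈ range N, g (xz n) • f n := by
    refine ⟨fun N => ∑ n ∈ range N,
      (ContinuousLinearMap.apply 𝕜 𝕜 (xz n)).smulRight (f n), fun N g => ?_⟩
    simp
  obtain ⟨C, hC0, hC⟩ := bib_unif (Submodule.span 𝕜 (Set.range φ)).topologicalClosure
    (Submodule.isClosed_topologicalClosure _) Θ (by
      intro g hg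
      obtain ⟨w, hw⟩ := (he (fun n => g (xz n))).2 ⟨_, hYlim g hg⟩
      obtain ⟨C, hC⟩ := bib_bdd _ _ hw
      refine ⟨C, fun N => ?_⟩
      rw [hΘ]
      exact hC N)
  refine ⟨C * K, mul_nonneg hC0 hK0, fun N g => ?_⟩
  obtain ⟨ψ, hψ⟩ : ∃ ψ : ↥(Submodule.span 𝕜 (Set.range x)).topologicalClosure →L[𝕜] 𝕜,
      ψ = g.comp (Submodule.span 𝕜 (Set.range x)).topologicalClosure.subtypeL := ⟨_, rfl⟩
  have hψa : ∀ n, ψ (xz n) = g (x n) := by
    intro n
    rw [hψ, ContinuousLinearMap.comp_apply, Submodule.subtypeL_apply, hxz]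
  have hψn : ‖ψ‖ ≤ ‖g‖ := by
    rw [hψ]
    refine ContinuousLinearMap.opNorm_le_bound _ (norm_nonneg _) fun z => ?_
    exact g.le_opNorm z
  have hmem : ψ.comp (S N) ∈ (Submodule.span 𝕜 (Set.range φ)).topologicalClosure := by
    rw [hcomp]
    refine Submodule.le_topologicalClosure _ ?_
    refine Submodule.sum_mem _ fun n _ => Submodule.smul_mem _ _ (Submodule.subset_span ⟨n, rfl⟩)
  have hΘv : Θ N (ψ.comp (S N)) = ∑ n ∈ range N, g (x n) • f n := by
    rw [hΘ]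
    refine Finset.sum_congr rfl fun n hn => ?_
    have h1 : S N (xz n) = xz n := by
      rw [hSa, Finset.sum_eq_single n]
      · rw [hφx, if_pos rfl, one_smul]
      · intro m _ hm
        rw [hφx, if_neg hm, zero_smul]
      · intro h
        exact absurd hn h
    have h2 : (ψ.comp (S N)) (xz n) = g (x n) := by
      rw [ContinuousLinearMap.comp_apply, h1, hψa]
    rw [h2]
  rw [← hΘv]
  have h2 := hnormcomp N ψ
  calc ‖Θ N (ψ.comp (S N))‖ ≤ C * ‖ψ.comp (S N)‖ := hC N _ hmem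
    _ ≤ C * (K * ‖g‖) := by
        refine mul_le_mul_of_nonneg_left ?_ hC0
        exact h2.trans (mul_le_mul_of_nonneg_left hψn hK0)
    _ = C * K * ‖g‖ := by ring

theorem bib_proj {𝕜 E : Type} [RCLike 𝕜] [NormedAddCommGroup E] [NormedSpace 𝕜 E]
    [CompleteSpace E] (x : ℕ → E) (f : ℕ → E →L[𝕜] 𝕜) (hb : Bibasic 𝕜 x f)
    (he : SeqEquiv 𝕜 f (restr x f)) :
    ∃ C : ℝ, ∀ N : ℕ, ∃ P : E →L[𝕜] E, ‖P‖ ≤ C ∧ (∀ y, P (P y) = P y) ∧
      FiniteDimensional 𝕜 (LinearMap.range (P : E →ₗ[𝕜] E)) ∧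
      Module.finrank 𝕜 (LinearMap.range (P : E →ₗ[𝕜] E)) = N := by
  obtain ⟨C, hC0, hC⟩ := bib_key x f hb he
  refine ⟨C, fun N => ?_⟩
  obtain ⟨P, hP⟩ : ∃ P : E →L[𝕜] E, ∀ y, P y = ∑ n ∈ range N, f n y • x n := by
    refine ⟨∑ n ∈ range N, (f n).smulRight (x n), fun y => ?_⟩
    simp
  have hPx : ∀ n, n < N → P (x n) = x n := by
    intro n hn
    rw [hP, Finset.sum_eq_single n]
    · rw [hb.biorthogonal, if_pos rfl, one_smul]
    · intro m _ hm
      rw [hb.biorthogonal, if_neg hm, zero_smul]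
    · intro h
      exact absurd (Finset.mem_range.2 hn) h
  have hrange : LinearMap.range (P : E →ₗ[𝕜] E) =
      Submodule.span 𝕜 (Set.range (fun i : Fin N => x i)) := by
    apply le_antisymm
    · rintro _ ⟨y, rfl⟩
      change P y ∈ _
      rw [hP]
      refine Submodule.sum_mem _ fun n hn => Submodule.smul_mem _ _ (Submodule.subset_span ?_)
      exact ⟨⟨n, Finset.mem_range.1 hn⟩, rfl⟩
    · rw [Submodule.span_le]
      rintro _ ⟨i, rfl⟩
      exact ⟨x i, hPx i i.2⟩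
  have hli : LinearIndependent 𝕜 (fun i : Fin N => x i) := by
    rw [linearIndependent_iff']
    intro s g hs i hi
    have h1 : f i (∑ j ∈ s, g j • x j) = g i := by
      rw [map_sum, Finset.sum_eq_single i]
      · rw [map_smul, hb.biorthogonal, if_pos rfl, smul_eq_mul, mul_one]
      · intro j _ hj
        have hne : (i : ℕ) ≠ (j : ℕ) := fun h => hj (Fin.ext h.symm)
        rw [map_smul, hb.biorthogonal, if_neg hne, smul_zero]
      · intro h
        exact absurd hi h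
    rw [hs, map_zero] at h1
    exact h1.symm
  refine ⟨P, ?_, ?_, ?_, ?_⟩
  · refine ContinuousLinearMap.opNorm_le_bound _ hC0 fun y => ?_
    obtain ⟨g, hg1, hg2⟩ := exists_dual_vector'' 𝕜 (P y)
    have h1 : g (P y) = (∑ n ∈ range N, g (x n) • f n) y := by
      rw [hP, map_sum, _root_.sum_apply]
      refine Finset.sum_congr rfl fun n _ => ?_
      rw [map_smul, _root_.smul_apply, smul_eq_mul, smul_eq_mul, mul_comm]
    have h2 : ‖g (P y)‖ = ‖P y‖ := by
      rw [hg2, RCLike.norm_ofReal, abs_of_nonneg (norm_nonneg _)]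
    rw [← h2, h1]
    refine (ContinuousLinearMap.le_opNorm _ y).trans ?_
    refine mul_le_mul_of_nonneg_right ?_ (norm_nonneg _)
    refine (hC N g).trans ?_
    calc C * ‖g‖ ≤ C * 1 := mul_le_mul_of_nonneg_left hg1 hC0
      _ = C := mul_one C
  · intro y
    conv_lhs => rw [hP y]
    rw [map_sum, hP y]
    refine Finset.sum_congr rfl fun n hn => ?_
    rw [map_smul, hPx n (Finset.mem_range.1 hn)]
  · rw [hrange]
    exact FiniteDimensional.span_of_finite 𝕜 (Set.finite_range _)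
  · rw [hrange, finrank_span_eq_card hli, Fintype.card_fin]

end Pool.Agent.Helper54.PI
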