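import Mathlib
import Pool.Agent.Helper54.PI.Defs

/-!
PROJECT PI, module PI-04. Elementary properties of the `L_2` norms `N2`.

PROOF. `N2 p f = sqrt (∑ p (f w) ^ 2) / sqrt (2 ^ k)`; Minkowski for finite sums
(`Real.Lp_add_le` with exponent `2`, or `EuclideanSpace` norm triangle inequality, or
Cauchy-Schwarz); `av_le_N2` is Cauchy-Schwarz (`inner_mul_le_norm_mul_norm` or
`Finset.sum_mul_sq_le_sq_mul_sq`, or `av ((p f - av p f) ^ 2) ≥ 0`).
-/

set_option autoImplicit false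

namespace Pool.Agent.Helper54.PI

open Finset

variable {𝕜 : Type} [RCLike 𝕜] {X : Type} [AddCommGroup X] [Module 𝕜 X]

private theorem cs {k : ℕ} (u v : Cube k → ℝ) :
    (av fun w => u w * v w) ≤
      Real.sqrt (av fun w => u w ^ 2) * Real.sqrt (av fun w => v w ^ 2) := by
  rw [← Real.sqrt_mul (av_nonneg fun w => sq_nonneg _)]
  apply Real.le_sqrt_of_sq_le
  unfold av
  rw [div_pow, div_mul_div_comm, ← sq]
  exact div_le_div_of_nonneg_right (Finset.sum_mul_sq_le_sq_mul_sq _ _ _) (by positivity)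

private theorem mink {k : ℕ} (u v : Cube k → ℝ) :
    Real.sqrt (av fun w => (u w + v w) ^ 2) ≤
      Real.sqrt (av fun w => u w ^ 2) + Real.sqrt (av fun w => v w ^ 2) := by
  apply Real.sqrt_le_iff.2
  refine ⟨add_nonneg (Real.sqrt_nonneg _) (Real.sqrt_nonneg _), ?_⟩
  have h1 : (av fun w => (u w + v w) ^ 2) =
      (av fun w => u w ^ 2) + 2 * (av fun w => u w * v w) + av fun w => v w ^ 2 := by
    rw [← av_mul, ← av_add, ← av_add]
    congr 1
    funext w
    ring
  rw [h1, add_sq, Real.sq_sqrt (av_nonneg fun w => sq_nonneg _),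
    Real.sq_sqrt (av_nonneg fun w => sq_nonneg _)]
  have := cs u v
  nlinarith [this]

private theorem mono {k : ℕ} (u v : Cube k → ℝ) (hu : ∀ w, 0 ≤ u w) (h : ∀ w, u w ≤ v w) :
    Real.sqrt (av fun w => u w ^ 2) ≤ Real.sqrt (av fun w => v w ^ 2) :=
  Real.sqrt_le_sqrt (av_mono fun w => pow_le_pow_left₀ (hu w) (h w) 2)

theorem N2_nonneg (p : Seminorm 𝕜 X) {k : ℕ} (f : Cube k → X) : 0 ≤ N2 p f := by
  exact Real.sqrt_nonneg _

theorem N2_sq (p : Seminorm 𝕜 X) {k : ℕ} (f : Cube k → X) :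
    N2 p f ^ 2 = av fun w => p (f w) ^ 2 := by
  exact Real.sq_sqrt (av_nonneg fun w => sq_nonneg _)

theorem N2_add_le (p : Seminorm 𝕜 X) {k : ℕ} (f g : Cube k → X) :
    N2 p (fun w => f w + g w) ≤ N2 p f + N2 p g := by
  refine (mono _ _ (fun w => apply_nonneg p _) fun w => map_add_le_add p (f w) (g w)).trans ?_
  exact mink _ _

theorem N2_sub_le (p : Seminorm 𝕜 X) {k : ℕ} (f g : Cube k → X) :
    N2 p (fun w => f w - g w) ≤ N2 p f + N2 p g := by
  refine (mono _ _ (fun w => apply_nonneg p _) fun w => map_sub_le_add p (f w) (g w)).trans ?_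
  exact mink _ _

theorem N2_smul (p : Seminorm 𝕜 X) {k : ℕ} (c : 𝕜) (f : Cube k → X) :
    N2 p (fun w => c • f w) = ‖c‖ * N2 p f := by
  unfold N2
  have h : (av fun w => p (c • f w) ^ 2) = ‖c‖ ^ 2 * av fun w => p (f w) ^ 2 := by
    rw [← av_mul]
    congr 1
    funext w
    rw [map_smul_eq_mul]
    ring
  rw [h, Real.sqrt_mul (sq_nonneg _), Real.sqrt_sq (norm_nonneg _)]

theorem av_le_N2 (p : Seminorm 𝕜 X) {k : ℕ} (f : Cube k → X) :
    (av fun w => p (f w)) ≤ N2 p f := by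
  have h := cs (fun w => p (f w)) (fun _ : Cube k => (1 : ℝ))
  simp only [mul_one, one_pow, av_const, Real.sqrt_one] at h
  exact h

/-- Comparison, also between different spaces, with an additive error. -/
theorem N2_le_of {Y : Type} [AddCommGroup Y] [Module 𝕜 Y] (p : Seminorm 𝕜 X) (q : Seminorm 𝕜 Y)
    {k : ℕ} (f : Cube k → X) (g : Cube k → Y) (δ : ℝ) (hδ : 0 ≤ δ)
    (h : ∀ w, p (f w) ≤ q (g w) + δ) : N2 p f ≤ N2 q g + δ := by
  refine (mono _ _ (fun w => apply_nonneg p _) h).trans ((mink _ _).trans (le_of_eq ?_))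
  rw [av_const, Real.sqrt_sq hδ]
  rfl

/-- Comparison with a constant. -/
theorem N2_le_const (p : Seminorm 𝕜 X) {k : ℕ} (f : Cube k → X) (C : ℝ) (hC : 0 ≤ C)
    (h : ∀ w, p (f w) ≤ C) : N2 p f ≤ C := by
  refine (mono _ (fun _ : Cube k => C) (fun w => apply_nonneg p _) h).trans (le_of_eq ?_)
  rw [av_const, Real.sqrt_sq hC]

end Pool.Agent.Helper54.PI
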