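import Mathlib
import Pool.Agent.Helper54.PI.Defs
import Pool.Agent.Helper54.PI.NTwo

/-!
PROJECT PI, module PI-05. `UU` is a contraction of `L_2` of the cube with values in any seminormed
space.

PROOF. Let `K_a (x, y) = 2 ^ (-k) ∏ i, (1 + a s_i)`, `s_i = sg (x i) sg (y i)`, `|a| ≤ 1`.
`K_a ≥ 0` (each factor is `≥ 0`), `K_a` is symmetric and `∑ y, K_a (x, y) = 1`: the sum over
`y : Fin k → Bool` of a product is the product of the sums over bits
(`Finset.prod_univ_sum` / `Fintype.piFinset_univ`), each `(1 + a s) + (1 - a s) = 2`.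
For `T_a f x = ∑ y, K_a (x, y) f y`: `p (T_a f x) ≤ ∑ y, K_a p (f y)`, so by Cauchy-Schwarz
(weights of total mass 1, e.g. `inner_mul_le_norm_mul_norm`, `Finset.sum_mul_sq_le_sq_mul_sq` or
`(convexOn_pow 2).map_sum_le`) `p (T_a f x) ^ 2 ≤ ∑ y, K_a (x, y) p (f y) ^ 2`, and
`av_x ≤ av (p (f y) ^ 2)` since `∑ x, K_a (x, y) = 1`. So `N2 p (T_a f) ≤ N2 p f`, the same for `-a`,
and `UU = (T_a - T_(-a)) / 2`: `N2_sub_le`, `N2_smul`.
-/

set_option autoImplicit false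

namespace Pool.Agent.Helper54.PI

open Finset

private noncomputable def KK {k : ℕ} (a : ℝ) (x y : Cube k) : ℝ :=
  (∏ i, (1 + a * ((sg (x i) : ℝ) * sg (y i)))) / 2 ^ k

private theorem sg_sq_abs (b c : Bool) : |((sg b : ℝ) * sg c)| = 1 := by
  cases b <;> cases c <;> simp [sg]

private theorem KK_nonneg {k : ℕ} (a : ℝ) (ha : |a| ≤ 1) (x y : Cube k) : 0 ≤ KK a x y := by
  unfold KK
  refine div_nonneg (Finset.prod_nonneg fun i _ => ?_) (by positivity)
  have h : |a * ((sg (x i) : ℝ) * sg (y i))| ≤ 1 := by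
    rw [abs_mul, sg_sq_abs, mul_one]
    exact ha
  have := (abs_le.1 h).1
  linarith

private theorem KK_symm {k : ℕ} (a : ℝ) (x y : Cube k) : KK a x y = KK a y x := by
  unfold KK
  congr 1
  refine Finset.prod_congr rfl fun i _ => ?_
  ring

private theorem KK_sum {k : ℕ} (a : ℝ) (x : Cube k) : ∑ y, KK a x y = 1 := by
  unfold KK
  rw [← Finset.sum_div]
  have h : ∑ y : Cube k, ∏ i, (1 + a * ((sg (x i) : ℝ) * sg (y i))) = 2 ^ k := by
    have h1 := Finset.prod_univ_sum (fun _ : Fin k => (Finset.univ : Finset Bool))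
      (fun i b => (1 + a * ((sg (x i) : ℝ) * sg b)))
    rw [Fintype.piFinset_univ] at h1
    rw [← h1]
    have h2 : ∀ i : Fin k, ∑ b : Bool, (1 + a * ((sg (x i) : ℝ) * sg b)) = 2 := by
      intro i
      simp [sg]
      ring
    rw [Finset.prod_congr rfl fun i _ => h2 i, Finset.prod_const, Finset.card_univ,
      Fintype.card_fin]
  rw [h]
  exact div_self (by positivity)

private theorem jensen {𝕜 : Type} [RCLike 𝕜] {X : Type} [AddCommGroup X] [Module 𝕜 X]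
    (p : Seminorm 𝕜 X) {k : ℕ} (K : Cube k → Cube k → ℝ) (h0 : ∀ x y, 0 ≤ K x y)
    (h1 : ∀ x, ∑ y, K x y = 1) (h2 : ∀ y, ∑ x, K x y = 1) (f : Cube k → X) :
    N2 p (fun x => ∑ y, ((K x y : ℝ) : 𝕜) • f y) ≤ N2 p f := by
  unfold N2
  refine Real.sqrt_le_sqrt ?_
  have h3 : ∀ x, p (∑ y, ((K x y : ℝ) : 𝕜) • f y) ^ 2 ≤ ∑ y, K x y * p (f y) ^ 2 := by
    intro x
    have h4 : p (∑ y, ((K x y : ℝ) : 𝕜) • f y) ≤ ∑ y, K x y * p (f y) := by
      refine (Finset.le_sum_of_subadditive p (map_zero p).le (map_add_le_add p) _ _).trans (le_of_eq ?_)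
      refine Finset.sum_congr rfl fun y _ => ?_
      rw [map_smul_eq_mul, RCLike.norm_ofReal, abs_of_nonneg (h0 x y)]
    refine (pow_le_pow_left₀ (apply_nonneg p _) h4 2).trans ?_
    have h5 := Finset.sum_mul_sq_le_sq_mul_sq Finset.univ (fun y => Real.sqrt (K x y))
      (fun y => Real.sqrt (K x y) * p (f y))
    have h6 : ∀ y, Real.sqrt (K x y) * (Real.sqrt (K x y) * p (f y)) = K x y * p (f y) := by
      intro y
      rw [← mul_assoc, Real.mul_self_sqrt (h0 x y)]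
    have h7 : ∀ y, Real.sqrt (K x y) ^ 2 = K x y := fun y => Real.sq_sqrt (h0 x y)
    have h8 : ∀ y, (Real.sqrt (K x y) * p (f y)) ^ 2 = K x y * p (f y) ^ 2 := by
      intro y
      rw [mul_pow, h7]
    simp only [h6, h7, h8, h1, one_mul] at h5
    exact h5
  refine (av_mono h3).trans (le_of_eq ?_)
  unfold av
  congr 1
  rw [Finset.sum_comm]
  refine Finset.sum_congr rfl fun y _ => ?_
  rw [← Finset.sum_mul, h2, one_mul]

theorem N2_UU {𝕜 : Type} [RCLike 𝕜] {X : Type} [AddCommGroup X] [Module 𝕜 X] (p : Seminorm 𝕜 X)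
    {k : ℕ} (a : ℝ) (h0 : 0 ≤ a) (h1 : a ≤ 1) (f : Cube k → X) :
    N2 p (UU 𝕜 a f) ≤ N2 p f := by
  have ha : |a| ≤ 1 := abs_le.2 ⟨by linarith, h1⟩
  have ha' : |-a| ≤ 1 := by rwa [abs_neg]
  have hT : ∀ b : ℝ, |b| ≤ 1 → N2 p (fun x => ∑ y, ((KK b x y : ℝ) : 𝕜) • f y) ≤ N2 p f := by
    intro b hb
    refine jensen p (KK b) (KK_nonneg b hb) (KK_sum b) (fun y => ?_) f
    rw [Finset.sum_congr rfl fun x _ => KK_symm b x y]
    exact KK_sum b y
  have hU : UU 𝕜 a f = fun x => ((2 : 𝕜)⁻¹) • ((∑ y, ((KK a x y : ℝ) : 𝕜) • f y) -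
      ∑ y, ((KK (-a) x y : ℝ) : 𝕜) • f y) := by
    funext x
    unfold UU
    rw [← Finset.sum_sub_distrib, Finset.smul_sum]
    refine Finset.sum_congr rfl fun y _ => ?_
    rw [← sub_smul, smul_smul]
    congr 1
    have h3 : kap a x y = 2⁻¹ * (KK a x y - KK (-a) x y) := by
      unfold kap KK
      have h4 : ∏ i, (1 + -a * ((sg (x i) : ℝ) * sg (y i))) =
          ∏ i, (1 - a * ((sg (x i) : ℝ) * sg (y i))) := by
        refine Finset.prod_congr rfl fun i _ => ?_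
        ring
      rw [h4]
      ring
    rw [h3]
    push_cast
    ring
  rw [hU, N2_smul]
  have h5 := N2_sub_le p (fun x => ∑ y, ((KK a x y : ℝ) : 𝕜) • f y)
    (fun x => ∑ y, ((KK (-a) x y : ℝ) : 𝕜) • f y)
  have h6 := hT a ha
  have h7 := hT (-a) ha'
  have h8 : ‖(2 : 𝕜)⁻¹‖ = 1 / 2 := by
    rw [norm_inv, RCLike.norm_ofNat]
    norm_num
  rw [h8]
  linarith

end Pool.Agent.Helper54.PI
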