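import Mathlib
import Pool.Agent.Helper54.PI.Defs

/-!
PROJECT PI, module PI-01. Walsh functions on the cube (scalar functions).

PROOF. `∑ A, wal A x * wal A y = ∏ i, (1 + sg (x i) sg (y i))` (`Finset.prod_one_add` or
`Finset.prod_add_one`, product over subsets of the universe) `= 2 ^ k` if `x = y` (each factor is
`2`), and `0` otherwise (one factor is `0`).
(`parseval`) `∑ A ‖wc f A‖ ^ 2 = 2 ^ (-2k) ∑ A ∑ x y wal A x wal A y re (f x conj (f y))`; exchange the
sums. (For instance via `RCLike.mul_conj`: `(‖c‖ ^ 2 : 𝕜) = c * conj c`, and cast.)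
(`wc_flip`) change of variables `w ↦ update w j (!w j)` (an involution): `wal A` changes its sign
iff `j ∈ A`. (`wc_neg`) the same with all bits: sign `(-1) ^ A.card`.
-/

set_option autoImplicit false

namespace Pool.Agent.Helper54.PI

open Finset

private theorem sg_sq (b : Bool) : (sg b : ℝ) * sg b = 1 := by
  cases b <;> simp [sg]

private theorem sg_not (b : Bool) : (sg (!b) : ℝ) = -sg b := by
  cases b <;> simp [sg]

private theorem sg_ne {a b : Bool} (h : a ≠ b) : (sg a : ℝ) * sg b = -1 := by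
  cases a <;> cases b <;> simp_all [sg]

private theorem sum_wal {k : ℕ} (x y : Cube k) :
    ∑ A : Finset (Fin k), wal A x * wal A y = if x = y then (2 : ℝ) ^ k else 0 := by
  have h1 : ∑ A : Finset (Fin k), wal A x * wal A y =
      ∏ i : Fin k, (1 + (sg (x i) : ℝ) * sg (y i)) := by
    rw [Finset.prod_one_add]
    rw [Finset.powerset_univ]
    refine Finset.sum_congr rfl fun A _ => ?_
    unfold wal
    rw [Finset.prod_mul_distrib]
  rw [h1]
  split_ifs with h
  · subst h
    rw [Finset.prod_congr rfl (fun i _ => by rw [sg_sq] : ∀ i ∈ (Finset.univ : Finset (Fin k)),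
      (1 + (sg (x i) : ℝ) * sg (x i)) = 1 + 1)]
    rw [Finset.prod_const, Finset.card_univ, Fintype.card_fin]
    norm_num
  · obtain ⟨i, hi⟩ := Function.ne_iff.1 h
    exact Finset.prod_eq_zero (Finset.mem_univ i) (by rw [sg_ne hi]; norm_num)

theorem parseval {𝕜 : Type} [RCLike 𝕜] {k : ℕ} (f : Cube k → 𝕜) :
    (av fun w => ‖f w‖ ^ 2) = ∑ A : Finset (Fin k), ‖wc f A‖ ^ 2 := by
  have hcast : (((av fun w => ‖f w‖ ^ 2 : ℝ)) : 𝕜) =
      ((∑ A : Finset (Fin k), ‖wc f A‖ ^ 2 : ℝ) : 𝕜) := by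
    have hR : ((∑ A : Finset (Fin k), ‖wc f A‖ ^ 2 : ℝ) : 𝕜) =
        ∑ A : Finset (Fin k), wc f A * (starRingEnd 𝕜) (wc f A) := by
      rw [RCLike.ofReal_sum]
      refine Finset.sum_congr rfl fun A _ => ?_
      rw [RCLike.mul_conj, RCLike.ofReal_pow]
    rw [hR]
    have hterm : ∀ A : Finset (Fin k), wc f A * (starRingEnd 𝕜) (wc f A) =
        ((2 : 𝕜) ^ k)⁻¹ * ((2 : 𝕜) ^ k)⁻¹ * ∑ x, ∑ y,
          ((wal A x * wal A y : ℝ) : 𝕜) * (f x * (starRingEnd 𝕜) (f y)) := by
      intro A
      unfold wc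
      rw [map_mul, map_sum, map_inv₀, map_pow]
      have h2 : (starRingEnd 𝕜) (2 : 𝕜) = 2 := map_ofNat _ 2
      rw [h2]
      have h3 : ∀ y, (starRingEnd 𝕜) (((wal A y : ℝ) : 𝕜) * f y) =
          ((wal A y : ℝ) : 𝕜) * (starRingEnd 𝕜) (f y) := by
        intro y
        rw [map_mul, RCLike.conj_ofReal]
      rw [Finset.sum_congr rfl (fun y _ => h3 y)]
      rw [mul_mul_mul_comm, Finset.sum_mul_sum]
      congr 1
      refine Finset.sum_congr rfl fun x _ => Finset.sum_congr rfl fun y _ => ?_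
      push_cast
      ring
    rw [Finset.sum_congr rfl (fun A _ => hterm A), ← Finset.mul_sum]
    rw [Finset.sum_comm]
    have h4 : ∀ x : Cube k, ∑ A : Finset (Fin k), ∑ y,
        ((wal A x * wal A y : ℝ) : 𝕜) * (f x * (starRingEnd 𝕜) (f y)) =
        (2 : 𝕜) ^ k * ((‖f x‖ ^ 2 : ℝ) : 𝕜) := by
      intro x
      rw [Finset.sum_comm]
      have h5 : ∀ y : Cube k, ∑ A : Finset (Fin k),
          ((wal A x * wal A y : ℝ) : 𝕜) * (f x * (starRingEnd 𝕜) (f y)) =
          if x = y then (2 : 𝕜) ^ k * ((‖f x‖ ^ 2 : ℝ) : 𝕜) else 0 := by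
        intro y
        rw [← Finset.sum_mul, ← RCLike.ofReal_sum, sum_wal]
        split_ifs with h
        · subst h
          rw [RCLike.mul_conj]
          push_cast
          rfl
        · simp
      rw [Finset.sum_congr rfl (fun y _ => h5 y)]
      rw [Finset.sum_ite_eq]
      simp
    rw [Finset.sum_congr rfl (fun x _ => h4 x), ← Finset.mul_sum]
    unfold av
    rw [RCLike.ofReal_div, RCLike.ofReal_sum, RCLike.ofReal_pow]
    have h2 : ((2 : 𝕜) ^ k) ≠ 0 := pow_ne_zero _ two_ne_zero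
    have h6 : (((2 : ℝ) : 𝕜)) = 2 := RCLike.ofReal_ofNat 2
    rw [h6]
    field_simp
  exact_mod_cast hcast

theorem wc_single {𝕜 : Type} [RCLike 𝕜] {k : ℕ} (f : Cube k → 𝕜) (j : Fin k) :
    wc f {j} = co 𝕜 f j := by
  unfold wc co wal
  rw [smul_eq_mul]
  congr 1
  refine Finset.sum_congr rfl fun w _ => ?_
  rw [Finset.prod_singleton, zsmul_eq_mul]
  push_cast
  rfl

theorem wc_empty {𝕜 : Type} [RCLike 𝕜] {k : ℕ} (f : Cube k → 𝕜) :
    wc f ∅ = ((2 : 𝕜) ^ k)⁻¹ * ∑ w, f w := by
  unfold wc wal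
  simp

private theorem flip_inv {k : ℕ} (j : Fin k) :
    Function.Involutive (fun w : Cube k => Function.update w j (!w j)) := by
  intro w
  funext i
  by_cases h : i = j
  · subst h; simp
  · simp [Function.update_of_ne h]

private theorem wal_flip {k : ℕ} (j : Fin k) (A : Finset (Fin k)) (w : Cube k) :
    wal A (Function.update w j (!w j)) = (if j ∈ A then -1 else 1) * wal A w := by
  unfold wal
  split_ifs with h
  · rw [← Finset.mul_prod_erase A _ h, ← Finset.mul_prod_erase A (fun i => (sg (w i) : ℝ)) h]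
    rw [Function.update_self, sg_not]
    have : ∏ x ∈ A.erase j, (sg (Function.update w j (!w j) x) : ℝ) =
        ∏ x ∈ A.erase j, (sg (w x) : ℝ) := by
      refine Finset.prod_congr rfl fun i hi => ?_
      rw [Function.update_of_ne (Finset.ne_of_mem_erase hi)]
    rw [this]
    ring
  · rw [one_mul]
    refine Finset.prod_congr rfl fun i hi => ?_
    have : i ≠ j := fun e => h (e ▸ hi)
    rw [Function.update_of_ne this]

theorem wc_flip {𝕜 : Type} [RCLike 𝕜] {k : ℕ} (f : Cube k → 𝕜) (j : Fin k)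
    (A : Finset (Fin k)) :
    wc (fun w => f (Function.update w j (!w j))) A = (if j ∈ A then -1 else 1) * wc f A := by
  unfold wc
  have h1 : ∑ w, ((wal A w : ℝ) : 𝕜) * f (Function.update w j (!w j)) =
      ∑ w, ((wal A (Function.update w j (!w j)) : ℝ) : 𝕜) * f w := by
    refine Fintype.sum_equiv (flip_inv j).toPerm _ _ fun w => ?_
    rw [Function.Involutive.coe_toPerm]
    have : Function.update (Function.update w j (!w j)) j
        (!(Function.update w j (!w j)) j) = w := flip_inv j w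
    rw [this]
  rw [h1]
  have h2 : ∀ w, ((wal A (Function.update w j (!w j)) : ℝ) : 𝕜) * f w =
      (if j ∈ A then -1 else 1) * (((wal A w : ℝ) : 𝕜) * f w) := by
    intro w
    rw [wal_flip]
    split_ifs <;> push_cast <;> ring
  rw [Finset.sum_congr rfl (fun w _ => h2 w), ← Finset.mul_sum]
  ring

private theorem neg_inv {k : ℕ} :
    Function.Involutive (fun w : Cube k => (fun i => !w i : Cube k)) := by
  intro w
  funext i
  simp

private theorem wal_neg {k : ℕ} (A : Finset (Fin k)) (w : Cube k) :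
    wal A (fun i => !w i) = (-1) ^ A.card * wal A w := by
  unfold wal
  rw [← Finset.prod_const, ← Finset.prod_mul_distrib]
  refine Finset.prod_congr rfl fun i _ => ?_
  rw [sg_not]
  ring

theorem wc_neg {𝕜 : Type} [RCLike 𝕜] {k : ℕ} (f : Cube k → 𝕜) (A : Finset (Fin k)) :
    wc (fun w => f (fun i => !w i)) A = (-1) ^ A.card * wc f A := by
  unfold wc
  have h1 : ∑ w : Cube k, ((wal A w : ℝ) : 𝕜) * f (fun i => !w i) =
      ∑ w : Cube k, ((wal A (fun i => !w i) : ℝ) : 𝕜) * f w := by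
    refine Fintype.sum_equiv (neg_inv (k := k)).toPerm _ _ fun w => ?_
    rw [Function.Involutive.coe_toPerm]
    have : (fun i => !(fun i => !w i : Cube k) i : Cube k) = w := neg_inv w
    rw [this]
  rw [h1]
  have h2 : ∀ w : Cube k, ((wal A (fun i => !w i) : ℝ) : 𝕜) * f w =
      (-1) ^ A.card * (((wal A w : ℝ) : 𝕜) * f w) := by
    intro w
    rw [wal_neg]
    push_cast
    ring
  rw [Finset.sum_congr rfl (fun w _ => h2 w), ← Finset.mul_sum]
  ring

theorem wc_sub {𝕜 : Type} [RCLike 𝕜] {k : ℕ} (f g : Cube k → 𝕜) (A : Finset (Fin k)) :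
    wc (fun w => f w - g w) A = wc f A - wc g A := by
  unfold wc
  rw [← mul_sub, ← Finset.sum_sub_distrib]
  congr 1
  refine Finset.sum_congr rfl fun w _ => ?_
  ring

end Pool.Agent.Helper54.PI
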