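import Mathlib
import Pool.Agent.Helper54.PI.Defs
import Pool.Agent.Helper54.PI.Walsh

/-!
PROJECT PI, module PI-03. The inequality of Latala and Oleszkiewicz (Kahane with constant `√2`).

PROOF. Let `F w = p (rs z w)` (real, `𝕜 = ℝ` in the Walsh lemmas, `wc F A` real), `F ≥ 0`.
(1) `F (!w) = F w`, so by `wc_neg`, `wc F A = 0` if `A.card` is odd.
(2) For each `j` let `F_j w = F (update w j (!w j))`. `∑_j F_j w ≥ (k - 2) F w`: because
`∑_j rs z (update w j (!w j)) = ∑_j (rs z w - 2 sg (w j) z_j) = (k - 2) rs z w` and `p` is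
subadditive (`p ((k - 2) • y) = |k - 2| p y ≥ (k - 2) p y`).
(3) `∑_j av (F (F - F_j)) = ∑_j (1/2) av ((F - F_j) ^ 2)` (`av F_j ^ 2 = av F ^ 2`, involution), and
by `parseval`, `wc_sub`, `wc_flip` this is `∑_j (1/2) ∑_(A ∋ j) 4 (wc F A) ^ 2
= 2 ∑_A A.card (wc F A) ^ 2`.
(4) By (1) the terms with `A ≠ ∅` and nonzero coefficient have `A.card ≥ 2`: so
`2 ∑_A A.card (wc F A) ^ 2 ≥ 4 ∑_(A ≠ ∅) (wc F A) ^ 2 = 4 (av F ^ 2 - (av F) ^ 2)`
(here `av F ^ 2` is `av (F ^ 2)`; `parseval`, `wc_empty`).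
(5) By (2), `∑_j (F - F_j) ≤ 2 F` pointwise, so `∑_j av (F (F - F_j)) ≤ 2 av (F ^ 2)`.
Together `4 av (F ^ 2) - 4 (av F) ^ 2 ≤ 2 av (F ^ 2)`.
`N2_rs_le` is the square root.
-/

set_option autoImplicit false

namespace Pool.Agent.Helper54.PI

open Finset

private theorem rs_neg {X : Type} [AddCommGroup X] {k : ℕ} (z : Fin k → X) (w : Cube k) :
    rs z (fun i => !w i) = -rs z w := by
  unfold rs
  rw [← Finset.sum_neg_distrib]
  refine Finset.sum_congr rfl fun j _ => ?_
  unfold sg
  cases hw : w j <;> simp [hw]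

private theorem rs_flip {X : Type} [AddCommGroup X] {k : ℕ} (z : Fin k → X) (w : Cube k) (j : Fin k) :
    rs z (Function.update w j (!w j)) = rs z w - (2 : ℤ) • (sg (w j) • z j) := by
  unfold rs
  rw [← Finset.add_sum_erase _ _ (Finset.mem_univ j), ← Finset.add_sum_erase _ _ (Finset.mem_univ j)]
  have h1 : ∑ x ∈ univ.erase j, sg (Function.update w j (!w j) x) • z x = ∑ x ∈ univ.erase j, sg (w x) • z x := by
    refine Finset.sum_congr rfl fun x hx => ?_
    rw [Function.update_of_ne (Finset.ne_of_mem_erase hx)]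
  rw [h1, Function.update_self]
  have h2 : sg (!w j) = - sg (w j) := by
    unfold sg
    cases w j <;> simp
  rw [h2, neg_smul]
  generalize sg (w j) • z j = y
  generalize ∑ x ∈ univ.erase j, sg (w x) • z x = v
  rw [two_smul]
  abel

private theorem sum_rs_flip {X : Type} [AddCommGroup X] {k : ℕ} (z : Fin k → X) (w : Cube k) :
    ∑ j, rs z (Function.update w j (!w j)) = ((k : ℤ) - 2) • rs z w := by
  rw [Finset.sum_congr rfl fun j _ => rs_flip z w j, Finset.sum_sub_distrib, ← Finset.smul_sum, Finset.sum_const,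
    Finset.card_univ, Fintype.card_fin, sub_smul, natCast_zsmul]
  rfl

private theorem av_flip {k : ℕ} (g : Cube k → ℝ) (j : Fin k) :
    (av fun w => g (Function.update w j (!w j))) = av g := by
  unfold av
  congr 1
  have hinv : Function.Involutive (fun w : Cube k => Function.update w j (!w j)) := by
    intro w
    funext i
    by_cases h : i = j
    · subst h
      simp
    · simp [h]
  exact Equiv.sum_comp hinv.toPerm g

private theorem av_sum {k : ℕ} {ι : Type} (s : Finset ι) (f : ι → Cube k → ℝ) :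
    ∑ j ∈ s, av (f j) = av fun w => ∑ j ∈ s, f j w := by
  unfold av
  rw [← Finset.sum_div, Finset.sum_comm]

private theorem key1 {𝕜 : Type} [RCLike 𝕜] {X : Type} [AddCommGroup X] [Module 𝕜 X] (p : Seminorm 𝕜 X)
    {k : ℕ} (z : Fin k → X) (w : Cube k) :
    ((k : ℝ) - 2) * p (rs z w) ≤ ∑ j, p (rs z (Function.update w j (!w j))) := by
  have h1 : p (∑ j, rs z (Function.update w j (!w j))) ≤ ∑ j, p (rs z (Function.update w j (!w j))) :=
    Finset.le_sum_of_subadditive p (map_zero p).le (map_add_le_add p) _ _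
  rw [sum_rs_flip, ← Int.cast_smul_eq_zsmul 𝕜, map_smul_eq_mul] at h1
  refine le_trans ?_ h1
  refine mul_le_mul_of_nonneg_right ?_ (apply_nonneg _ _)
  have h2 : ‖(((k : ℤ) - 2 : ℤ) : 𝕜)‖ = |(k : ℝ) - 2| := by
    have h3 : (((k : ℤ) - 2 : ℤ) : 𝕜) = (((k : ℝ) - 2 : ℝ) : 𝕜) := by
      push_cast
      rfl
    rw [h3, RCLike.norm_ofReal]
  rw [h2]
  exact le_abs_self _

private theorem key2 {k : ℕ} (F : Cube k → ℝ) (j : Fin k) :
    (av fun w => F w * (F w - F (Function.update w j (!w j)))) =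
      ∑ A : Finset (Fin k), if j ∈ A then 2 * wc F A ^ 2 else 0 := by
  have h1 := parseval (𝕜 := ℝ) (fun w => F w - F (Function.update w j (!w j)))
  have h2 : (av fun w => ‖F w - F (Function.update w j (!w j))‖ ^ 2) =
      2 * av fun w => F w * (F w - F (Function.update w j (!w j))) := by
    have h3 := av_flip (fun w => F w ^ 2) j
    have h4 : (av fun w => ‖F w - F (Function.update w j (!w j))‖ ^ 2) =
        av fun w => 2 * (F w * (F w - F (Function.update w j (!w j)))) + (F (Function.update w j (!w j)) ^ 2 - F w ^ 2) := by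
      congr 1
      funext w
      rw [Real.norm_eq_abs, sq_abs]
      ring
    rw [h4, av_add, av_mul, av_sub, h3]
    ring
  have h5 : ∀ A : Finset (Fin k), ‖wc (fun w => F w - F (Function.update w j (!w j))) A‖ ^ 2 =
      2 * (if j ∈ A then 2 * wc F A ^ 2 else 0) := by
    intro A
    rw [wc_sub, wc_flip, Real.norm_eq_abs, sq_abs]
    split_ifs <;> ring
  rw [h2, Finset.sum_congr rfl fun A _ => h5 A, ← Finset.mul_sum] at h1
  linarith

theorem lo {𝕜 : Type} [RCLike 𝕜] {X : Type} [AddCommGroup X] [Module 𝕜 X] (p : Seminorm 𝕜 X)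
    {k : ℕ} (z : Fin k → X) :
    (av fun w => p (rs z w) ^ 2) ≤ 2 * (av fun w => p (rs z w)) ^ 2 := by
  set F : Cube k → ℝ := fun w => p (rs z w) with hF
  have hF0 : ∀ w, 0 ≤ F w := fun w => apply_nonneg _ _
  -- even function
  have heven : ∀ w, F (fun i => !w i) = F w := by
    intro w
    simp only [hF]
    rw [rs_neg, map_neg_eq_map]
  have hodd : ∀ A : Finset (Fin k), A.card = 1 → wc F A = 0 := by
    intro A hA
    have h1 := wc_neg (𝕜 := ℝ) F A
    have h2 : (fun w => F (fun i => !w i)) = F := funext heven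
    rw [h2, hA] at h1
    linarith
  have h3 : ∑ j, (av fun w => F w * (F w - F (Function.update w j (!w j)))) =
      ∑ A : Finset (Fin k), 2 * (A.card : ℝ) * wc F A ^ 2 := by
    rw [Finset.sum_congr rfl fun j _ => key2 F j, Finset.sum_comm]
    refine Finset.sum_congr rfl fun A _ => ?_
    rw [← Finset.sum_filter, Finset.sum_const, nsmul_eq_mul]
    have h4 : univ.filter (fun j => j ∈ A) = A := by
      ext j
      simp
    rw [h4]
    ring
  have h5 : ∑ j, (av fun w => F w * (F w - F (Function.update w j (!w j)))) ≤ 2 * av fun w => F w ^ 2 := by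
    rw [av_sum, ← av_mul]
    refine av_mono fun w => ?_
    have h6 := key1 p z w
    have h7 : ∑ j : Fin k, F w * (F w - F (Function.update w j (!w j))) =
        F w * ((k : ℝ) * F w - ∑ j, F (Function.update w j (!w j))) := by
      rw [← Finset.mul_sum, Finset.sum_sub_distrib, Finset.sum_const, Finset.card_univ, Fintype.card_fin,
        nsmul_eq_mul]
    rw [h7]
    have h8 : (k : ℝ) * F w - ∑ j, F (Function.update w j (!w j)) ≤ 2 * F w := by
      have h9 : ((k : ℝ) - 2) * F w ≤ ∑ j, F (Function.update w j (!w j)) := h6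
      linarith
    calc F w * ((k : ℝ) * F w - ∑ j, F (Function.update w j (!w j))) ≤ F w * (2 * F w) :=
          mul_le_mul_of_nonneg_left h8 (hF0 w)
      _ = 2 * F w ^ 2 := by ring
  have h6 := parseval (𝕜 := ℝ) F
  have h7 : (av fun w => ‖F w‖ ^ 2) = av fun w => F w ^ 2 := by
    congr 1
    funext w
    rw [Real.norm_eq_abs, sq_abs]
  have h8 : ∀ A : Finset (Fin k), ‖wc F A‖ ^ 2 = wc F A ^ 2 := fun A => by
    rw [Real.norm_eq_abs, sq_abs]
  rw [h7, Finset.sum_congr rfl fun A _ => h8 A] at h6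
  have h9 : wc F ∅ = av F := by
    rw [wc_empty]
    unfold av
    rw [div_eq_inv_mul]
  have h10 : ∑ A : Finset (Fin k), 4 * wc F A ^ 2 - 4 * wc F ∅ ^ 2 ≤
      ∑ A : Finset (Fin k), 2 * (A.card : ℝ) * wc F A ^ 2 := by
    have e1 : ∑ A : Finset (Fin k), 4 * wc F A ^ 2 - 4 * wc F ∅ ^ 2 =
        ∑ A : Finset (Fin k), (if A = ∅ then 0 else 4 * wc F A ^ 2) := by
      rw [← Finset.add_sum_erase _ _ (Finset.mem_univ (∅ : Finset (Fin k))),
        ← Finset.add_sum_erase (univ : Finset (Finset (Fin k))) (fun A => if A = ∅ then 0 else 4 * wc F A ^ 2)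
          (Finset.mem_univ ∅)]
      rw [if_pos rfl]
      have e2 : ∑ A ∈ univ.erase (∅ : Finset (Fin k)), (if A = ∅ then 0 else 4 * wc F A ^ 2) =
          ∑ A ∈ univ.erase (∅ : Finset (Fin k)), 4 * wc F A ^ 2 :=
        Finset.sum_congr rfl fun A hA => if_neg (Finset.ne_of_mem_erase hA)
      rw [e2]
      ring
    rw [e1]
    refine Finset.sum_le_sum fun A _ => ?_
    split_ifs with hA
    · positivity
    · have hc : A.card ≠ 0 := fun h => hA (Finset.card_eq_zero.1 h)
      rcases Nat.lt_or_ge A.card 2 with h2 | h2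
      · have hc1 : A.card = 1 := by omega
        rw [hodd A hc1]
        simp
      · have h3' : (2 : ℝ) ≤ A.card := by exact_mod_cast h2
        nlinarith [sq_nonneg (wc F A)]
  rw [← Finset.mul_sum, ← h6, h9] at h10
  rw [h3] at h5
  change (av fun w => F w ^ 2) ≤ 2 * (av F) ^ 2
  linarith

theorem N2_rs_le {𝕜 : Type} [RCLike 𝕜] {X : Type} [AddCommGroup X] [Module 𝕜 X]
    (p : Seminorm 𝕜 X) {k : ℕ} (z : Fin k → X) :
    N2 p (rs z) ≤ Real.sqrt 2 * av fun w => p (rs z w) := by
  unfold N2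
  refine (Real.sqrt_le_sqrt (lo p z)).trans (le_of_eq ?_)
  rw [Real.sqrt_mul (by norm_num), Real.sqrt_sq (av_nonneg fun w => apply_nonneg _ _)]

end Pool.Agent.Helper54.PI
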