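import Mathlib
import Pool.Agent.Helper54.PI.Defs
import Pool.Agent.Helper54.PI.LO
import Pool.Agent.Helper54.PI.NTwo

/-!
PROJECT PI, module PI-08. The Rademacher functions in `L_1`: equivalence with the `ℓ_2` norm
(Khintchine with constant `√2`).

PROOF. (`av_rs_sq`) expand, orthogonality `∑ w, sg (w i) sg (w j) = 0` for `i ≠ j` (flip the bit
`i`), `2 ^ k` for `i = j`.
(`l1_rs_le`) `l1 (rs a) = av ‖rs a w‖ ≤ sqrt (av ‖rs a w‖ ^ 2)` (`av_le_N2` with
`p = normSeminorm 𝕜 𝕜`).
(`le_l1_rs`) `N2_rs_le` with `p = normSeminorm 𝕜 𝕜`, `z = a`.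
-/

set_option autoImplicit false

namespace Pool.Agent.Helper54.PI

open Finset

private theorem sg_not' (b : Bool) : sg (!b) = - sg b := by
  cases b <;> simp [sg]

private theorem sg_mul_self' (b : Bool) : sg b * sg b = 1 := by
  cases b <;> simp [sg]

private theorem sum_sg_mul {m : ℕ} (i j : Fin m) :
    (∑ w : Cube m, sg (w i) * sg (w j)) = if i = j then 2 ^ m else 0 := by
  split_ifs with h
  · subst h
    rw [Finset.sum_congr rfl fun w _ => sg_mul_self' (w i), Finset.sum_const, Finset.card_univ,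
      Fintype.card_fun, Fintype.card_bool, Fintype.card_fin]
    simp
  · refine Finset.sum_involution (fun w _ => Function.update w i (!w i)) ?_ ?_ ?_ ?_
    · intro w _
      have h1 : Function.update w i (!w i) i = !w i := Function.update_self ..
      have h2 : Function.update w i (!w i) j = w j := Function.update_of_ne (Ne.symm h) ..
      rw [h1, h2, sg_not']
      ring
    · intro w _ _ he
      have := congrFun he i
      rw [Function.update_self] at this
      cases hw : w i <;> simp [hw] at this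
    · intro w _
      exact Finset.mem_univ _
    · intro w _
      funext k
      by_cases hk : k = i
      · subst hk
        simp
      · rw [Function.update_of_ne hk, Function.update_of_ne hk]

theorem av_rs_sq {𝕜 : Type} [RCLike 𝕜] {m : ℕ} (a : Fin m → 𝕜) :
    (av fun w => ‖rs a w‖ ^ 2) = ∑ i, ‖a i‖ ^ 2 := by
  have key : (∑ w : Cube m, ‖rs a w‖ ^ 2) = 2 ^ m * ∑ i, ‖a i‖ ^ 2 := by
    have h : (((∑ w : Cube m, ‖rs a w‖ ^ 2 : ℝ)) : 𝕜) = ((2 ^ m * ∑ i, ‖a i‖ ^ 2 : ℝ) : 𝕜) := by
      push_cast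
      have h1 : ∀ w : Cube m, ((‖rs a w‖ : ℝ) : 𝕜) ^ 2 =
          ∑ i, ∑ j, ((sg (w i) * sg (w j) : ℤ) : 𝕜) * (a i * (starRingEnd 𝕜) (a j)) := by
        intro w
        rw [← RCLike.mul_conj]
        unfold rs
        rw [map_sum, Finset.sum_mul_sum]
        refine Finset.sum_congr rfl fun i _ => Finset.sum_congr rfl fun j _ => ?_
        rw [zsmul_eq_mul, zsmul_eq_mul, map_mul, map_intCast]
        push_cast
        ring
      rw [Finset.sum_congr rfl fun w _ => h1 w, Finset.sum_comm]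
      rw [Finset.mul_sum]
      refine Finset.sum_congr rfl fun i _ => ?_
      rw [Finset.sum_comm]
      have h2 : ∀ j : Fin m, (∑ w : Cube m, ((sg (w i) * sg (w j) : ℤ) : 𝕜) *
          (a i * (starRingEnd 𝕜) (a j))) =
          if i = j then (2 : 𝕜) ^ m * (a i * (starRingEnd 𝕜) (a j)) else 0 := by
        intro j
        rw [← Finset.sum_mul, ← Int.cast_sum, sum_sg_mul i j]
        split_ifs
        · push_cast
          ring
        · simp
      rw [Finset.sum_congr rfl fun j _ => h2 j, Finset.sum_ite_eq Finset.univ i,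
        if_pos (Finset.mem_univ i), RCLike.mul_conj]
    exact_mod_cast h
  unfold av
  rw [key]
  field_simp

theorem l1_rs_le {𝕜 : Type} [RCLike 𝕜] {m : ℕ} (a : Fin m → 𝕜) :
    l1 𝕜 m (rs a) ≤ Real.sqrt (∑ i, ‖a i‖ ^ 2) := by
  rw [← av_rs_sq, l1_apply]
  exact av_le_N2 (normSeminorm 𝕜 𝕜) (rs a)

theorem le_l1_rs {𝕜 : Type} [RCLike 𝕜] {m : ℕ} (a : Fin m → 𝕜) :
    Real.sqrt (∑ i, ‖a i‖ ^ 2) ≤ Real.sqrt 2 * l1 𝕜 m (rs a) := by
  rw [← av_rs_sq, l1_apply]
  exact N2_rs_le (normSeminorm 𝕜 𝕜) a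

end Pool.Agent.Helper54.PI
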