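import Mathlib
import Pool.Agent.Helper54.PI.Defs
import Pool.Agent.Helper54.PI.LO
import Pool.Agent.Helper54.PI.Scal

/-!
PROJECT PI, module PI-10. `L_1` of the cube has cotype 2 constant `√2`.

PROOF. Let `z : Fin k → Cube m → 𝕜`. For each `ω : Cube m` let `g ω : Fin k → 𝕜`, `g ω j = z j ω`.
`le_l1_rs (g ω)`: `sqrt (∑ j ‖z j ω‖ ^ 2) ≤ √2 av_ε ‖rs (g ω) ε‖` and `rs (g ω) ε = (rs z ε) ω`.
Average over `ω`, exchange the averages: `av_ω sqrt (∑ j ‖z j ω‖ ^ 2) ≤ √2 av_ε (l1 (rs z ε))`.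
On the other side `sqrt (∑ j (av_ω ‖z j ω‖) ^ 2) ≤ av_ω sqrt (∑ j ‖z j ω‖ ^ 2)`: the norm of an
average of vectors `(‖z j ω‖)_j` of `EuclideanSpace ℝ (Fin k)` is at most the average of the norms
(`norm_sum_le`).
-/

set_option autoImplicit false

namespace Pool.Agent.Helper54.PI

open Finset

private theorem av_comm' {k m : ℕ} (f : Cube m → Cube k → ℝ) :
    (av fun x => av fun w => f x w) = av fun w => av fun x => f x w := by
  unfold av
  rw [← Finset.sum_div, ← Finset.sum_div, Finset.sum_comm, div_div, div_div,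
    mul_comm ((2 : ℝ) ^ k)]

private theorem mink {k m : ℕ} (f : Fin k → Cube m → ℝ) :
    Real.sqrt (∑ j, (av (f j)) ^ 2) ≤ av fun w => Real.sqrt (∑ j, f j w ^ 2) := by
  have h1 := norm_sum_le (Finset.univ : Finset (Cube m))
    (fun w => (WithLp.toLp 2 (fun j => f j w) : EuclideanSpace ℝ (Fin k)))
  have h2 : ∀ w, ‖(WithLp.toLp 2 (fun j => f j w) : EuclideanSpace ℝ (Fin k))‖ =
      Real.sqrt (∑ j, f j w ^ 2) := by
    intro w
    rw [EuclideanSpace.norm_eq]
    congr 1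
    refine Finset.sum_congr rfl fun j _ => ?_
    rw [Real.norm_eq_abs, sq_abs]
  have h3 : ‖∑ w, (WithLp.toLp 2 (fun j => f j w) : EuclideanSpace ℝ (Fin k))‖ =
      Real.sqrt (∑ j, (∑ w, f j w) ^ 2) := by
    rw [EuclideanSpace.norm_eq]
    congr 1
    refine Finset.sum_congr rfl fun j _ => ?_
    rw [Real.norm_eq_abs, sq_abs]
    congr 1
    simp
  rw [h3] at h1
  simp only [h2] at h1
  unfold av
  have h4 : ∑ j, ((∑ w, f j w) / 2 ^ m) ^ 2 = (∑ j, (∑ w, f j w) ^ 2) / (2 ^ m) ^ 2 := by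
    rw [Finset.sum_div]
    refine Finset.sum_congr rfl fun j _ => ?_
    rw [div_pow]
  rw [h4, Real.sqrt_div' _ (by positivity), Real.sqrt_sq (by positivity)]
  exact div_le_div_of_nonneg_right h1 (by positivity)

theorem cot_l1 (𝕜 : Type) [RCLike 𝕜] (m : ℕ) : Cot (l1 𝕜 m) (Real.sqrt 2) := by
  intro k z
  have h1 := mink (fun j w => ‖z j w‖)
  have h2 : (av fun w => Real.sqrt (∑ j, ‖z j w‖ ^ 2)) ≤
      av fun x => Real.sqrt 2 * av fun w => ‖rs z w x‖ := by
    refine av_mono fun x => ?_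
    have h3 := le_l1_rs (fun j => z j x)
    rw [l1_apply] at h3
    refine h3.trans (le_of_eq ?_)
    congr 1
    congr 1
    funext w
    congr 1
    unfold rs
    rw [Finset.sum_apply]
    rfl
  refine h1.trans (h2.trans (le_of_eq ?_))
  rw [av_mul, av_comm']
  rfl

end Pool.Agent.Helper54.PI
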