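import Mathlib
import Pool.Agent.Helper54.PI.Defs

/-!
PROJECT PI, module PI-02. The operator `UU` is diagonal on Walsh functions.

PROOF. For `y` and `A`: `∑ x, wal A x * ∏ i, (1 + a s_i) = 2 ^ k * a ^ A.card * wal A y`, where
`s_i = sg (x i) sg (y i)`: the sum over `x : Fin k → Bool` of a product over `i` is the product of
the sums over the bits (`Finset.prod_univ_sum` / `Fintype.piFinset_univ`), the factor of `i ∈ A` is
`(1 + a sg (y i)) - (1 - a sg (y i)) = 2 a sg (y i)`, the factor of `i ∉ A` is `2`.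
The same with `-a`. Then `wc (UU 𝕜 a f) A = 2 ^ (-k) ∑ x, wal A x ∑ y, kap a x y f y`, exchange the
sums.
-/

set_option autoImplicit false

namespace Pool.Agent.Helper54.PI

open Finset

private theorem sum_wal_riesz {k : ℕ} (b : ℝ) (A : Finset (Fin k)) (y : Cube k) :
    ∑ x : Cube k, wal A x * ∏ i, (1 + b * ((sg (x i) : ℝ) * sg (y i))) =
      2 ^ k * b ^ A.card * wal A y := by
  classical
  have h1 : ∀ x : Cube k, wal A x * ∏ i, (1 + b * ((sg (x i) : ℝ) * sg (y i))) =
      ∏ i, ((if i ∈ A then (sg (x i) : ℝ) else 1) * (1 + b * ((sg (x i) : ℝ) * sg (y i)))) := by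
    intro x
    rw [Finset.prod_mul_distrib]
    congr 1
    unfold wal
    rw [Finset.prod_ite_mem, Finset.univ_inter]
  rw [Finset.sum_congr rfl (fun x _ => h1 x)]
  have h2 := Finset.prod_univ_sum (fun _ : Fin k => (Finset.univ : Finset Bool))
    (fun i c => (if i ∈ A then (sg c : ℝ) else 1) * (1 + b * ((sg c : ℝ) * sg (y i))))
  rw [Fintype.piFinset_univ] at h2
  rw [← h2]
  have h3 : ∀ i : Fin k, ∑ c : Bool,
      ((if i ∈ A then (sg c : ℝ) else 1) * (1 + b * ((sg c : ℝ) * sg (y i)))) =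
      2 * (if i ∈ A then b * (sg (y i) : ℝ) else 1) := by
    intro i
    have ht : (sg true : ℝ) = 1 := by simp [sg]
    have hf : (sg false : ℝ) = -1 := by simp [sg]
    rw [Fintype.sum_bool, ht, hf]
    split_ifs <;> ring
  rw [Finset.prod_congr rfl (fun i _ => h3 i), Finset.prod_mul_distrib, Finset.prod_const,
    Finset.card_univ, Fintype.card_fin, Finset.prod_ite_mem, Finset.univ_inter,
    Finset.prod_mul_distrib, Finset.prod_const, mul_assoc]
  rfl

private theorem sum_wal_kap {k : ℕ} (a : ℝ) (A : Finset (Fin k)) (y : Cube k) :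
    ∑ x : Cube k, wal A x * kap a x y = (a ^ A.card - (-a) ^ A.card) / 2 * wal A y := by
  have h1 := sum_wal_riesz a A y
  have h2 := sum_wal_riesz (-a) A y
  have h3 : ∀ x : Cube k, wal A x * kap a x y =
      (wal A x * ∏ i, (1 + a * ((sg (x i) : ℝ) * sg (y i)))) / 2 / 2 ^ k -
      (wal A x * ∏ i, (1 + -a * ((sg (x i) : ℝ) * sg (y i)))) / 2 / 2 ^ k := by
    intro x
    unfold kap
    have h4 : ∏ i, (1 - a * ((sg (x i) : ℝ) * sg (y i))) =
        ∏ i, (1 + -a * ((sg (x i) : ℝ) * sg (y i))) :=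
      Finset.prod_congr rfl fun i _ => by ring
    rw [h4]
    ring
  rw [Finset.sum_congr rfl (fun x _ => h3 x), Finset.sum_sub_distrib, ← Finset.sum_div,
    ← Finset.sum_div, ← Finset.sum_div, ← Finset.sum_div, h1, h2]
  have h5 : (2 : ℝ) ^ k ≠ 0 := by positivity
  field_simp

theorem wc_UU {𝕜 : Type} [RCLike 𝕜] {k : ℕ} (a : ℝ) (f : Cube k → 𝕜) (A : Finset (Fin k)) :
    wc (UU 𝕜 a f) A = (((a ^ A.card - (-a) ^ A.card) / 2 : ℝ) : 𝕜) * wc f A := by
  unfold wc UU
  rw [mul_left_comm]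
  congr 1
  rw [Finset.mul_sum]
  have h1 : ∀ x : Cube k, ((wal A x : ℝ) : 𝕜) * ∑ y, ((kap a x y : ℝ) : 𝕜) • f y =
      ∑ y, ((wal A x * kap a x y : ℝ) : 𝕜) * f y := by
    intro x
    rw [Finset.mul_sum]
    refine Finset.sum_congr rfl fun y _ => ?_
    rw [smul_eq_mul, RCLike.ofReal_mul, mul_assoc]
  rw [Finset.sum_congr rfl (fun x _ => h1 x), Finset.sum_comm]
  refine Finset.sum_congr rfl fun y _ => ?_
  rw [← Finset.sum_mul, ← RCLike.ofReal_sum, sum_wal_kap, RCLike.ofReal_mul, mul_assoc]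

end Pool.Agent.Helper54.PI
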