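import Mathlib
import Pool.Agent.Helper54.PI.Defs
import Pool.Agent.Helper54.PI.Walsh
import Pool.Agent.Helper54.PI.WalU
import Pool.Agent.Helper54.PI.Alg

/-!
PROJECT PI, module PI-07. Hilbert space estimates.

PROOF. (`hilb`) By `wc_UU` the coefficient of `UU 𝕜 a f` at `A` is `0` if `A.card` is even
(`a ^ n = (-a) ^ n`), `0` if `A.card = 1` (`A = {j}`, `wc_single`, hypothesis), and has norm
`a ^ A.card ‖wc f A‖ ≤ a ^ 3 ‖wc f A‖` if `A.card ≥ 3` is odd. `parseval` twice.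
(`hilb_vec`) by coordinates (`UU_map`, `co_map` with `LinearMap.proj i`), `av` of a finite sum.
(`sub_rs`) `g = f - rs (co 𝕜 f)` satisfies `co 𝕜 g j = 0` (`co_sub`, `co_rs`), and
`av ‖f‖ ^ 2 = av ‖g‖ ^ 2 + av ‖rs (co 𝕜 f)‖ ^ 2`; or by `parseval`: the coefficients of `g` are those of
`f` for `A.card ≠ 1` and `0` for `A = {j}` (the coefficients of `rs c` are `0` unless `A` is a
singleton: it is a combination of the `wal {j}`, Walsh functions are orthogonal; or apply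
`∑_j ‖co f j‖ ^ 2 = av ‖rs (co f)‖ ^ 2` and expand the square).
-/

set_option autoImplicit false

namespace Pool.Agent.Helper54.PI

open Finset

private theorem av_sum {k m : ℕ} (F : Fin m → Cube k → ℝ) :
    (av fun w => ∑ i, F i w) = ∑ i, av (F i) := by
  unfold av
  rw [Finset.sum_comm, Finset.sum_div]

private theorem coef_even {a : ℝ} {n : ℕ} (h : Even n) : (a ^ n - (-a) ^ n) / 2 = 0 := by
  rw [h.neg_pow]
  simp

private theorem coef_odd {a : ℝ} {n : ℕ} (h : Odd n) : (a ^ n - (-a) ^ n) / 2 = a ^ n := by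
  rw [h.neg_pow]
  ring

theorem hilb {𝕜 : Type} [RCLike 𝕜] {k : ℕ} (a : ℝ) (h0 : 0 ≤ a) (h1 : a ≤ 1) (f : Cube k → 𝕜)
    (hf : ∀ j, co 𝕜 f j = 0) :
    (av fun w => ‖UU 𝕜 a f w‖ ^ 2) ≤ a ^ 6 * av fun w => ‖f w‖ ^ 2 := by
  rw [parseval, parseval, Finset.mul_sum]
  refine Finset.sum_le_sum fun A _ => ?_
  rw [wc_UU, norm_mul, mul_pow]
  rcases Nat.even_or_odd A.card with he | ho
  · rw [coef_even he]
    simp only [RCLike.ofReal_zero, norm_zero]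
    have : 0 ≤ a ^ 6 * ‖wc f A‖ ^ 2 := by positivity
    simpa using this
  · rw [coef_odd ho]
    by_cases hA : A.card = 1
    · obtain ⟨j, rfl⟩ := Finset.card_eq_one.1 hA
      rw [wc_single, hf j]
      simp
    · have h3 : 3 ≤ A.card := by
        obtain ⟨m, hm⟩ := ho
        omega
      refine mul_le_mul_of_nonneg_right ?_ (by positivity)
      rw [RCLike.norm_ofReal, abs_of_nonneg (by positivity)]
      have h4 : a ^ A.card ≤ a ^ 3 := pow_le_pow_of_le_one h0 h1 h3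
      calc (a ^ A.card) ^ 2 ≤ (a ^ 3) ^ 2 := pow_le_pow_left₀ (by positivity) h4 2
        _ = a ^ 6 := by ring

theorem hilb_vec {𝕜 : Type} [RCLike 𝕜] {k m : ℕ} (a : ℝ) (h0 : 0 ≤ a) (h1 : a ≤ 1)
    (f : Cube k → Fin m → 𝕜) (hf : ∀ j, co 𝕜 f j = 0) :
    (av fun w => ∑ i, ‖UU 𝕜 a f w i‖ ^ 2) ≤ a ^ 6 * av fun w => ∑ i, ‖f w i‖ ^ 2 := by
  rw [av_sum (fun i w => ‖UU 𝕜 a f w i‖ ^ 2), av_sum (fun i w => ‖f w i‖ ^ 2), Finset.mul_sum]
  refine Finset.sum_le_sum fun i _ => ?_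
  have h2 : (fun w => UU 𝕜 a f w i) = UU 𝕜 a (fun w => f w i) :=
    (UU_map (𝕜 := 𝕜) a (LinearMap.proj i : (Fin m → 𝕜) →ₗ[𝕜] 𝕜) f).symm
  have h3 : ∀ j, co 𝕜 (fun w => f w i) j = 0 := by
    intro j
    have h4 := co_map (𝕜 := 𝕜) (LinearMap.proj i : (Fin m → 𝕜) →ₗ[𝕜] 𝕜) f j
    have h5 : co 𝕜 (fun w => f w i) j = co 𝕜 f j i := h4
    rw [h5, hf j]
    rfl
  have h6 := hilb a h0 h1 (fun w => f w i) h3
  rw [← h2] at h6
  exact h6

private theorem wc_rs {𝕜 : Type} [RCLike 𝕜] {k : ℕ} (z : Fin k → 𝕜) (A : Finset (Fin k))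
    (hA : A.card ≠ 1) : wc (rs z) A = 0 := by
  have h1 := wc_UU (𝕜 := 𝕜) (1 / 2) (rs z) A
  rw [UU_rs] at h1
  have h2 : wc (fun w => (((1 / 2 : ℝ)) : 𝕜) • rs z w) A = (((1 / 2 : ℝ)) : 𝕜) * wc (rs z) A := by
    unfold wc
    rw [mul_left_comm]
    congr 1
    rw [Finset.mul_sum]
    refine Finset.sum_congr rfl fun w _ => ?_
    simp only [smul_eq_mul]
    ring
  rw [h2] at h1
  have h3 : ((((1 / 2 : ℝ)) : 𝕜) - ((((1 / 2 : ℝ) ^ A.card - (-(1 / 2 : ℝ)) ^ A.card) / 2 : ℝ) : 𝕜)) *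
      wc (rs z) A = 0 := by
    rw [sub_mul, h1, sub_self]
  rcases mul_eq_zero.1 h3 with h4 | h4
  · exfalso
    rw [← RCLike.ofReal_sub, RCLike.ofReal_eq_zero] at h4
    rcases Nat.even_or_odd A.card with he | ho
    · rw [coef_even he] at h4
      norm_num at h4
    · rw [coef_odd ho] at h4
      have h5 : 2 ≤ A.card := by
        obtain ⟨m, hm⟩ := ho
        omega
      have h6 : (1 / 2 : ℝ) ^ A.card ≤ (1 / 2) ^ 2 :=
        pow_le_pow_of_le_one (by norm_num) (by norm_num) h5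
      norm_num at h6
      linarith
  · exact h4

theorem sub_rs {𝕜 : Type} [RCLike 𝕜] {k : ℕ} (f : Cube k → 𝕜) :
    (av fun w => ‖f w - rs (co 𝕜 f) w‖ ^ 2) ≤ av fun w => ‖f w‖ ^ 2 := by
  rw [parseval (fun w => f w - rs (co 𝕜 f) w), parseval f]
  refine Finset.sum_le_sum fun A _ => ?_
  by_cases hA : A.card = 1
  · obtain ⟨j, rfl⟩ := Finset.card_eq_one.1 hA
    rw [wc_single, co_sub, co_rs, sub_self, norm_zero]
    rw [zero_pow two_ne_zero]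
    positivity
  · rw [wc_sub, wc_rs _ A hA, sub_zero]

theorem sub_rs_vec {𝕜 : Type} [RCLike 𝕜] {k m : ℕ} (f : Cube k → Fin m → 𝕜) :
    (av fun w => ∑ i, ‖f w i - rs (co 𝕜 f) w i‖ ^ 2) ≤ av fun w => ∑ i, ‖f w i‖ ^ 2 := by
  rw [av_sum (fun i w => ‖f w i - rs (co 𝕜 f) w i‖ ^ 2), av_sum (fun i w => ‖f w i‖ ^ 2)]
  refine Finset.sum_le_sum fun i _ => ?_
  have h1 : ∀ w, rs (co 𝕜 f) w i = rs (co 𝕜 (fun w => f w i)) w := by
    intro w
    have h2 := rs_map (𝕜 := 𝕜) (LinearMap.proj i : (Fin m → 𝕜) →ₗ[𝕜] 𝕜) (co 𝕜 f) w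
    have h3 : (fun j => (LinearMap.proj i : (Fin m → 𝕜) →ₗ[𝕜] 𝕜) (co 𝕜 f j)) =
        co 𝕜 (fun w => f w i) := by
      funext j
      exact (co_map (𝕜 := 𝕜) (LinearMap.proj i : (Fin m → 𝕜) →ₗ[𝕜] 𝕜) f j).symm
    rw [h3] at h2
    exact h2.symm
  have h4 := sub_rs (𝕜 := 𝕜) (fun w => f w i)
  simp only [← h1] at h4
  exact h4

end Pool.Agent.Helper54.PI
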