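import Mathlib
import Pool.Agent.Helper54.PI.Defs
import Pool.Agent.Helper54.PI.NTwo
import Pool.Agent.Helper54.PI.Contr
import Pool.Agent.Helper54.PI.Alg
import Pool.Agent.Helper54.PI.Hilb
import Pool.Agent.Helper54.PI.Scal

/-!
PROJECT PI, module PI-09. The lifting lemma.

PROOF. Functions of `ε : Cube k` with values in `L_1 = (Cube m → 𝕜)`, norm `l1 𝕜 m`, `N = N2 (l1 𝕜 m)`.
`x ε = rs w ε`, `H ε = rs (h ε)` (`= rsL (h ε)`), `y = x - H`, `c = h - rs (co 𝕜 h)` (a function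
`Cube k → Fin m → 𝕜`), `a = 1 / 2`, `U = UU 𝕜 a`. `‖·‖_2` is the norm of `ℓ_2^m` on `Fin m → 𝕜`.
(1) `U x = a x` (`UU_rs`), so `U y - a y = a H - U H`, i.e. it is `rsL` of the function
`a h - U h = a c - U c` (`UU_map`, `UU_sub`, `UU_rs`).
(2) `co 𝕜 c j = 0` (`co_sub`, `co_rs`), so by `hilb_vec`: in the `L_2(ℓ_2^m)` norm
`|f| = sqrt (av ∑ i ‖f i‖ ^ 2)`: `|U c| ≤ a ^ 3 |c|`, so `(a - a ^ 3) |c| ≤ |a c - U c|` (Minkowski).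
(3) pointwise `‖v‖_2 ≤ √2 l1 (rs v)` (`le_l1_rs`), so
`|a c - U c| ≤ √2 N (U y - a y) ≤ √2 (1 + a) N y` (`N2_UU`, `N2_sub_le`, `N2_smul`).
So `|c| ≤ √2 (1 + a) / (a - a ^ 3) N y = 4 √2 N y`.
(4) The function on the left is `x - rsL (rs (co 𝕜 h) ε) = y + rsL (c ε)` (`rs_sub`, `rs_map`), and
pointwise `l1 (rs v) ≤ ‖v‖_2` (`l1_rs_le`), so its `N` is
`≤ N y + |c| ≤ (1 + 4 √2) N y ≤ 7 N y`.
-/

set_option autoImplicit false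

namespace Pool.Agent.Helper54.PI

open Finset

/-- The norm of `ℓ_2^m`. -/
private noncomputable def e2 (𝕜 : Type) [RCLike 𝕜] (m : ℕ) : Seminorm 𝕜 (Fin m → 𝕜) :=
  (normSeminorm 𝕜 (EuclideanSpace 𝕜 (Fin m))).comp
    (WithLp.linearEquiv 2 𝕜 (Fin m → 𝕜)).symm.toLinearMap

private theorem e2_apply {𝕜 : Type} [RCLike 𝕜] {m : ℕ} (v : Fin m → 𝕜) :
    e2 𝕜 m v = Real.sqrt (∑ i, ‖v i‖ ^ 2) := by
  have h : e2 𝕜 m v = ‖(WithLp.linearEquiv 2 𝕜 (Fin m → 𝕜)).symm v‖ := rfl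
  rw [h, EuclideanSpace.norm_eq]
  rfl

private theorem e2_sq {𝕜 : Type} [RCLike 𝕜] {m : ℕ} (v : Fin m → 𝕜) :
    e2 𝕜 m v ^ 2 = ∑ i, ‖v i‖ ^ 2 := by
  rw [e2_apply, Real.sq_sqrt (Finset.sum_nonneg fun i _ => sq_nonneg _)]

private theorem N2_le_mul {𝕜 : Type} [RCLike 𝕜] {X Y : Type} [AddCommGroup X] [Module 𝕜 X]
    [AddCommGroup Y] [Module 𝕜 Y] (p : Seminorm 𝕜 X) (q : Seminorm 𝕜 Y) {k : ℕ}
    (f : Cube k → X) (g : Cube k → Y) (C : ℝ) (hC : 0 ≤ C)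
    (h : ∀ w, p (f w) ≤ C * q (g w)) : N2 p f ≤ C * N2 q g := by
  have h1 := N2_le_of p q f (fun w => ((C : ℝ) : 𝕜) • g w) 0 le_rfl (fun w => by
    rw [add_zero, map_smul_eq_mul, RCLike.norm_ofReal, abs_of_nonneg hC]
    exact h w)
  rwa [add_zero, N2_smul, RCLike.norm_ofReal, abs_of_nonneg hC] at h1

theorem lift {𝕜 : Type} [RCLike 𝕜] {k m : ℕ} (w : Fin k → Cube m → 𝕜)
    (h : Cube k → Fin m → 𝕜) :
    N2 (l1 𝕜 m) (rs fun j => w j - rs (co 𝕜 h j)) ≤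
      7 * N2 (l1 𝕜 m) (fun ε => rs w ε - rs (h ε)) := by
  set y : Cube k → Cube m → 𝕜 := fun ε => rs w ε - rs (h ε) with hy
  set c : Cube k → Fin m → 𝕜 := fun ε => h ε - rs (co 𝕜 h) ε with hc
  have hy' : y = fun ε => rs w ε - rsL 𝕜 m (h ε) := rfl
  -- the operator applied to `y`
  have hU1 : UU 𝕜 (1 / 2) y = fun ε => (((1 / 2 : ℝ)) : 𝕜) • rs w ε -
      rsL 𝕜 m (UU 𝕜 (1 / 2) h ε) := by
    rw [hy', UU_sub, UU_rs, UU_map (𝕜 := 𝕜) (1 / 2) (rsL 𝕜 m) h]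
  have hU2 : UU 𝕜 (1 / 2) c = fun ε => UU 𝕜 (1 / 2) h ε -
      (((1 / 2 : ℝ)) : 𝕜) • rs (co 𝕜 h) ε := by
    rw [hc, UU_sub, UU_rs]
  have hkey : (fun ε => rsL 𝕜 m ((((1 / 2 : ℝ)) : 𝕜) • c ε - UU 𝕜 (1 / 2) c ε)) =
      fun ε => UU 𝕜 (1 / 2) y ε - (((1 / 2 : ℝ)) : 𝕜) • y ε := by
    funext ε
    rw [hU1, hU2]
    simp only [hc, hy', map_sub, map_smul, smul_sub]
    abel
  -- the coefficients of `c` vanish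
  have hco : ∀ j, co 𝕜 c j = 0 := by
    intro j
    rw [hc, co_sub, co_rs, sub_self]
  have hN0 : 0 ≤ N2 (e2 𝕜 m) c := N2_nonneg _ _
  have hUc : N2 (e2 𝕜 m) (UU 𝕜 (1 / 2) c) ≤ (1 / 8) * N2 (e2 𝕜 m) c := by
    have h1 := hilb_vec (1 / 2) (by norm_num) (by norm_num) c hco
    have h2 : N2 (e2 𝕜 m) (UU 𝕜 (1 / 2) c) ^ 2 ≤ ((1 / 8) * N2 (e2 𝕜 m) c) ^ 2 := by
      rw [N2_sq, mul_pow, N2_sq]
      simp only [e2_sq]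
      refine h1.trans (le_of_eq ?_)
      norm_num
    exact (sq_le_sq₀ (N2_nonneg _ _) (by positivity)).1 h2
  have hc1 : N2 (e2 𝕜 m) (fun ε => (((1 / 2 : ℝ)) : 𝕜) • c ε) = (1 / 2) * N2 (e2 𝕜 m) c := by
    rw [N2_smul, RCLike.norm_ofReal, abs_of_nonneg (by norm_num)]
  have hc2 : (1 / 2) * N2 (e2 𝕜 m) c ≤
      N2 (e2 𝕜 m) (fun ε => (((1 / 2 : ℝ)) : 𝕜) • c ε - UU 𝕜 (1 / 2) c ε) +
        N2 (e2 𝕜 m) (UU 𝕜 (1 / 2) c) := by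
    rw [← hc1]
    refine (le_of_eq ?_).trans (N2_add_le (e2 𝕜 m)
      (fun ε => (((1 / 2 : ℝ)) : 𝕜) • c ε - UU 𝕜 (1 / 2) c ε) (UU 𝕜 (1 / 2) c))
    congr 1
    funext ε
    rw [sub_add_cancel]
  have hc3 : N2 (e2 𝕜 m) (fun ε => (((1 / 2 : ℝ)) : 𝕜) • c ε - UU 𝕜 (1 / 2) c ε) ≤
      Real.sqrt 2 * N2 (l1 𝕜 m) (fun ε => UU 𝕜 (1 / 2) y ε - (((1 / 2 : ℝ)) : 𝕜) • y ε) := by
    rw [← hkey]
    refine N2_le_mul _ _ _ _ _ (Real.sqrt_nonneg _) fun ε => ?_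
    rw [e2_apply, rsL_apply]
    exact le_l1_rs _
  have hc4 : N2 (l1 𝕜 m) (fun ε => UU 𝕜 (1 / 2) y ε - (((1 / 2 : ℝ)) : 𝕜) • y ε) ≤
      3 / 2 * N2 (l1 𝕜 m) y := by
    refine (N2_sub_le (l1 𝕜 m) (UU 𝕜 (1 / 2) y) (fun ε => (((1 / 2 : ℝ)) : 𝕜) • y ε)).trans ?_
    rw [N2_smul, RCLike.norm_ofReal, abs_of_nonneg (by norm_num)]
    have := N2_UU (𝕜 := 𝕜) (l1 𝕜 m) (1 / 2) (by norm_num) (by norm_num) y
    linarith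
  have hs2 : Real.sqrt 2 ≤ 3 / 2 := by
    rw [Real.sqrt_le_left (by norm_num)]
    norm_num
  have hNy : 0 ≤ N2 (l1 𝕜 m) y := N2_nonneg _ _
  have hcN : N2 (e2 𝕜 m) c ≤ 6 * N2 (l1 𝕜 m) y := by
    have h1 : Real.sqrt 2 * N2 (l1 𝕜 m) (fun ε => UU 𝕜 (1 / 2) y ε -
        (((1 / 2 : ℝ)) : 𝕜) • y ε) ≤ 3 / 2 * (3 / 2 * N2 (l1 𝕜 m) y) :=
      mul_le_mul hs2 hc4 (N2_nonneg _ _) (by norm_num)
    linarith
  -- the function on the left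
  have hleft : (rs fun j => w j - rs (co 𝕜 h j)) = fun ε => y ε + rsL 𝕜 m (c ε) := by
    funext ε
    have h1 : rs (fun j => w j - rs (co 𝕜 h j)) ε =
        rs w ε - rs (fun j => rsL 𝕜 m (co 𝕜 h j)) ε := rs_sub _ _ _
    rw [h1, rs_map (𝕜 := 𝕜) (rsL 𝕜 m) (co 𝕜 h) ε]
    simp only [hc, hy', map_sub]
    abel
  have hcL : N2 (l1 𝕜 m) (fun ε => rsL 𝕜 m (c ε)) ≤ 1 * N2 (e2 𝕜 m) c := by
    refine N2_le_mul _ _ _ _ _ zero_le_one fun ε => ?_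
    rw [e2_apply, rsL_apply, one_mul]
    exact l1_rs_le _
  rw [hleft]
  refine (N2_add_le (l1 𝕜 m) y (fun ε => rsL 𝕜 m (c ε))).trans ?_
  linarith

end Pool.Agent.Helper54.PI
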