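import Mathlib
import Pool.Agent.Helper54.PI.Defs
import Pool.Agent.Helper54.PI.NTwo
import Pool.Agent.Helper54.PI.LO
import Pool.Agent.Helper54.PI.Alg
import Pool.Agent.Helper54.PI.Lift
import Pool.Agent.Helper54.PI.CotL1

/-!
PROJECT PI, module PI-11. The cotype constant 29 is preserved by the push-out.

PROOF. Let `Z j = (v j, w j)`, `k` vectors, and `δ > 0`. For `ε : Cube k` choose by `dq_near`
`h ε : Fin m → 𝕜` with `l1 (rs w ε - rs (h ε)) ≤ dq (rs w ε) + δ`. Put `s j = co 𝕜 h j`,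
`b j = w j - rs (s j)`, `e j = v j + ∑ i, s j i • x i`, `β ε = l1 (rs b ε)`,
`W = av_ε (dq (rs w ε))`.
(a) `lift`: `N2 l1 (rs b) ≤ 7 N2 l1 (rs w - rs (h ·)) ≤ 7 (N2 dq (rs w) + δ)` (`N2_le_of`).
(b) `N2 dq (rs w) ≤ √2 W` (`N2_rs_le`). So `av β ≤ N2 l1 (rs b) ≤ 7 √2 W + 7 δ ≤ 10 W + 7 δ`
(`av_le_N2`, `7 √2 < 9.9`, `W ≥ 0`).
(d) pointwise: `pq p x (rs Z ε) ≥ p (rs e ε) + (21/22) dq (rs w ε) - (1/22) β ε`. By `le_pq`
(`rs Z ε = (rs v ε, rs w ε)`): let `a : Fin m → 𝕜` be arbitrary and `a' = a - rs s ε`. Then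
`rs v ε + ∑ a_i x_i = rs e ε + ∑ a'_i x_i` and `rs w ε - rs a = rs b ε - rs a'` (`rs_add`, `rs_sub`,
`rs_map`: `rs` of `fun j => rs (s j)` is `rsL (rs s ε)`). With `σ = l1 (rs a')`:
`p (..) ≥ p (rs e ε) - σ / 22` (hypothesis `hx`), and
`l1 (rs b ε - rs a') ≥ σ - β ε`, `l1 (rs w ε - rs a) ≥ dq (rs w ε)` (`dq_le`); take `21/22` of the second
and `1/22` of the first.
(e) average: `av (pq (rs Z)) ≥ av (p (rs e)) + (21/22) W - (1/22) (10 W + 7 δ)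
= av (p (rs e)) + W / 2 - (7/22) δ`.
(f) `pq (Z j) ≤ p (e j) + l1 (b j)` (`pq_le` with `a = s j`), so by Minkowski in `ℓ_2^k`
`sqrt (∑ pq (Z j) ^ 2) ≤ sqrt (∑ p (e j) ^ 2) + sqrt (∑ l1 (b j) ^ 2)
≤ 29 av (p (rs e)) + √2 av β` (`hp`, `cot_l1`)
`≤ 29 (av (pq (rs Z)) - W / 2 + (7/22) δ) + √2 (10 W + 7 δ) ≤ 29 av (pq (rs Z)) + 20 δ`
because `10 √2 < 14.5`, `W ≥ 0`, and `29 * 7 / 22 + 7 √2 < 20`. Let `δ → 0`
(`le_of_forall_pos_le_add`).
-/

set_option autoImplicit false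

namespace Pool.Agent.Helper54.PI

open Finset

private theorem mink {k : ℕ} (f g : Fin k → ℝ) :
    Real.sqrt (∑ j, (f j + g j) ^ 2) ≤ Real.sqrt (∑ j, f j ^ 2) + Real.sqrt (∑ j, g j ^ 2) := by
  have h := norm_add_le (WithLp.toLp 2 f : EuclideanSpace ℝ (Fin k)) (WithLp.toLp 2 g)
  simpa [EuclideanSpace.norm_eq, Real.norm_eq_abs, sq_abs] using h

theorem cot_pq {𝕜 : Type} [RCLike 𝕜] {V : Type} [AddCommGroup V] [Module 𝕜 V]
    (p : Seminorm 𝕜 V) {m : ℕ} (x : Fin m → V) (hp : Cot p 29)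
    (hx : ∀ a : Fin m → 𝕜, p (∑ i, a i • x i) ≤ 1 / 22 * l1 𝕜 m (rs a)) :
    Cot (pq p x) 29 := by
  intro k Z
  refine le_of_forall_pos_le_add fun δ0 hδ0 => ?_
  obtain ⟨δ, hδ, rfl⟩ : ∃ δ : ℝ, 0 < δ ∧ 20 * δ = δ0 := ⟨δ0 / 20, by positivity, by ring⟩
  set v : Fin k → V := fun j => (Z j).1 with hv
  set w : Fin k → Cube m → 𝕜 := fun j => (Z j).2 with hw
  have hh : ∀ ε : Cube k, ∃ a : Fin m → 𝕜,
      l1 𝕜 m (rs w ε - rs a) ≤ dq 𝕜 m (rs w ε) + δ := fun ε => dq_near m _ δ hδ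
  choose h hh using hh
  set s : Fin k → Fin m → 𝕜 := co 𝕜 h with hs
  set b : Fin k → Cube m → 𝕜 := fun j => w j - rs (s j) with hb
  set e : Fin k → V := fun j => v j + ∑ i, s j i • x i with he
  set W : ℝ := av fun ε => dq 𝕜 m (rs w ε) with hWdef
  have hW : 0 ≤ W := av_nonneg fun _ => apply_nonneg _ _
  have hA : N2 (l1 𝕜 m) (rs b) ≤ 7 * (N2 (dq 𝕜 m) (rs w) + δ) := by
    refine (lift w h).trans ?_
    refine mul_le_mul_of_nonneg_left ?_ (by norm_num)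
    exact N2_le_of _ _ _ _ δ hδ.le hh
  have hB : N2 (dq 𝕜 m) (rs w) ≤ Real.sqrt 2 * W := N2_rs_le _ _
  set β : Cube k → ℝ := fun ε => l1 𝕜 m (rs b ε) with hβ
  have hβ0 : 0 ≤ av β := av_nonneg fun _ => apply_nonneg _ _
  have hs2 : Real.sqrt 2 ≤ 1.4143 := by
    rw [Real.sqrt_le_left (by norm_num)]
    norm_num
  have hs2' : 0 ≤ Real.sqrt 2 := Real.sqrt_nonneg _
  have hC : av β ≤ 7 * (Real.sqrt 2 * W + δ) := by
    refine (av_le_N2 (l1 𝕜 m) (rs b)).trans (hA.trans ?_)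
    linarith
  have hC' : av β ≤ 9.91 * W + 7 * δ := by
    nlinarith
  have hD : ∀ ε, p (rs e ε) + 21 / 22 * dq 𝕜 m (rs w ε) - 1 / 22 * β ε ≤ pq p x (rs Z ε) := by
    intro ε
    have hZ : rs Z ε = (rs v ε, rs w ε) := by
      have h1 := rs_map (LinearMap.fst 𝕜 V (Cube m → 𝕜)) Z ε
      have h2 := rs_map (LinearMap.snd 𝕜 V (Cube m → 𝕜)) Z ε
      exact Prod.ext h1.symm h2.symm
    rw [hZ]
    refine le_pq p x _ _ _ fun a => ?_
    have e0 : rs e ε = rs v ε + lc x (rs s ε) := by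
      rw [← rs_map (lc x) s ε, ← rs_add]
      rfl
    have e1 : rs v ε + ∑ i, a i • x i = rs e ε + lc x (a - rs s ε) := by
      rw [e0, map_sub, lc_apply x a]
      abel
    have e2 : rs b ε = rs w ε - rs (rs s ε) := by
      have h1 := rs_map (rsL 𝕜 m) s ε
      rw [rsL_apply] at h1
      rw [← h1, ← rs_sub]
      rfl
    have e3 : rs w ε - rs a = rs b ε - rs (a - rs s ε) := by
      have h1 : rs (a - rs s ε) = rs a - rs (rs s ε) := map_sub (rsL 𝕜 m) a (rs s ε)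
      rw [e2, h1]
      abel
    set a' := a - rs s ε with ha'
    have h1 : p (rs e ε) ≤ p (rs e ε + lc x a') + p (lc x a') := by
      have := map_sub_le_add p (rs e ε + lc x a') (lc x a')
      rwa [add_sub_cancel_right] at this
    have h2 : p (lc x a') ≤ 1 / 22 * l1 𝕜 m (rs a') := hx a'
    have h3 : l1 𝕜 m (rs a') ≤ β ε + l1 𝕜 m (rs b ε - rs a') := by
      have := map_sub_le_add (l1 𝕜 m) (rs b ε) (rs b ε - rs a')
      rwa [sub_sub_cancel] at this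
    have h4 : dq 𝕜 m (rs w ε) ≤ l1 𝕜 m (rs w ε - rs a) := dq_le m _ a
    rw [e1]
    rw [e3] at h4 ⊢
    linarith
  have hE : av (fun ε => p (rs e ε)) + 21 / 22 * W - 1 / 22 * av β ≤
      av fun ε => pq p x (rs Z ε) := by
    have h1 := av_mono hD
    rw [av_sub, av_add, av_mul, av_mul] at h1
    exact h1
  have hF : Real.sqrt (∑ j, pq p x (Z j) ^ 2) ≤
      Real.sqrt (∑ j, p (e j) ^ 2) + Real.sqrt (∑ j, l1 𝕜 m (b j) ^ 2) := by
    refine le_trans ?_ (mink (fun j => p (e j)) fun j => l1 𝕜 m (b j))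
    refine Real.sqrt_le_sqrt (Finset.sum_le_sum fun j _ => ?_)
    refine pow_le_pow_left₀ (apply_nonneg _ _) ?_ 2
    exact pq_le p x (Z j).1 (Z j).2 (s j)
  have hG := hp k e
  have hH := cot_l1 𝕜 m k b
  have hβ1 : Real.sqrt 2 * av β ≤ 1.4143 * (9.91 * W + 7 * δ) :=
    mul_le_mul hs2 hC' hβ0 (by norm_num)
  have hH' : Real.sqrt (∑ j, l1 𝕜 m (b j) ^ 2) ≤ 1.4143 * (9.91 * W + 7 * δ) := hH.trans hβ1
  have h9 : Real.sqrt (∑ j, p (e j) ^ 2) ≤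
      29 * ((av fun ε => pq p x (rs Z ε)) - 21 / 22 * W + 1 / 22 * (9.91 * W + 7 * δ)) := by
    refine hG.trans ?_
    refine mul_le_mul_of_nonneg_left ?_ (by norm_num)
    linarith
  linarith

end Pool.Agent.Helper54.PI
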