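import Mathlib
import Pool.Agent.Helper54.PI.Defs

/-!
PROJECT PI: definitions of the sequence of seminorms. DONE.

`VV 𝕜` = finitely supported functions on `JJ = Σ n, Cube (unpair n).1`: the block `n` is a function on
the cube of dimension `(unpair n).1`. `pp raw n` is a seminorm which only depends on the blocks
`< n`; it is obtained from `pp raw (n - 1)` by a push-out along the datum `xx` if the raw datum
(enumerated by `raw`) is valid.
-/

set_option autoImplicit false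

namespace Pool.Agent.Helper54.PI

open Finset

noncomputable section

/-- Index set. -/
abbrev JJ : Type := Σ n : ℕ, Cube (Nat.unpair n).1

/-- Finitely supported vectors. -/
abbrev VV (𝕜 : Type) [RCLike 𝕜] : Type := JJ →₀ 𝕜

variable {𝕜 : Type} [RCLike 𝕜]

/-- The block `n` of a vector. -/
def blk (n : ℕ) : VV 𝕜 →ₗ[𝕜] (Cube (Nat.unpair n).1 → 𝕜) where
  toFun v := fun w => v ⟨n, w⟩
  map_add' _ _ := rfl
  map_smul' _ _ := rfl

/-- A vector together with its block `n`. -/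
def emb (n : ℕ) : VV 𝕜 →ₗ[𝕜] VV 𝕜 × (Cube (Nat.unpair n).1 → 𝕜) :=
  LinearMap.prod LinearMap.id (blk n)

/-- Admissible data at stage `n`. -/
def Valid (p : Seminorm 𝕜 (VV 𝕜)) (n : ℕ) {m : ℕ} (x : Fin m → VV 𝕜) : Prop :=
  (∀ i j, x i j ≠ 0 → j.1 < n) ∧
    ∀ a : Fin m → 𝕜, p (∑ i, a i • x i) ≤ 1 / 22 * l1 𝕜 m (rs a)

open Classical in
/-- The datum used at stage `n`. -/
def xx (raw : ∀ m : ℕ, ℕ → Fin m → VV 𝕜) (p : Seminorm 𝕜 (VV 𝕜)) (n : ℕ) :
    Fin (Nat.unpair n).1 → VV 𝕜 :=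
  if Valid p n (raw (Nat.unpair n).1 (Nat.unpair (Nat.unpair n).2).1) then
    raw (Nat.unpair n).1 (Nat.unpair (Nat.unpair n).2).1
  else 0

/-- The sequence of seminorms. -/
def pp (raw : ∀ m : ℕ, ℕ → Fin m → VV 𝕜) : ℕ → Seminorm 𝕜 (VV 𝕜)
  | 0 => 0
  | n + 1 => (pq (pp raw n) (xx raw (pp raw n) n)).comp (emb n)

end

end Pool.Agent.Helper54.PI
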