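import Mathlib
import Pool.Agent.Helper54.PI.Defs
import Pool.Agent.Helper54.PI.SeqDefs

/-!
PROJECT PI, module PI-17. A countable set of vectors, dense for every seminorm bounded by the
`ℓ_1` norm.

PROOF. Let `d : ℕ → 𝕜` be a dense sequence (`TopologicalSpace.denseSeq 𝕜`). `Q` = range of the map
`(Σ s : Finset JJ, (s → ℕ)) → VV 𝕜`, `⟨s, c⟩ ↦ ∑ j : s, single j (d (c j))`; the source is countable
(`JJ` is countable, functions from a finite type to `ℕ` form a countable type), so
`Set.countable_range`. For `v` take `s = v.support` and `c j` with `‖v j - d (c j)‖ ≤ δ / (s.card + 1)`;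
`v - v' = ∑ j ∈ s, single j (v j - d (c j))`, so `P (v - v') ≤ ∑ ‖v j - d (c j)‖ ≤ δ`
(`Finsupp.sum_single`, `map_sum_le_sum`-type bound for seminorms: `Seminorm` sum inequality by
induction).
-/

set_option autoImplicit false

namespace Pool.Agent.Helper54.PI

open Finset

theorem exists_dense (𝕜 : Type) [RCLike 𝕜] :
    ∃ Q : Set (VV 𝕜), Q.Countable ∧ ∀ P : Seminorm 𝕜 (VV 𝕜),
      (∀ (j : JJ) (c : 𝕜), P (Finsupp.single j c) ≤ ‖c‖) →
      ∀ (v : VV 𝕜) (δ : ℝ), 0 < δ → ∃ v' ∈ Q, P (v - v') ≤ δ := by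
  have : Countable JJ := by unfold JJ; infer_instance
  let g : List (JJ × ℕ) → VV 𝕜 := fun l =>
    (l.map fun q => (Finsupp.single q.1 (TopologicalSpace.denseSeq 𝕜 q.2) : VV 𝕜)).sum
  refine ⟨Set.range g, Set.countable_range g, fun P hP v => ?_⟩
  induction v using Finsupp.induction_linear with
  | zero =>
    intro δ hδ
    refine ⟨g [], ⟨[], rfl⟩, ?_⟩
    have : (0 : VV 𝕜) - g [] = 0 := by simp [g]
    rw [this, map_zero]
    exact hδ.le
  | add a b ha hb =>
    intro δ hδ
    obtain ⟨a', ⟨l1, rfl⟩, h1⟩ := ha (δ / 2) (by linarith)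
    obtain ⟨b', ⟨l2, rfl⟩, h2⟩ := hb (δ / 2) (by linarith)
    refine ⟨g (l1 ++ l2), ⟨_, rfl⟩, ?_⟩
    have h3 : a + b - g (l1 ++ l2) = (a - g l1) + (b - g l2) := by
      simp only [g, List.map_append, List.sum_append]
      abel
    rw [h3]
    have := map_add_le_add P (a - g l1) (b - g l2)
    linarith
  | single j c =>
    intro δ hδ
    obtain ⟨n, hn⟩ := (TopologicalSpace.denseRange_denseSeq 𝕜).exists_dist_lt c hδ
    refine ⟨g [(j, n)], ⟨_, rfl⟩, ?_⟩
    have h3 : (Finsupp.single j c : VV 𝕜) - g [(j, n)] =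
        Finsupp.single j (c - TopologicalSpace.denseSeq 𝕜 n) := by
      simp only [g, List.map_cons, List.map_nil, List.sum_cons, List.sum_nil, add_zero]
      rw [← Finsupp.single_sub]
    rw [h3]
    refine (hP _ _).trans ?_
    rw [← dist_eq_norm]
    exact hn.le

end Pool.Agent.Helper54.PI
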