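import Mathlib

/-!
PROJECT PI, module PI-19. Maximal determinant (the lemma of Lewis).

PROOF. `H = EuclideanSpace 𝕜 (Fin n)`. Fix a linear equivalence `u₀ : H ≃ₗ[𝕜] G`
(`LinearEquiv.ofFinrankEq`). The set of the `w : H →L[𝕜] G` with `‖w‖ ≤ 1` is compact
(`H →L[𝕜] G` is finite-dimensional, `ProperSpace`, `isCompact_closedBall`), and
`w ↦ ‖LinearMap.det (u₀.symm ∘ w)‖` is continuous on it (`LinearMap.det` is continuous on
`H →ₗ[𝕜] H`: via matrices, `Continuous.matrix_det`), with a positive value at a small multiple of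
`u₀`. Let `v` be a maximum point: its determinant is not `0`, so `v` is a linear equivalence
(`LinearMap.equivOfDetNeZero` / `LinearEquiv.ofIsUnitDet`), and for every `w : H →ₗ[𝕜] G` with
`‖w h‖ ≤ C ‖h‖`, `C > 0`: `‖det (v⁻¹ w)‖ ≤ C ^ n` (homogeneity; `det (v⁻¹ w) = det (u₀⁻¹ w) / det (u₀⁻¹ v)`).
Now let `w` with bound `C`. For `t > 0` apply this to `v + t w` (bound `1 + t C`):
`‖det (1 + t A)‖ ≤ (1 + t C) ^ n`, `A = v⁻¹ w`. `Matrix.det_one_add_smul`: `det (1 + t A) =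
1 + t tr A + t ^ 2 R (t)` with a polynomial `R`. So
`1 + t re (tr A) - t ^ 2 M ≤ (1 + t C) ^ n` for `0 < t ≤ 1`, `M` a bound of `|R|` on `[0, 1]`.
Divide by `t` and let `t → 0` (the derivative of `(1 + t C) ^ n` at `0` is `n C`;
for instance `(1 + t C) ^ n ≤ 1 + n t C + t ^ 2 M'` for `0 ≤ t ≤ 1`).
`C ≥ 0` may be assumed (`n ≥ 1`, so `0 ≤ ‖w h‖ ≤ C ‖h‖` for some `h ≠ 0`).
-/

set_option autoImplicit false

namespace Pool.Agent.Helper54.PI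

open Finset

private lemma det_one_add_lower {𝕜 : Type} [RCLike 𝕜] (n : ℕ)
    (A : Matrix (Fin n) (Fin n) 𝕜) :
    ∃ M : ℝ, ∀ t : ℝ, 0 ≤ t → t ≤ 1 →
      1 + t * RCLike.re A.trace - t ^ 2 * M ≤ ‖(1 + ((t : ℝ) : 𝕜) • A).det‖ := by
  classical
  set P : Polynomial 𝕜 :=
    (Matrix.det (1 + (Polynomial.X : Polynomial 𝕜) • A.map Polynomial.C)).divX.divX with hP
  have hcont : Continuous fun t : ℝ => ‖P.eval ((t : ℝ) : 𝕜)‖ := by
    have h1 : Continuous fun t : ℝ => ((t : ℝ) : 𝕜) := RCLike.continuous_ofReal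
    exact (P.continuous.comp h1).norm
  obtain ⟨t₀, -, ht₀⟩ := (isCompact_Icc (a := (0 : ℝ)) (b := 1)).exists_isMaxOn
    ⟨0, by simp⟩ hcont.continuousOn
  refine ⟨‖P.eval ((t₀ : ℝ) : 𝕜)‖, fun t ht0 ht1 => ?_⟩
  have hM : ‖P.eval ((t : ℝ) : 𝕜)‖ ≤ ‖P.eval ((t₀ : ℝ) : 𝕜)‖ := ht₀ ⟨ht0, ht1⟩
  rw [Matrix.det_one_add_smul]
  rw [← hP]
  have h1 : ‖(1 : 𝕜) + A.trace * ((t : ℝ) : 𝕜)‖ - ‖P.eval ((t : ℝ) : 𝕜) * ((t : ℝ) : 𝕜) ^ 2‖ ≤
      ‖(1 : 𝕜) + A.trace * ((t : ℝ) : 𝕜) + P.eval ((t : ℝ) : 𝕜) * ((t : ℝ) : 𝕜) ^ 2‖ := by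
    have h := norm_sub_le ((1 : 𝕜) + A.trace * ((t : ℝ) : 𝕜) +
      P.eval ((t : ℝ) : 𝕜) * ((t : ℝ) : 𝕜) ^ 2) (P.eval ((t : ℝ) : 𝕜) * ((t : ℝ) : 𝕜) ^ 2)
    rw [add_sub_cancel_right] at h
    linarith
  have h2 : 1 + t * RCLike.re A.trace ≤ ‖(1 : 𝕜) + A.trace * ((t : ℝ) : 𝕜)‖ := by
    have h := RCLike.re_le_norm ((1 : 𝕜) + A.trace * ((t : ℝ) : 𝕜))
    rw [map_add, RCLike.one_re, mul_comm A.trace, RCLike.re_ofReal_mul] at h
    rw [mul_comm A.trace]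
    exact h
  have h3 : ‖P.eval ((t : ℝ) : 𝕜) * ((t : ℝ) : 𝕜) ^ 2‖ ≤ t ^ 2 * ‖P.eval ((t₀ : ℝ) : 𝕜)‖ := by
    rw [norm_mul, norm_pow, RCLike.norm_ofReal, abs_of_nonneg ht0, mul_comm]
    exact mul_le_mul_of_nonneg_left hM (by positivity)
  linarith

private lemma re_trace_le_of_det {𝕜 : Type} [RCLike 𝕜] (n : ℕ)
    (A : Matrix (Fin n) (Fin n) 𝕜) (C : ℝ)
    (h : ∀ t : ℝ, 0 < t → t ≤ 1 → ‖(1 + ((t : ℝ) : 𝕜) • A).det‖ ≤ (1 + t * C) ^ n) :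
    RCLike.re A.trace ≤ n * C := by
  obtain ⟨M, hM⟩ := det_one_add_lower n A
  set φ : ℝ → ℝ := fun t => (1 + t * C) ^ n - (1 + t * RCLike.re A.trace - t ^ 2 * M) with hφ
  have hd : HasDerivAt φ (n * C - RCLike.re A.trace) 0 := by
    have h1 : HasDerivAt (fun t : ℝ => 1 + t * C) C 0 := by
      simpa using ((hasDerivAt_id (0 : ℝ)).mul_const C).const_add 1
    have h2 := h1.pow n
    have h3 : HasDerivAt (fun t : ℝ => 1 + t * RCLike.re A.trace) (RCLike.re A.trace) 0 := by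
      simpa using ((hasDerivAt_id (0 : ℝ)).mul_const (RCLike.re A.trace)).const_add 1
    have h4 : HasDerivAt (fun t : ℝ => t ^ 2 * M) 0 0 := by
      simpa using ((hasDerivAt_id (0 : ℝ)).pow 2).mul_const M
    have h5 := h2.sub (h3.sub h4)
    refine h5.congr_deriv ?_
    simp
  have ht := hd.tendsto_slope_zero_right
  have hge : (0 : ℝ) ≤ n * C - RCLike.re A.trace := by
    refine ge_of_tendsto ht ?_
    have hmem : Set.Ioc (0 : ℝ) 1 ∈ nhdsWithin (0 : ℝ) (Set.Ioi 0) :=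
      Ioc_mem_nhdsGT (by norm_num)
    filter_upwards [hmem] with t ht
    have h0 : φ 0 = 0 := by simp [hφ]
    have h1 : 0 ≤ φ t := by
      have ha := hM t ht.1.le ht.2
      have hb := h t ht.1 ht.2
      simp only [hφ]
      linarith
    rw [zero_add, h0, sub_zero, smul_eq_mul]
    exact mul_nonneg (inv_nonneg.2 ht.1.le) h1
  linarith

theorem lewis {𝕜 : Type} [RCLike 𝕜] {G : Type} [NormedAddCommGroup G] [NormedSpace 𝕜 G]
    [FiniteDimensional 𝕜 G] (n : ℕ) (hn : 1 ≤ n) (hG : Module.finrank 𝕜 G = n) :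
    ∃ v : EuclideanSpace 𝕜 (Fin n) ≃ₗ[𝕜] G, (∀ h, ‖v h‖ ≤ ‖h‖) ∧
      ∀ (w : EuclideanSpace 𝕜 (Fin n) →ₗ[𝕜] G) (C : ℝ), (∀ h, ‖w h‖ ≤ C * ‖h‖) →
        RCLike.re (LinearMap.trace 𝕜 (EuclideanSpace 𝕜 (Fin n)) (v.symm.toLinearMap ∘ₗ w)) ≤
          n * C := by
  classical
  set E := EuclideanSpace 𝕜 (Fin n) with hE
  have hfin : Module.finrank 𝕜 E = n := finrank_euclideanSpace_fin
  set u₀ : E ≃ₗ[𝕜] G := LinearEquiv.ofFinrankEq E G (by rw [hfin, hG]) with hu₀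
  set b : Module.Basis (Fin n) 𝕜 E := (EuclideanSpace.basisFun (Fin n) 𝕜).toBasis with hb
  have : ProperSpace (E →L[𝕜] G) := FiniteDimensional.proper_rclike 𝕜 _
  -- the determinant function
  let f : (E →ₗ[𝕜] G) → ℝ := fun w => ‖LinearMap.det (u₀.symm.toLinearMap ∘ₗ w)‖
  have hfc : Continuous fun w : E →L[𝕜] G => f (w : E →ₗ[𝕜] G) := by
    let L : (E →L[𝕜] G) →ₗ[𝕜] Matrix (Fin n) (Fin n) 𝕜 :=
      { toFun := fun w => LinearMap.toMatrix b b (u₀.symm.toLinearMap ∘ₗ (w : E →ₗ[𝕜] G))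
        map_add' := fun x y => by
          rw [← map_add]
          congr 1
          ext z
          simp
        map_smul' := fun c x => by
          rw [RingHom.id_apply, ← map_smul]
          congr 1
          ext z
          simp }
    have hL : Continuous L := L.continuous_of_finiteDimensional
    have : (fun w : E →L[𝕜] G => f (w : E →ₗ[𝕜] G)) = fun w => ‖(L w).det‖ := by
      funext w
      change ‖LinearMap.det (u₀.symm.toLinearMap ∘ₗ (w : E →ₗ[𝕜] G))‖ =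
        ‖(LinearMap.toMatrix b b (u₀.symm.toLinearMap ∘ₗ (w : E →ₗ[𝕜] G))).det‖
      rw [LinearMap.det_toMatrix]
    rw [this]
    exact hL.matrix_det.norm
  have hfsmul : ∀ (c : 𝕜) (w : E →ₗ[𝕜] G), f (c • w) = ‖c‖ ^ n * f w := by
    intro c w
    change ‖LinearMap.det (u₀.symm.toLinearMap ∘ₗ (c • w))‖ =
      ‖c‖ ^ n * ‖LinearMap.det (u₀.symm.toLinearMap ∘ₗ w)‖
    rw [LinearMap.comp_smul, LinearMap.det_smul, norm_mul, norm_pow, hfin]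
  obtain ⟨v₁, hv₁mem, hv₁⟩ := (isCompact_closedBall (0 : E →L[𝕜] G) 1).exists_isMaxOn
    ⟨0, by simp⟩ hfc.continuousOn
  have hv₁max : ∀ w : E →L[𝕜] G, ‖w‖ ≤ 1 → f (w : E →ₗ[𝕜] G) ≤ f (v₁ : E →ₗ[𝕜] G) :=
    fun w hw => hv₁ (by simpa using hw)
  have hv₁n : ‖v₁‖ ≤ 1 := by simpa using hv₁mem
  -- a positive value
  have hpos : 0 < f (v₁ : E →ₗ[𝕜] G) := by
    let U : E →L[𝕜] G := LinearMap.toContinuousLinearMap u₀.toLinearMap
    let c : 𝕜 := (((‖U‖ + 1)⁻¹ : ℝ) : 𝕜)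
    have hUp : 0 < ‖U‖ + 1 := by positivity
    have hc : ‖c‖ = (‖U‖ + 1)⁻¹ := by
      simp only [c]
      rw [RCLike.norm_ofReal, abs_of_pos (inv_pos.2 hUp)]
    have h1 : ‖c • U‖ ≤ 1 := by
      rw [norm_smul, hc, inv_mul_le_iff₀ hUp]
      linarith
    have h2 := hv₁max (c • U) h1
    have h3 : f ((c • U : E →L[𝕜] G) : E →ₗ[𝕜] G) = ‖c‖ ^ n := by
      have h4 : ((c • U : E →L[𝕜] G) : E →ₗ[𝕜] G) = c • u₀.toLinearMap := by
        ext z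
        rfl
      rw [h4, hfsmul]
      have h5 : f u₀.toLinearMap = 1 := by
        change ‖LinearMap.det (u₀.symm.toLinearMap ∘ₗ u₀.toLinearMap)‖ = 1
        have : u₀.symm.toLinearMap ∘ₗ u₀.toLinearMap = LinearMap.id := by
          ext z
          simp
        rw [this, LinearMap.det_id, norm_one]
      rw [h5, mul_one]
    rw [h3, hc] at h2
    exact lt_of_lt_of_le (by positivity) h2
  have hdet : LinearMap.det (u₀.symm.toLinearMap ∘ₗ (v₁ : E →ₗ[𝕜] G)) ≠ 0 := by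
    intro h0
    have : f (v₁ : E →ₗ[𝕜] G) = 0 := by
      change ‖LinearMap.det (u₀.symm.toLinearMap ∘ₗ (v₁ : E →ₗ[𝕜] G))‖ = 0
      rw [h0, norm_zero]
    exact hpos.ne' this
  let e : E ≃ₗ[𝕜] E := LinearMap.equivOfIsUnitDet (isUnit_iff_ne_zero.2 hdet)
  have he : ∀ x, e x = u₀.symm (v₁ x) := fun x => by
    exact LinearMap.equivOfIsUnitDet_apply (isUnit_iff_ne_zero.2 hdet) x
  let v : E ≃ₗ[𝕜] G := e.trans u₀
  have hv : ∀ x, v x = v₁ x := fun x => by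
    change u₀ (e x) = v₁ x
    rw [he, LinearEquiv.apply_symm_apply]
  have hvl : v.toLinearMap = (v₁ : E →ₗ[𝕜] G) := by
    ext x
    exact hv x
  refine ⟨v, fun h => ?_, ?_⟩
  · rw [hv]
    calc ‖v₁ h‖ ≤ ‖v₁‖ * ‖h‖ := v₁.le_opNorm h
      _ ≤ 1 * ‖h‖ := mul_le_mul_of_nonneg_right hv₁n (norm_nonneg _)
      _ = ‖h‖ := one_mul _
  -- the determinant bound
  have hbound : ∀ (w : E →ₗ[𝕜] G) (C : ℝ), 0 < C → (∀ h, ‖w h‖ ≤ C * ‖h‖) →
      ‖LinearMap.det (v.symm.toLinearMap ∘ₗ w)‖ ≤ C ^ n := by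
    intro w C hC hw
    let W : E →L[𝕜] G := (((C⁻¹ : ℝ) : 𝕜)) • LinearMap.toContinuousLinearMap w
    have hWl : (W : E →ₗ[𝕜] G) = (((C⁻¹ : ℝ) : 𝕜)) • w := by
      ext z
      rfl
    have hnc : ‖((C⁻¹ : ℝ) : 𝕜)‖ = C⁻¹ := by
      rw [RCLike.norm_ofReal, abs_of_pos (inv_pos.2 hC)]
    have hWn : ‖W‖ ≤ 1 := by
      refine ContinuousLinearMap.opNorm_le_bound _ zero_le_one fun x => ?_
      change ‖(((C⁻¹ : ℝ) : 𝕜)) • w x‖ ≤ 1 * ‖x‖
      rw [norm_smul, hnc, one_mul, inv_mul_le_iff₀ hC]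
      exact hw x
    have h1 := hv₁max W hWn
    rw [hWl, hfsmul, hnc] at h1
    have h2 : f w = f (v₁ : E →ₗ[𝕜] G) * ‖LinearMap.det (v.symm.toLinearMap ∘ₗ w)‖ := by
      change ‖LinearMap.det (u₀.symm.toLinearMap ∘ₗ w)‖ =
        ‖LinearMap.det (u₀.symm.toLinearMap ∘ₗ (v₁ : E →ₗ[𝕜] G))‖ *
          ‖LinearMap.det (v.symm.toLinearMap ∘ₗ w)‖
      rw [← norm_mul, ← LinearMap.det_comp]
      congr 2
      ext1 z
      simp only [LinearMap.comp_apply, LinearEquiv.coe_coe]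
      rw [ContinuousLinearMap.coe_coe, ← hv, LinearEquiv.apply_symm_apply]
    rw [h2] at h1
    have hCn : 0 < C ^ n := pow_pos hC n
    rw [inv_pow, inv_mul_le_iff₀ hCn] at h1
    have h3 : f (v₁ : E →ₗ[𝕜] G) * ‖LinearMap.det (v.symm.toLinearMap ∘ₗ w)‖ ≤
        f (v₁ : E →ₗ[𝕜] G) * C ^ n := by
      rw [mul_comm (f (v₁ : E →ₗ[𝕜] G)) (C ^ n)]
      exact h1
    exact le_of_mul_le_mul_left h3 hpos
  intro w C hw
  -- C is nonnegative
  have hC : 0 ≤ C := by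
    have hnt : ∃ h : E, h ≠ 0 := by
      have : Nontrivial E := by
        apply Module.nontrivial_of_finrank_pos (R := 𝕜)
        rw [hfin]
        omega
      exact exists_ne 0
    obtain ⟨h, hh⟩ := hnt
    have h1 : 0 ≤ C * ‖h‖ := (norm_nonneg _).trans (hw h)
    exact nonneg_of_mul_nonneg_left h1 (norm_pos_iff.2 hh)
  set A : E →ₗ[𝕜] E := v.symm.toLinearMap ∘ₗ w with hA
  have htr : LinearMap.trace 𝕜 E A = (LinearMap.toMatrix b b A).trace :=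
    LinearMap.trace_eq_matrix_trace 𝕜 b A
  rw [htr]
  refine re_trace_le_of_det n _ C fun t ht0 ht1 => ?_
  have hmat : (1 + ((t : ℝ) : 𝕜) • LinearMap.toMatrix b b A) =
      LinearMap.toMatrix b b (v.symm.toLinearMap ∘ₗ (v.toLinearMap + ((t : ℝ) : 𝕜) • w)) := by
    have h1 : v.symm.toLinearMap ∘ₗ (v.toLinearMap + ((t : ℝ) : 𝕜) • w) =
        LinearMap.id + ((t : ℝ) : 𝕜) • A := by
      ext1 z
      simp [hA]
    rw [h1, map_add, map_smul, LinearMap.toMatrix_id]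
  rw [hmat, LinearMap.det_toMatrix]
  refine hbound _ _ (by positivity) fun h => ?_
  calc ‖(v.toLinearMap + ((t : ℝ) : 𝕜) • w) h‖ = ‖v h + ((t : ℝ) : 𝕜) • w h‖ := rfl
    _ ≤ ‖v h‖ + ‖((t : ℝ) : 𝕜) • w h‖ := norm_add_le _ _
    _ ≤ ‖h‖ + t * (C * ‖h‖) := by
        refine add_le_add ?_ ?_
        · rw [hv]
          calc ‖v₁ h‖ ≤ ‖v₁‖ * ‖h‖ := v₁.le_opNorm h
            _ ≤ 1 * ‖h‖ := mul_le_mul_of_nonneg_right hv₁n (norm_nonneg _)
            _ = ‖h‖ := one_mul _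
        · rw [norm_smul, RCLike.norm_ofReal, abs_of_pos ht0]
          exact mul_le_mul_of_nonneg_left (hw h) ht0.le
    _ = (1 + t * C) * ‖h‖ := by ring

end Pool.Agent.Helper54.PI
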