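import Mathlib
import Pool.Agent.Helper54.PI.Lewis

/-!
PROJECT PI, module PI-20. The lemma of Dvoretzky and Rogers.

PROOF. `H = EuclideanSpace 𝕜 (Fin n)`, `v` of `lewis`.
(A) `‖v.symm g‖ ≤ n ‖g‖`: for `g ≠ 0` let `h = (1/‖v.symm g‖) v.symm g` (a unit vector) and
`w h' = ⟪h, h'⟫ • g`; `‖w h'‖ ≤ ‖g‖ ‖h'‖`, and the trace of `h' ↦ ⟪h, h'⟫ • v.symm g` is
`⟪h, v.symm g⟫ = ‖v.symm g‖` (`LinearMap.trace` of a rank one map: `LinearMap.trace_smulRight` /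
`trace_eq_contract` / `dualTensorHom`, or via an orthonormal basis).
(B) If `W ≤ H` is a submodule of dimension `r ≥ 1` there is a unit vector `f ∈ W` with
`r / n ≤ ‖v f‖`: let `μ` be the maximum of `‖v f‖` on the unit sphere of `W` (compact), and
`w = v ∘ Q`, `Q` the orthogonal projection onto `W` as a map `H → H`: `‖w h‖ ≤ μ ‖Q h‖ ≤ μ ‖h‖`, and
`trace (v⁻¹ w) = trace Q = r` (`LinearMap.IsProj.trace`). So `r ≤ n μ`.
(C) By induction on `r`: every submodule `W` of dimension `r` contains an orthonormal family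
`f : Fin r → H` with `(i + 1) / n ≤ ‖v (f i)‖` for all `i`: take `f` of (B) as the last vector
(`i = r - 1`) and the family of `W ⊓ (span f)ᗮ`, which has dimension `r - 1`.
(D) `W = ⊤`, `e i = v (f i)`. `f` is an orthonormal basis (`n` orthonormal vectors). (i)
`‖∑ a_i e_i‖ = ‖v (∑ a_i f_i)‖ ≤ ‖∑ a_i f_i‖ = sqrt (∑ ‖a_i‖ ^ 2)`. (ii) by (A). (iii)
`∑ i ∈ range n, ((i + 1) / n) ^ 2 = (n + 1) (2 n + 1) / (6 n) ≥ n / 3`. (iv) `v` is onto and `f` is a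
basis.
-/

set_option autoImplicit false

namespace Pool.Agent.Helper54.PI

open Finset

section Aux

variable {𝕜 : Type} [RCLike 𝕜] {G : Type} [NormedAddCommGroup G] [NormedSpace 𝕜 G]

private lemma symm_le {n : ℕ} (v : EuclideanSpace 𝕜 (Fin n) ≃ₗ[𝕜] G)
    (hv : ∀ (w : EuclideanSpace 𝕜 (Fin n) →ₗ[𝕜] G) (C : ℝ), (∀ h, ‖w h‖ ≤ C * ‖h‖) →
      RCLike.re (LinearMap.trace 𝕜 (EuclideanSpace 𝕜 (Fin n)) (v.symm.toLinearMap ∘ₗ w)) ≤ n * C)
    (g : G) : ‖v.symm g‖ ≤ n * ‖g‖ := by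
  obtain ⟨h0, hh0⟩ : ∃ h0, h0 = v.symm g := ⟨_, rfl⟩
  rw [← hh0]
  rcases eq_or_ne h0 0 with h | h
  · rw [h, norm_zero]
    positivity
  · obtain ⟨φ, hφ⟩ : ∃ φ : EuclideanSpace 𝕜 (Fin n) →ₗ[𝕜] 𝕜, φ = (innerSL 𝕜 h0).toLinearMap := ⟨_, rfl⟩
    have hφ' : ∀ x, φ x = inner 𝕜 h0 x := fun x => by rw [hφ]; rfl
    have h1 := hv (φ.smulRight g) (‖h0‖ * ‖g‖) (fun x => by
      rw [LinearMap.smulRight_apply, norm_smul, hφ']
      have := norm_inner_le_norm (𝕜 := 𝕜) h0 x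
      calc ‖(inner 𝕜 h0 x : 𝕜)‖ * ‖g‖ ≤ (‖h0‖ * ‖x‖) * ‖g‖ :=
            mul_le_mul_of_nonneg_right this (norm_nonneg _)
        _ = _ := by ring)
    have h2 : v.symm.toLinearMap ∘ₗ φ.smulRight g = φ.smulRight h0 := by
      ext1 x
      rw [LinearMap.comp_apply, LinearMap.smulRight_apply, LinearMap.smulRight_apply, map_smul, hh0]
      rfl
    rw [h2, LinearMap.trace_smulRight, hφ', inner_self_eq_norm_sq_to_K] at h1
    have h3 : RCLike.re (((‖h0‖ : ℝ) : 𝕜) ^ 2) = ‖h0‖ ^ 2 := by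
      rw [← RCLike.ofReal_pow, RCLike.ofReal_re]
    rw [h3] at h1
    have h4 : 0 < ‖h0‖ := norm_pos_iff.2 h
    have h5 : ‖h0‖ * ‖h0‖ ≤ ‖h0‖ * (n * ‖g‖) := by nlinarith
    exact le_of_mul_le_mul_left h5 h4

private lemma exists_unit {n : ℕ} (hn : 1 ≤ n) (v : EuclideanSpace 𝕜 (Fin n) ≃ₗ[𝕜] G)
    (hv : ∀ (w : EuclideanSpace 𝕜 (Fin n) →ₗ[𝕜] G) (C : ℝ), (∀ h, ‖w h‖ ≤ C * ‖h‖) →
      RCLike.re (LinearMap.trace 𝕜 (EuclideanSpace 𝕜 (Fin n)) (v.symm.toLinearMap ∘ₗ w)) ≤ n * C)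
    (W : Submodule 𝕜 (EuclideanSpace 𝕜 (Fin n))) (r : ℕ) (hr : Module.finrank 𝕜 W = r) (hr1 : 1 ≤ r) :
    ∃ f ∈ W, ‖f‖ = 1 ∧ (r : ℝ) / n ≤ ‖v f‖ := by
  have hnt : Nontrivial W := Module.nontrivial_of_finrank_pos (R := 𝕜) (by omega)
  obtain ⟨x0, hx0⟩ := exists_ne (0 : W)
  have hx0n : ‖x0‖ ≠ 0 := norm_ne_zero_iff.2 hx0
  have hne : (Metric.sphere (0 : W) 1).Nonempty := by
    refine ⟨((‖x0‖ : 𝕜)⁻¹) • x0, ?_⟩
    rw [mem_sphere_zero_iff_norm, norm_smul, norm_inv, RCLike.norm_ofReal, abs_norm,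
      inv_mul_cancel₀ hx0n]
  have : ProperSpace W := FiniteDimensional.proper 𝕜 W
  have hc : Continuous fun x : W => ‖v (x : EuclideanSpace 𝕜 (Fin n))‖ := by
    have h1 : Continuous fun x : EuclideanSpace 𝕜 (Fin n) => v x :=
      v.toLinearMap.continuous_of_finiteDimensional
    exact (h1.comp continuous_subtype_val).norm
  obtain ⟨f, hf, hmax⟩ := (isCompact_sphere (0 : W) 1).exists_isMaxOn hne hc.continuousOn
  rw [mem_sphere_zero_iff_norm] at hf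
  have hbd : ∀ x : W, ‖v (x : EuclideanSpace 𝕜 (Fin n))‖ ≤
      ‖v (f : EuclideanSpace 𝕜 (Fin n))‖ * ‖x‖ := by
    intro x
    rcases eq_or_ne x 0 with h | h
    · rw [h]
      simp
    · have hxn : ‖x‖ ≠ 0 := norm_ne_zero_iff.2 h
      have h1 : ((‖x‖ : 𝕜)⁻¹) • x ∈ Metric.sphere (0 : W) 1 := by
        rw [mem_sphere_zero_iff_norm, norm_smul, norm_inv, RCLike.norm_ofReal, abs_norm,
          inv_mul_cancel₀ hxn]
      have h2 : ‖v ((((‖x‖ : 𝕜)⁻¹) • x : W) : EuclideanSpace 𝕜 (Fin n))‖ ≤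
        ‖v (f : EuclideanSpace 𝕜 (Fin n))‖ := hmax h1
      rw [Submodule.coe_smul, map_smul, norm_smul, norm_inv, RCLike.norm_ofReal, abs_norm] at h2
      have h3 : 0 < ‖x‖ := norm_pos_iff.2 h
      rw [inv_mul_le_iff₀ h3] at h2
      linarith [mul_comm ‖x‖ ‖v (f : EuclideanSpace 𝕜 (Fin n))‖]
  refine ⟨f, f.2, hf, ?_⟩
  have h1 := hv (v.toLinearMap ∘ₗ (W.starProjection).toLinearMap) ‖v (f : EuclideanSpace 𝕜 (Fin n))‖
    (fun x => by
      have h2 := hbd ⟨W.starProjection x, W.starProjection_apply_mem x⟩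
      have h3 := W.norm_starProjection_apply_le x
      have h4 : ‖(⟨W.starProjection x, W.starProjection_apply_mem x⟩ : W)‖ = ‖W.starProjection x‖ := rfl
      rw [h4] at h2
      exact h2.trans (mul_le_mul_of_nonneg_left h3 (norm_nonneg _)))
  have h2 : v.symm.toLinearMap ∘ₗ (v.toLinearMap ∘ₗ (W.starProjection).toLinearMap) =
      (W.starProjection).toLinearMap := by
    ext1 x
    simp
  have h3 : LinearMap.IsProj W (W.starProjection).toLinearMap := by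
    constructor
    · intro x
      exact W.starProjection_apply_mem x
    · intro x hx
      exact Submodule.starProjection_eq_self_iff.2 hx
  rw [h2, h3.trace, hr, RCLike.natCast_re] at h1
  rw [div_le_iff₀ (by exact_mod_cast hn)]
  linarith

private lemma exists_family {n : ℕ} (hn : 1 ≤ n) (v : EuclideanSpace 𝕜 (Fin n) ≃ₗ[𝕜] G)
    (hv : ∀ (w : EuclideanSpace 𝕜 (Fin n) →ₗ[𝕜] G) (C : ℝ), (∀ h, ‖w h‖ ≤ C * ‖h‖) →
      RCLike.re (LinearMap.trace 𝕜 (EuclideanSpace 𝕜 (Fin n)) (v.symm.toLinearMap ∘ₗ w)) ≤ n * C)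
    (r : ℕ) : ∀ W : Submodule 𝕜 (EuclideanSpace 𝕜 (Fin n)), Module.finrank 𝕜 W = r →
    ∃ f : Fin r → EuclideanSpace 𝕜 (Fin n), Orthonormal 𝕜 f ∧ (∀ i, f i ∈ W) ∧
      ∑ j ∈ range r, (((j : ℝ) + 1) / n) ^ 2 ≤ ∑ i, ‖v (f i)‖ ^ 2 := by
  induction r with
  | zero =>
    intro W _
    refine ⟨Fin.elim0, ⟨fun i => i.elim0, fun i => i.elim0⟩, fun i => i.elim0, ?_⟩
    simp
  | succ r ih =>
    intro W hW
    obtain ⟨f0, hf0, hf1, hf2⟩ := exists_unit hn v hv W (r + 1) hW (by omega)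
    have hf0n : f0 ≠ 0 := by
      intro h
      rw [h, norm_zero] at hf1
      exact zero_ne_one hf1
    have hle : Submodule.span 𝕜 {f0} ≤ W := by
      rw [Submodule.span_singleton_le_iff_mem]
      exact hf0
    have hdim := Submodule.finrank_add_inf_finrank_orthogonal' hle (n := r) (by
      rw [finrank_span_singleton hf0n, hW]
      omega)
    obtain ⟨f, hf, hfW, hsum⟩ := ih _ hdim
    refine ⟨Matrix.vecCons f0 f, ?_, ?_, ?_⟩
    · rw [orthonormal_vecCons_iff]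
      refine ⟨hf1, fun i => ?_, hf⟩
      have h1 := (Submodule.mem_inf.1 (hfW i)).1
      exact (Submodule.mem_orthogonal _ _).1 h1 f0 (Submodule.mem_span_singleton_self f0)
    · intro i
      refine Fin.cases ?_ (fun j => ?_) i
      · exact hf0
      · exact (Submodule.mem_inf.1 (hfW j)).2
    · rw [Fin.sum_univ_succ, Finset.sum_range_succ, Matrix.cons_val_zero]
      have h1 : (((r : ℝ) + 1) / n) ^ 2 ≤ ‖v f0‖ ^ 2 := by
        have h2 : ((r : ℝ) + 1) / n ≤ ‖v f0‖ := by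
          push_cast at hf2
          exact hf2
        exact pow_le_pow_left₀ (by positivity) h2 2
      simp only [Matrix.cons_val_succ]
      linarith

private lemma sum_lower (n : ℕ) (hn : 1 ≤ n) :
    (n : ℝ) / 3 ≤ ∑ j ∈ range n, (((j : ℝ) + 1) / n) ^ 2 := by
  have h1 : ∀ m : ℕ, (m : ℝ) ^ 3 ≤ 3 * ∑ j ∈ range m, ((j : ℝ) + 1) ^ 2 := by
    intro m
    induction m with
    | zero => simp
    | succ m ih =>
      rw [Finset.sum_range_succ]
      push_cast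
      have : (0 : ℝ) ≤ m := Nat.cast_nonneg m
      nlinarith
  have hn0 : (0 : ℝ) < n := by exact_mod_cast hn
  have h2 : ∑ j ∈ range n, (((j : ℝ) + 1) / n) ^ 2 = (∑ j ∈ range n, ((j : ℝ) + 1) ^ 2) / (n : ℝ) ^ 2 := by
    rw [Finset.sum_div]
    exact Finset.sum_congr rfl fun j _ => div_pow _ _ _
  rw [h2, le_div_iff₀ (by positivity)]
  have h3 := h1 n
  have h4 : (n : ℝ) / 3 * n ^ 2 = n ^ 3 / 3 := by ring
  rw [h4]
  linarith

end Aux

theorem dvoretzky_rogers {𝕜 : Type} [RCLike 𝕜] {G : Type} [NormedAddCommGroup G]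
    [NormedSpace 𝕜 G] [FiniteDimensional 𝕜 G] (n : ℕ) (hn : 1 ≤ n)
    (hG : Module.finrank 𝕜 G = n) :
    ∃ e : Fin n → G,
      (∀ a : Fin n → 𝕜, ‖∑ i, a i • e i‖ ≤ Real.sqrt (∑ i, ‖a i‖ ^ 2)) ∧
      (∀ a : Fin n → 𝕜, Real.sqrt (∑ i, ‖a i‖ ^ 2) ≤ n * ‖∑ i, a i • e i‖) ∧
      (n : ℝ) / 3 ≤ ∑ i, ‖e i‖ ^ 2 ∧
      ∀ g : G, ∃ a : Fin n → 𝕜, g = ∑ i, a i • e i := by
  obtain ⟨v, hv1, hv2⟩ := lewis (𝕜 := 𝕜) (G := G) n hn hG
  obtain ⟨f, hf, -, hsum⟩ := exists_family hn v hv2 n ⊤ (by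
    rw [finrank_top, finrank_euclideanSpace, Fintype.card_fin])
  have hne : Nonempty (Fin n) := ⟨⟨0, by omega⟩⟩
  have hcard : Fintype.card (Fin n) = Module.finrank 𝕜 (EuclideanSpace 𝕜 (Fin n)) := by
    rw [finrank_euclideanSpace]
  have hB := coe_basisOfOrthonormalOfCardEqFinrank hf hcard
  obtain ⟨B, hBdef⟩ : ∃ B : OrthonormalBasis (Fin n) 𝕜 (EuclideanSpace 𝕜 (Fin n)), ∀ i, B i = f i := by
    refine ⟨OrthonormalBasis.mk hf ?_, fun i => ?_⟩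
    · rw [← hB, Module.Basis.span_eq]
    · rw [OrthonormalBasis.coe_mk]
  have hnorm : ∀ a : Fin n → 𝕜, ‖∑ i, a i • f i‖ = Real.sqrt (∑ i, ‖a i‖ ^ 2) := by
    intro a
    have h1 : ∑ i, a i • f i = B.repr.symm (WithLp.toLp 2 a) := by
      rw [← B.sum_repr_symm]
      exact Finset.sum_congr rfl fun i _ => by rw [hBdef]
    rw [h1, LinearIsometryEquiv.norm_map, EuclideanSpace.norm_eq]
  have hv : ∀ a : Fin n → 𝕜, ∑ i, a i • v (f i) = v (∑ i, a i • f i) := by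
    intro a
    rw [map_sum]
    exact Finset.sum_congr rfl fun i _ => (map_smul v _ _).symm
  refine ⟨fun i => v (f i), fun a => ?_, fun a => ?_, ?_, fun g => ?_⟩
  · rw [hv, ← hnorm]
    exact hv1 _
  · rw [hv, ← hnorm]
    have h1 := symm_le v hv2 (v (∑ i, a i • f i))
    rwa [LinearEquiv.symm_apply_apply] at h1
  · exact (sum_lower n hn).trans hsum
  · refine ⟨fun i => B.repr (v.symm g) i, ?_⟩
    rw [hv]
    have h1 : ∑ i, B.repr (v.symm g) i • f i = v.symm g := by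
      have h2 := B.sum_repr (v.symm g)
      rw [← h2]
      refine Finset.sum_congr rfl fun i _ => ?_
      rw [hBdef, h2]
    rw [h1, LinearEquiv.apply_symm_apply]

end Pool.Agent.Helper54.PI
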