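import Mathlib
import Pool.Agent.Helper54.PI.Defs

/-!
PROJECT PI: the properties of the space used in the proof. DONE (definitions only).
-/

set_option autoImplicit false

namespace Pool.Agent.Helper54.PI

open Finset

/-- Cotype 2 with constant 29 and extension of Rademacher maps with constant 67. -/
structure GoodSp (𝕜 E : Type) [RCLike 𝕜] [NormedAddCommGroup E] [NormedSpace 𝕜 E] : Prop where
  cot : ∀ (k : ℕ) (z : Fin k → E), Real.sqrt (∑ j, ‖z j‖ ^ 2) ≤ 29 * av fun w => ‖rs z w‖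
  ext : ∀ (n : ℕ) (x : Fin n → E),
    (∀ a : Fin n → 𝕜, ‖∑ i, a i • x i‖ ≤ Real.sqrt (∑ i, ‖a i‖ ^ 2)) →
    ∃ φ : Cube n → E, (∀ w, ‖φ w‖ ≤ 67) ∧ ∀ i, co 𝕜 φ i = x i

end Pool.Agent.Helper54.PI
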