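import Mathlib
import Pool.Agent.Helper54.PI.Defs
import Pool.Agent.Helper54.PI.NTwo
import Pool.Agent.Helper54.PI.Contr
import Pool.Agent.Helper54.PI.Alg
import Pool.Agent.Helper54.PI.Hilb
import Pool.Agent.Helper54.PI.Good
import Pool.Agent.Helper54.PI.DvRo

/-!
PROJECT PI, module PI-21. Projections of rank `n` on `E` have large norm.

PROOF. `G = range P`, `e : Fin n → G` of `dvoretzky_rogers`, `x i = (e i : E)`, `p = normSeminorm 𝕜 E`,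
`N = N2 p`. `hE.ext n x` gives `φ : Cube n → E`, `‖φ w‖ ≤ 67`, `co 𝕜 φ i = x i`. Let `F w = P (φ w)`:
`‖F w‖ ≤ 67 ‖P‖`, so `N F ≤ 67 ‖P‖` (`N2_le_const`), `co 𝕜 F i = P (x i) = x i` (`co_map`; `x i` is in the
range of the projection `P`).
Coordinates: `F w = ∑ i, c w i • x i` with `c : Cube n → Fin n → 𝕜` (`dvoretzky_rogers`, last part),
`co 𝕜 c j = Pi.single j 1` (`∑ i, (co 𝕜 c j i) • x i = co 𝕜 F j = x j` and the `x i` are linearly
independent by the second part), so `rs (co 𝕜 c) w i = sg (w i)`, and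
`g = c - rs (co 𝕜 c)` satisfies `co 𝕜 g j = 0`, `∑ i, g w i • x i = F w - rs x w`.
Let `a = n ^ (-1/3)`, `0 < a ≤ 1`. `UU a F w - a • rs x w = UU a (F - rs x) w = ∑ i, (UU a g w i) • x i`
(`UU_rs`, `UU_sub`, `UU_map`), so
`N (UU a F - a rs x) ^ 2 ≤ av ∑ i, ‖UU a g w i‖ ^ 2 ≤ a ^ 6 av ∑ i, ‖g w i‖ ^ 2 ≤ a ^ 6 av ∑ i, ‖c w i‖ ^ 2
≤ a ^ 6 n ^ 2 N F ^ 2` (first part of `dvoretzky_rogers`, `hilb_vec`, `sub_rs_vec`, second part).
Hence `a N (rs x) ≤ N (UU a F) + a ^ 3 n N F ≤ (1 + a ^ 3 n) N F = 2 N F ≤ 2 * 67 ‖P‖`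
(`N2_sub_le`, `N2_smul`, `N2_UU`; `a ^ 3 n = 1`), so `N (rs x) ≤ 2 n ^ (1/3) * (67 ‖P‖)`.
Finally `sqrt (n / 3) ≤ sqrt (∑ ‖x i‖ ^ 2) ≤ 29 av ‖rs x w‖ ≤ 29 N (rs x)` (`hE.cot`, `av_le_N2`).
-/

set_option autoImplicit false

namespace Pool.Agent.Helper54.PI

open Finset

theorem proj_bound {𝕜 E : Type} [RCLike 𝕜] [NormedAddCommGroup E] [NormedSpace 𝕜 E]
    (hE : GoodSp 𝕜 E) (P : E →L[𝕜] E) (hP : ∀ x, P (P x) = P x) (n : ℕ) (hn : 1 ≤ n)
    (hfd : FiniteDimensional 𝕜 (LinearMap.range (P : E →ₗ[𝕜] E)))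
    (hr : Module.finrank 𝕜 (LinearMap.range (P : E →ₗ[𝕜] E)) = n) :
    Real.sqrt ((n : ℝ) / 3) ≤ 29 * (2 * (n : ℝ) ^ (1 / 3 : ℝ) * (67 * ‖P‖)) := by
  have := hfd
  obtain ⟨e, he1, he2, he3, he4⟩ := dvoretzky_rogers (𝕜 := 𝕜)
    (G := LinearMap.range (P : E →ₗ[𝕜] E)) n hn hr
  set x : Fin n → E := fun i => (e i : E) with hx
  have hcoe : ∀ a : Fin n → 𝕜, ‖∑ i, a i • e i‖ = ‖∑ i, a i • x i‖ := by
    intro a
    have h : ((∑ i, a i • e i : LinearMap.range (P : E →ₗ[𝕜] E)) : E) = ∑ i, a i • x i := by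
      rw [Submodule.coe_sum]
      rfl
    rw [← h]
    rfl
  have hxs : ∀ a : Fin n → 𝕜, ‖∑ i, a i • x i‖ ≤ Real.sqrt (∑ i, ‖a i‖ ^ 2) := by
    intro a
    rw [← hcoe]
    exact he1 a
  have hxs2 : ∀ a : Fin n → 𝕜, Real.sqrt (∑ i, ‖a i‖ ^ 2) ≤ n * ‖∑ i, a i • x i‖ := by
    intro a
    rw [← hcoe]
    exact he2 a
  have hPx : ∀ i, P (x i) = x i := by
    intro i
    obtain ⟨y, hy⟩ := (e i).2
    have h1 : x i = P y := hy.symm
    rw [h1]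
    exact hP y
  obtain ⟨φ, hφ1, hφ2⟩ := hE.ext n x hxs
  set F : Cube n → E := fun w => P (φ w) with hF
  have hFG : ∀ w, ∃ a : Fin n → 𝕜, F w = ∑ i, a i • x i := by
    intro w
    obtain ⟨a, ha⟩ := he4 ⟨F w, ⟨φ w, rfl⟩⟩
    refine ⟨a, ?_⟩
    have h1 := congrArg Subtype.val ha
    rw [Submodule.coe_sum] at h1
    exact h1
  choose c hc using hFG
  set p : Seminorm 𝕜 E := normSeminorm 𝕜 E with hp
  have hpn : ∀ y, p y = ‖y‖ := fun y => rfl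
  have hFn : N2 p F ≤ 67 * ‖P‖ := by
    refine N2_le_const _ _ _ (by positivity) fun w => ?_
    rw [hpn]
    refine (P.le_opNorm _).trans ?_
    rw [mul_comm]
    exact mul_le_mul_of_nonneg_right (hφ1 w) (norm_nonneg _)
  have hcoF : ∀ j, co 𝕜 F j = x j := by
    intro j
    have h1 := co_map (P : E →ₗ[𝕜] E) φ j
    rw [hφ2 j] at h1
    exact h1.trans (hPx j)
  have hlc : ∀ w, lc x (c w) = F w := fun w => (hc w).symm
  have hlco : ∀ j, lc x (co 𝕜 c j) = x j := by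
    intro j
    have h1 := co_map (lc x) c j
    rw [← h1, ← hcoF j]
    congr 1
    funext w
    exact hlc w
  set g : Cube n → Fin n → 𝕜 := fun w => c w - rs (co 𝕜 c) w with hg
  have hg0 : ∀ j, co 𝕜 g j = 0 := by
    intro j
    have h1 := co_sub (𝕜 := 𝕜) c (rs (co 𝕜 c)) j
    rw [co_rs, sub_self] at h1
    exact h1
  have hlg : ∀ w, lc x (g w) = F w - rs x w := by
    intro w
    have h1 := rs_map (lc x) (co 𝕜 c) w
    have h2 : (fun j => lc x (co 𝕜 c j)) = x := funext hlco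
    rw [h2] at h1
    rw [hg]
    simp only
    rw [map_sub, hlc, ← h1]
  -- the parameter
  have hnpos : (0 : ℝ) < n := by exact_mod_cast hn
  set t : ℝ := (n : ℝ) ^ (1 / 3 : ℝ) with ht
  have htpos : 0 < t := Real.rpow_pos_of_pos hnpos _
  have ht3 : t ^ 3 = n := by
    rw [ht, ← Real.rpow_natCast, ← Real.rpow_mul hnpos.le]
    norm_num
  have ht1 : 1 ≤ t := Real.one_le_rpow (by exact_mod_cast hn) (by norm_num)
  set a : ℝ := t⁻¹ with ha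
  have ha0 : 0 < a := inv_pos.mpr htpos
  have ha1 : a ≤ 1 := inv_le_one_of_one_le₀ ht1
  have ha3 : a ^ 3 * n = 1 := by
    rw [ha, inv_pow, ht3, inv_mul_cancel₀ hnpos.ne']
  have hU : ∀ w, UU 𝕜 a F w - ((a : ℝ) : 𝕜) • rs x w = lc x (UU 𝕜 a g w) := by
    intro w
    have h1 := congrFun (UU_map a (lc x) g) w
    have h2 : (fun w => lc x (g w)) = fun w => F w - rs x w := funext hlg
    rw [h2] at h1
    have h3 := congrFun (UU_sub (𝕜 := 𝕜) a F (rs x)) w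
    have h4 := congrFun (UU_rs (𝕜 := 𝕜) a x) w
    rw [← h1, h3, h4]
  have hN : N2 p (fun w => UU 𝕜 a F w - ((a : ℝ) : 𝕜) • rs x w) ≤ a ^ 3 * n * N2 p F := by
    have h1 : (av fun w => p (UU 𝕜 a F w - ((a : ℝ) : 𝕜) • rs x w) ^ 2) ≤
        av fun w => ∑ i, ‖UU 𝕜 a g w i‖ ^ 2 := by
      refine av_mono fun w => ?_
      rw [hU w, hpn, lc_apply]
      have h2 := hxs (UU 𝕜 a g w)
      have h3 := pow_le_pow_left₀ (norm_nonneg _) h2 2
      rwa [Real.sq_sqrt (Finset.sum_nonneg fun i _ => sq_nonneg _)] at h3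
    have h2 := hilb_vec a ha0.le ha1 g hg0
    have h3 : (av fun w => ∑ i, ‖g w i‖ ^ 2) ≤ av fun w => ∑ i, ‖c w i‖ ^ 2 := sub_rs_vec c
    have h4 : (av fun w => ∑ i, ‖c w i‖ ^ 2) ≤ (n : ℝ) ^ 2 * N2 p F ^ 2 := by
      rw [N2_sq, ← av_mul]
      refine av_mono fun w => ?_
      have h5 := hxs2 (c w)
      rw [← hc w] at h5
      have h6 := pow_le_pow_left₀ (Real.sqrt_nonneg _) h5 2
      rw [Real.sq_sqrt (Finset.sum_nonneg fun i _ => sq_nonneg _), mul_pow] at h6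
      exact h6
    have h5 : (av fun w => p (UU 𝕜 a F w - ((a : ℝ) : 𝕜) • rs x w) ^ 2) ≤
        (a ^ 3 * n * N2 p F) ^ 2 := by
      have h6 : a ^ 6 * (av fun w => ∑ i, ‖g w i‖ ^ 2) ≤ a ^ 6 * ((n : ℝ) ^ 2 * N2 p F ^ 2) :=
        mul_le_mul_of_nonneg_left (h3.trans h4) (by positivity)
      calc _ ≤ _ := h1
        _ ≤ _ := h2
        _ ≤ _ := h6
        _ = _ := by ring
    have h7 : 0 ≤ a ^ 3 * n * N2 p F := by
      have := N2_nonneg p F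
      positivity
    unfold N2 at h7 ⊢
    exact Real.sqrt_le_iff.mpr ⟨h7, h5⟩
  have hR : a * N2 p (rs x) ≤ 2 * N2 p F := by
    have h1 := N2_smul p ((a : ℝ) : 𝕜) (rs x)
    rw [RCLike.norm_ofReal, abs_of_pos ha0] at h1
    rw [← h1]
    have h2 := N2_sub_le p (UU 𝕜 a F) (fun w => UU 𝕜 a F w - ((a : ℝ) : 𝕜) • rs x w)
    simp only [sub_sub_cancel] at h2
    have h3 := N2_UU p a ha0.le ha1 F
    rw [ha3, one_mul] at hN
    linarith
  have hR2 : N2 p (rs x) ≤ 2 * t * (67 * ‖P‖) := by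
    have h1 : N2 p (rs x) = t * (a * N2 p (rs x)) := by
      rw [ha, ← mul_assoc, mul_inv_cancel₀ htpos.ne', one_mul]
    rw [h1]
    have h2 : t * (a * N2 p (rs x)) ≤ t * (2 * (67 * ‖P‖)) :=
      mul_le_mul_of_nonneg_left (hR.trans (by linarith)) htpos.le
    linarith
  have h1 : Real.sqrt ((n : ℝ) / 3) ≤ Real.sqrt (∑ i, ‖x i‖ ^ 2) := by
    refine Real.sqrt_le_sqrt (he3.trans (le_of_eq ?_))
    rfl
  have h2 := hE.cot n x
  have h3 : (av fun w => ‖rs x w‖) ≤ N2 p (rs x) := av_le_N2 p (rs x)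
  calc Real.sqrt ((n : ℝ) / 3) ≤ _ := h1
    _ ≤ _ := h2
    _ ≤ 29 * (2 * t * (67 * ‖P‖)) :=
        mul_le_mul_of_nonneg_left (h3.trans hR2) (by norm_num)

end Pool.Agent.Helper54.PI
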