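import Mathlib
import Pool.Agent.Helper54.PI.Defs

/-!
PROJECT PI, module PI-12. Elementary properties of the push-out seminorm.

PROOF. (`pq_zero`) `≤`: `pq_le` with `a = 0`. `≥`: `le_pq`: `p (v + ∑ a_i x_i) + l1 (0 - rs a)
≥ p v - p (∑ a_i x_i) + l1 (rs a) ≥ p v`.
(`pq_triv`) `m = 0`: every `a : Fin 0 → 𝕜` is `0` and `rs a = 0`: `pq p x (v, b) = p v + l1 b`.
(`rs_const`-type facts are not needed.)
(`pq_unit`) with `a = 0`: `pq p x (v, b) ≤ p v + l1 b`; `l1 (c 1_{w}) = ‖c‖ / 2 ^ m`.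
-/

set_option autoImplicit false

namespace Pool.Agent.Helper54.PI

open Finset

variable {𝕜 : Type} [RCLike 𝕜] {V : Type} [AddCommGroup V] [Module 𝕜 V]

private theorem st_rs0 (m : ℕ) : rs (0 : Fin m → 𝕜) = (0 : Cube m → 𝕜) := by
  rw [← rsL_apply, map_zero]

private theorem st_le (p : Seminorm 𝕜 V) {m : ℕ} (x : Fin m → V) (v : V) (b : Cube m → 𝕜) :
    pq p x (v, b) ≤ p v + l1 𝕜 m b := by
  have h := pq_le p x v b 0
  rw [st_rs0, sub_zero] at h
  have h1 : v + ∑ i, (0 : Fin m → 𝕜) i • x i = v := by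
    simp only [Pi.zero_apply, zero_smul, Finset.sum_const_zero, add_zero]
  rwa [h1] at h

theorem pq_zero (p : Seminorm 𝕜 V) {m : ℕ} (x : Fin m → V)
    (hx : ∀ a : Fin m → 𝕜, p (∑ i, a i • x i) ≤ 1 / 22 * l1 𝕜 m (rs a)) (v : V) :
    pq p x (v, 0) = p v := by
  apply le_antisymm
  · have h := st_le p x v (0 : Cube m → 𝕜)
    rwa [map_zero, add_zero] at h
  · refine le_pq p x v 0 _ fun a => ?_
    have h1 : p v ≤ p (v + ∑ i, a i • x i) + p (∑ i, a i • x i) := by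
      have h2 := map_sub_le_add p (v + ∑ i, a i • x i) (∑ i, a i • x i)
      rwa [add_sub_cancel_right] at h2
    have h3 := hx a
    have h4 : 0 ≤ l1 𝕜 m (rs a) := apply_nonneg _ _
    rw [zero_sub, map_neg_eq_map]
    linarith

theorem pq_triv (p : Seminorm 𝕜 V) (x : Fin 0 → V) (v : V) (b : Cube 0 → 𝕜) :
    pq p x (v, b) = p v + l1 𝕜 0 b := by
  apply le_antisymm (st_le p x v b)
  refine le_pq p x v b _ fun a => ?_
  have ha : a = 0 := Subsingleton.elim _ _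
  rw [ha, st_rs0, sub_zero]
  simp

theorem pq_le_add (p : Seminorm 𝕜 V) {m : ℕ} (x : Fin m → V) (v : V) (b : Cube m → 𝕜) :
    pq p x (v, b) ≤ p v + l1 𝕜 m b := by
  exact st_le p x v b

theorem l1_single (m : ℕ) (w : Cube m) (c : 𝕜) :
    l1 𝕜 m (Pi.single w c) = ‖c‖ / 2 ^ m := by
  rw [l1_apply]
  unfold av
  congr 1
  rw [Finset.sum_eq_single w]
  · rw [Pi.single_eq_same]
  · intro w' _ hw'
    rw [Pi.single_eq_of_ne hw', norm_zero]
  · intro h
    exact absurd (Finset.mem_univ w) h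

theorem l1_cube_zero (b : Cube 0 → 𝕜) (w : Cube 0) : l1 𝕜 0 b = ‖b w‖ := by
  rw [l1_apply]
  unfold av
  rw [Finset.sum_eq_single w]
  · norm_num
  · intro w' _ hw'
    exact absurd (Subsingleton.elim _ _) hw'
  · intro h
    exact absurd (Finset.mem_univ w) h

end Pool.Agent.Helper54.PI
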