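import Mathlib
import Pool.Agent.Helper54.PI.Defs
import Pool.Agent.Helper54.PI.SeqDefs
import Pool.Agent.Helper54.PI.Stage
import Pool.Agent.Helper54.PI.CotPq

/-!
PROJECT PI, module PI-13. Properties of the sequence `pp`.

PROOF. (`valid_xx`) by cases of the definition of `xx`; `0` is valid.
(`pp_ignore`) induction on `n`: `pp 0 = 0`. Step: the blocks `≤ n` of `v` vanish, so
`emb n v = (v, 0)` and `pq_le` with `a = 0` gives `≤ pp n v + 0 = 0`.
(`pp_succ`) if the block `n` of `v` is `0` then `emb n v = (v, 0)`: `pq_zero` with `valid_xx`.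
(`pp_stable`) induction on `n ≥ N` from `pp_succ`.
(`cot_pp`) induction: `Cot 0 29` is trivial (`sqrt 0 ≤ 0`); step: `cot_pq` with `valid_xx`, and
`Cot` passes to `q.comp L` (`rs` commutes with a linear map: `rs (fun j => L (z j)) w = L (rs z w)`,
module Alg, `rs_map`).
-/

set_option autoImplicit false

namespace Pool.Agent.Helper54.PI

open Finset

variable {𝕜 : Type} [RCLike 𝕜]

theorem valid_xx (raw : ∀ m : ℕ, ℕ → Fin m → VV 𝕜) (p : Seminorm 𝕜 (VV 𝕜)) (n : ℕ) :
    Valid p n (xx raw p n) := by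
  unfold xx
  split_ifs with h
  · exact h
  · refine ⟨fun i j hj => absurd rfl hj, fun a => ?_⟩
    have h1 : ∑ i, a i • (0 : Fin (Nat.unpair n).1 → VV 𝕜) i = 0 := by
      simp only [Pi.zero_apply, smul_zero, Finset.sum_const_zero]
    rw [h1, map_zero]
    exact mul_nonneg (by norm_num) (apply_nonneg _ _)

private theorem seq_succ_eq (raw : ∀ m : ℕ, ℕ → Fin m → VV 𝕜) (n : ℕ) (v : VV 𝕜) :
    pp raw (n + 1) v = pq (pp raw n) (xx raw (pp raw n) n) (v, blk n v) := rfl

theorem pp_succ (raw : ∀ m : ℕ, ℕ → Fin m → VV 𝕜) (n : ℕ) (v : VV 𝕜)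
    (h : blk n v = 0) : pp raw (n + 1) v = pp raw n v := by
  rw [seq_succ_eq, h]
  exact pq_zero _ _ (valid_xx raw (pp raw n) n).2 v

theorem pp_ignore (raw : ∀ m : ℕ, ℕ → Fin m → VV 𝕜) (n : ℕ) (v : VV 𝕜)
    (h : ∀ j : JJ, v j ≠ 0 → n ≤ j.1) : pp raw n v = 0 := by
  induction n with
  | zero => rfl
  | succ n ih =>
    have hb : blk n v = 0 := by
      funext w
      by_contra hw
      have h1 : n + 1 ≤ n := h ⟨n, w⟩ hw
      omega
    rw [pp_succ raw n v hb]
    exact ih fun j hj => (Nat.le_succ n).trans (h j hj)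

theorem pp_stable (raw : ∀ m : ℕ, ℕ → Fin m → VV 𝕜) (N n : ℕ) (hn : N ≤ n) (v : VV 𝕜)
    (h : ∀ j : JJ, v j ≠ 0 → j.1 < N) : pp raw n v = pp raw N v := by
  induction n, hn using Nat.le_induction with
  | base => rfl
  | succ n hn ih =>
    rw [pp_succ raw n v ?_, ih]
    funext w
    by_contra hw
    have h1 : n < N := h ⟨n, w⟩ hw
    omega

theorem cot_pp (raw : ∀ m : ℕ, ℕ → Fin m → VV 𝕜) (n : ℕ) : Cot (pp raw n) 29 := by
  induction n with
  | zero =>
    intro k z
    have h1 : ∑ j, (pp raw 0 (z j)) ^ 2 = 0 :=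
      Finset.sum_eq_zero fun j _ => by
        change (0 : ℝ) ^ 2 = 0
        norm_num
    rw [h1, Real.sqrt_zero]
    exact mul_nonneg (by norm_num) (av_nonneg fun w => apply_nonneg _ _)
  | succ n ih =>
    intro k z
    have h := cot_pq (pp raw n) (xx raw (pp raw n) n) ih (valid_xx raw (pp raw n) n).2 k
      (fun j => emb n (z j))
    have h2 : (fun w => pp raw (n + 1) (rs z w)) =
        fun w => pq (pp raw n) (xx raw (pp raw n) n) (rs (fun j => emb n (z j)) w) := by
      funext w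
      rw [rs_map (emb n) z w]
      rfl
    rw [h2]
    exact h

end Pool.Agent.Helper54.PI
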