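import Mathlib
import Pool.Agent.Helper54.PI.Defs
import Pool.Agent.Helper54.PI.SeqDefs
import Pool.Agent.Helper54.PI.Seq

/-!
PROJECT PI, module PI-14. The limit seminorm.

PROOF. For `v` let `bd v = (v.support.sup fun j => j.1) + 1`, so `v j ≠ 0 → j.1 < bd v`. Put
`P v = pp raw (bd v) v`; by `pp_stable`, `P v = pp raw n v` for all `n ≥ bd v`, and also for every `N`
with `∀ j, v j ≠ 0 → j.1 < N` (compare both with `max N (bd v)`). `Seminorm.of`: subadditive and
homogeneous because both sides can be computed at a common `n`.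
`Cot P 29`: `k` vectors `z j` and all the sums `rs z w` are supported in the blocks `< N` for a common
`N` (maximum of the `bd (z j)`); `cot_pp raw N`.
-/

set_option autoImplicit false

namespace Pool.Agent.Helper54.PI

open Finset

private def bd {𝕜 : Type} [RCLike 𝕜] (v : VV 𝕜) : ℕ := (v.support.sup fun j => j.1) + 1

private theorem lt_bd {𝕜 : Type} [RCLike 𝕜] (v : VV 𝕜) (j : JJ) (hj : v j ≠ 0) : j.1 < bd v := by
  unfold bd
  have h : j.1 ≤ v.support.sup fun j => j.1 :=
    Finset.le_sup (f := fun j : JJ => j.1) (Finsupp.mem_support_iff.2 hj)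
  omega

private theorem pp_bd {𝕜 : Type} [RCLike 𝕜] (raw : ∀ m : ℕ, ℕ → Fin m → VV 𝕜) (v : VV 𝕜) (N : ℕ)
    (h : ∀ j : JJ, v j ≠ 0 → j.1 < N) : pp raw (bd v) v = pp raw N v := by
  rw [← pp_stable raw (bd v) (max N (bd v)) (le_max_right _ _) v (lt_bd v),
    ← pp_stable raw N (max N (bd v)) (le_max_left _ _) v h]

theorem exists_lim {𝕜 : Type} [RCLike 𝕜] (raw : ∀ m : ℕ, ℕ → Fin m → VV 𝕜) :
    ∃ P : Seminorm 𝕜 (VV 𝕜), Cot P 29 ∧
      ∀ (v : VV 𝕜) (N : ℕ), (∀ j : JJ, v j ≠ 0 → j.1 < N) → P v = pp raw N v := by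
  classical
  let P : Seminorm 𝕜 (VV 𝕜) := Seminorm.of (fun v => pp raw (bd v) v)
    (fun x y => by
      set N := max (bd x) (bd y) with hN
      have hx : ∀ j : JJ, x j ≠ 0 → j.1 < N := fun j hj => (lt_bd x j hj).trans_le (le_max_left _ _)
      have hy : ∀ j : JJ, y j ≠ 0 → j.1 < N := fun j hj => (lt_bd y j hj).trans_le (le_max_right _ _)
      have hxy : ∀ j : JJ, (x + y) j ≠ 0 → j.1 < N := by
        intro j hj
        by_cases h : x j = 0
        · apply hy j
          intro h'
          apply hj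
          rw [Finsupp.add_apply, h, h', add_zero]
        · exact hx j h
      rw [pp_bd raw _ N hxy, pp_bd raw _ N hx, pp_bd raw _ N hy]
      exact map_add_le_add _ _ _)
    (fun a x => by
      have h : ∀ j : JJ, (a • x) j ≠ 0 → j.1 < bd x := by
        intro j hj
        apply lt_bd x j
        intro h'
        apply hj
        rw [Finsupp.smul_apply, h', smul_zero]
      rw [pp_bd raw _ (bd x) h]
      exact map_smul_eq_mul _ _ _)
  have hP : ∀ (v : VV 𝕜) (N : ℕ), (∀ j : JJ, v j ≠ 0 → j.1 < N) → P v = pp raw N v :=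
    fun v N h => pp_bd raw v N h
  refine ⟨P, ?_, hP⟩
  intro k z
  set N := Finset.univ.sup fun j => bd (z j) with hN
  have hz : ∀ j, ∀ i : JJ, z j i ≠ 0 → i.1 < N := fun j i hi =>
    (lt_bd (z j) i hi).trans_le (Finset.le_sup (f := fun j => bd (z j)) (mem_univ j))
  have hs : ∀ w, ∀ i : JJ, rs z w i ≠ 0 → i.1 < N := by
    intro w i hi
    by_contra hlt
    apply hi
    unfold rs
    rw [Finsupp.finsetSum_apply]
    apply Finset.sum_eq_zero
    intro j _
    rw [Finsupp.smul_apply]
    have : z j i = 0 := by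
      by_contra h
      exact hlt (hz j i h)
    rw [this, smul_zero]
  have h1 := cot_pp raw N k z
  have e1 : ∀ j, P (z j) = pp raw N (z j) := fun j => hP _ _ (hz j)
  have e2 : ∀ w, P (rs z w) = pp raw N (rs z w) := fun w => hP _ _ (hs w)
  simp only [e1, e2]
  exact h1

end Pool.Agent.Helper54.PI
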