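import Mathlib
import Pool.Agent.Helper54.PI.Defs
import Pool.Agent.Helper54.PI.SeqDefs
import Pool.Agent.Helper54.PI.Stage
import Pool.Agent.Helper54.PI.Seq
import Pool.Agent.Helper54.PI.LimP

/-!
PROJECT PI, module PI-15. The seminorm `P` and its properties.

PROOF. If `Q` is empty replace it by `{0}` (or `Q ∪ {0}`). For every `m` the set of the tuples
`x : Fin m → VV 𝕜` with all `x i ∈ Q` is countable (`Set.countable_pi`, or `Countable (Fin m → Q)`)
and nonempty, so there is `raw m : ℕ → Fin m → VV 𝕜` whose range contains all of them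
(`Countable`, `exists_surjective_nat`). Take `P` of `exists_lim raw`.
(1) `P (single j c) ≤ ‖c‖`: `j = ⟨n, w⟩`, `P (single j c) = pp raw (n + 1) (single j c) =
pq .. (single j c, Pi.single w c) ≤ pp raw n (single j c) + l1 (Pi.single w c) = 0 + ‖c‖ / 2 ^ m`
(`pq_le_add`, `pp_ignore`, `l1_single`).
(2) Extension: `x i ∈ Q`, `P (∑ a_i x_i) ≤ (1/22) l1 (rs a)`. Let `j` with `raw m j = x`, and `N` with
`x i j' ≠ 0 → j'.1 < N`. Put `n = Nat.pair m (Nat.pair j N)`; `n ≥ N` (`Nat.right_le_pair`),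
`(unpair n).1 = m` etc. (`Nat.unpair_pair`; take care of the dependent type: `subst` or generalize).
`Valid (pp raw n) n x` holds (`P (∑ a_i x_i) = pp raw n (..)` because the support is in the blocks
`< N ≤ n`), so `xx raw (pp raw n) n = x`. Put `φ w = single ⟨n, w⟩ (2 ^ m)`. `P (φ w) ≤ 1` as in (1).
`co 𝕜 φ i = ∑ w, sg (w i) • single ⟨n, w⟩ 1`; its block `n` is the function `w ↦ sg (w i)`, i.e.
`rs (Pi.single i 1)`. `P (co 𝕜 φ i - x i) = pp raw (n + 1) (..) = pq (pp raw n) x (co 𝕜 φ i - x i, r_i)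
≤ pp raw n (co 𝕜 φ i - x i + x i) + l1 (r_i - rs (Pi.single i 1)) = pp raw n (co 𝕜 φ i) + 0 = 0`
(`pq_le` with `a = Pi.single i 1`, `pp_ignore`; the block `n` of `x i` is `0`).
(3) `e l = single ⟨Nat.pair 0 l, w0⟩ 1`, `w0` the point of the cube of dimension
`(unpair (pair 0 l)).1 = 0`. `P (∑ l ∈ s, c l • e l) = ∑ l ∈ s, ‖c l‖`: prove by induction on `N` that
`pp raw N (∑ l ∈ s.filter (pair 0 l < N), c l • e l) = ∑ l ∈ s.filter (pair 0 l < N), ‖c l‖`: at a
stage `n` with `(unpair n).1 = 0` use `pq_triv`, `l1_cube_zero` and `pp raw n (v + e) = pp raw n v`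
for `e` in the block `n` (`pp_ignore`: `pp (v + e) ≤ pp v + 0` and conversely); at the other stages
`pp_succ`.
-/

set_option autoImplicit false

namespace Pool.Agent.Helper54.PI

open Finset

theorem h86_pq_triv {𝕜 : Type} [RCLike 𝕜] {V : Type} [AddCommGroup V] [Module 𝕜 V]
    (p : Seminorm 𝕜 V) {m : ℕ} (hm : m = 0) (x : Fin m → V) (v : V) (b : Cube m → 𝕜) :
    pq p x (v, b) = p v + l1 𝕜 m b := by
  subst hm
  exact pq_triv p x v b

theorem h86_l1_zero {𝕜 : Type} [RCLike 𝕜] {m : ℕ} (hm : m = 0) (b : Cube m → 𝕜) (w : Cube m) :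
    l1 𝕜 m b = ‖b w‖ := by
  subst hm
  exact l1_cube_zero b w

theorem h86_blk_single {𝕜 : Type} [RCLike 𝕜] (n : ℕ) (w : Cube (Nat.unpair n).1) (c : 𝕜) :
    blk n (Finsupp.single (⟨n, w⟩ : JJ) c) = Pi.single w c := by
  classical
  funext w'
  change (Finsupp.single (⟨n, w⟩ : JJ) c) ⟨n, w'⟩ = _
  by_cases h : w' = w
  · subst h
    rw [Finsupp.single_eq_same, Pi.single_eq_same]
  · rw [Pi.single_eq_of_ne h, Finsupp.single_eq_of_ne]
    intro h2
    exact h (eq_of_heq (Sigma.mk.inj_iff.mp h2).2)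

theorem h86_supp_single {𝕜 : Type} [RCLike 𝕜] (i j : JJ) (c : 𝕜)
    (h : (Finsupp.single i c) j ≠ 0) : j = i := by
  by_contra h2
  exact h (Finsupp.single_eq_of_ne h2)

theorem h86_pp_single {𝕜 : Type} [RCLike 𝕜] (raw : ∀ m : ℕ, ℕ → Fin m → VV 𝕜) (n : ℕ)
    (w : Cube (Nat.unpair n).1) (c : 𝕜) :
    pp raw (n + 1) (Finsupp.single (⟨n, w⟩ : JJ) c) ≤ ‖c‖ / 2 ^ (Nat.unpair n).1 := by
  have h1 : pp raw (n + 1) (Finsupp.single (⟨n, w⟩ : JJ) c) =
      pq (pp raw n) (xx raw (pp raw n) n)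
        (Finsupp.single (⟨n, w⟩ : JJ) c, blk n (Finsupp.single (⟨n, w⟩ : JJ) c)) := rfl
  rw [h1, h86_blk_single]
  refine (pq_le_add _ _ _ _).trans ?_
  rw [l1_single, pp_ignore raw n _ fun j hj => ?_, zero_add]
  rw [h86_supp_single _ _ _ hj]

theorem h86_ext {𝕜 : Type} [RCLike 𝕜] (raw : ∀ m : ℕ, ℕ → Fin m → VV 𝕜)
    (P : Seminorm 𝕜 (VV 𝕜))
    (hP : ∀ (v : VV 𝕜) (N : ℕ), (∀ j : JJ, v j ≠ 0 → j.1 < N) → P v = pp raw N v)
    (n : ℕ) (x : Fin (Nat.unpair n).1 → VV 𝕜)
    (hr : raw (Nat.unpair n).1 (Nat.unpair (Nat.unpair n).2).1 = x)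
    (hx : ∀ i j, x i j ≠ 0 → j.1 < n)
    (ha : ∀ a : Fin (Nat.unpair n).1 → 𝕜,
      P (∑ i, a i • x i) ≤ 1 / 22 * l1 𝕜 (Nat.unpair n).1 (rs a)) :
    ∃ φ : Cube (Nat.unpair n).1 → VV 𝕜, (∀ w, P (φ w) ≤ 1) ∧ ∀ i, P (co 𝕜 φ i - x i) = 0 := by
  classical
  have hsum : ∀ (a : Fin (Nat.unpair n).1 → 𝕜) (j : JJ), (∑ i, a i • x i) j ≠ 0 → j.1 < n := by
    intro a j hj
    by_contra h
    apply hj
    rw [Finsupp.finsetSum_apply]
    refine Finset.sum_eq_zero fun i _ => ?_
    rw [Finsupp.smul_apply]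
    have : x i j = 0 := by
      by_contra h2
      exact h (hx i j h2)
    rw [this, smul_zero]
  have hval : Valid (pp raw n) n x := by
    refine ⟨hx, fun a => ?_⟩
    rw [← hP _ n (hsum a)]
    exact ha a
  have hxx : xx raw (pp raw n) n = x := by
    unfold xx
    rw [hr, if_pos hval]
  have h2 : ((2 : 𝕜) ^ (Nat.unpair n).1) ≠ 0 := pow_ne_zero _ two_ne_zero
  refine ⟨fun w => Finsupp.single (⟨n, w⟩ : JJ) ((2 : 𝕜) ^ (Nat.unpair n).1), fun w => ?_, fun i => ?_⟩
  · rw [hP _ (n + 1) fun j hj => ?_]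
    · refine (h86_pp_single raw n w _).trans (le_of_eq ?_)
      rw [norm_pow, RCLike.norm_ofNat]
      exact div_self (by positivity)
    · rw [h86_supp_single _ _ _ hj]
      exact Nat.lt_succ_self n
  · set u : VV 𝕜 := co 𝕜 (fun w : Cube (Nat.unpair n).1 => Finsupp.single (⟨n, w⟩ : JJ) ((2 : 𝕜) ^ (Nat.unpair n).1)) i with hu
    have hu1 : ∀ j : JJ, j.1 ≠ n → u j = 0 := by
      intro j hj
      rw [hu]
      unfold co
      rw [Finsupp.smul_apply, Finsupp.finsetSum_apply, Finset.sum_eq_zero, smul_zero]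
      intro w _
      rw [Finsupp.smul_apply, Finsupp.single_eq_of_ne, smul_zero]
      intro h
      apply hj
      rw [h]
    have hu2 : ∀ w : Cube (Nat.unpair n).1, u ⟨n, w⟩ = ((sg (w i) : ℤ) : 𝕜) := by
      intro w
      rw [hu]
      unfold co
      rw [Finsupp.smul_apply, Finsupp.finsetSum_apply, Finset.sum_eq_single w]
      · rw [Finsupp.smul_apply, Finsupp.single_eq_same, smul_eq_mul, zsmul_eq_mul,
          mul_comm _ ((2 : 𝕜) ^ (Nat.unpair n).1), ← mul_assoc, inv_mul_cancel₀ h2, one_mul]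
      · intro w' _ hw'
        rw [Finsupp.smul_apply, Finsupp.single_eq_of_ne, smul_zero]
        intro h
        exact hw' (eq_of_heq (Sigma.mk.inj_iff.mp h).2).symm
      · intro h
        exact absurd (Finset.mem_univ _) h
    have hsup : ∀ j : JJ, (u - x i) j ≠ 0 → j.1 < n + 1 := by
      intro j hj
      by_contra h
      apply hj
      rw [Finsupp.sub_apply, hu1 j (by omega)]
      have : x i j = 0 := by
        by_contra h2
        have := hx i j h2
        omega
      rw [this, sub_zero]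
    rw [hP _ (n + 1) hsup]
    have h1 : pp raw (n + 1) (u - x i) =
        pq (pp raw n) (xx raw (pp raw n) n) (u - x i, blk n (u - x i)) := rfl
    rw [h1, hxx]
    refine le_antisymm ((pq_le _ _ _ _ (Pi.single i (1 : 𝕜))).trans ?_) (apply_nonneg _ _)
    have h3 : ∑ i', (Pi.single i (1 : 𝕜) : Fin (Nat.unpair n).1 → 𝕜) i' • x i' = x i := by
      rw [Finset.sum_eq_single i]
      · rw [Pi.single_eq_same, one_smul]
      · intro b _ hb
        rw [Pi.single_eq_of_ne hb, zero_smul]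
      · intro h
        exact absurd (Finset.mem_univ _) h
    have h4 : blk n (u - x i) = rs (Pi.single i (1 : 𝕜)) := by
      funext w
      change (u - x i) ⟨n, w⟩ = _
      rw [Finsupp.sub_apply, hu2 w]
      have : x i ⟨n, w⟩ = 0 := by
        by_contra h2
        exact absurd (hx i _ h2) (lt_irrefl _)
      rw [this, sub_zero]
      unfold rs
      rw [Finset.sum_eq_single i]
      · rw [Pi.single_eq_same, zsmul_eq_mul, mul_one]
      · intro b _ hb
        rw [Pi.single_eq_of_ne hb, smul_zero]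
      · intro h
        exact absurd (Finset.mem_univ _) h
    rw [h3, h4, sub_self, map_zero, add_zero, sub_add_cancel, pp_ignore raw n u]
    intro j hj
    by_contra h
    exact hj (hu1 j (by omega))

theorem h86_sum_e {𝕜 : Type} [RCLike 𝕜] (raw : ∀ m : ℕ, ℕ → Fin m → VV 𝕜) (c : ℕ → 𝕜)
    (e : ℕ → VV 𝕜)
    (he : ∀ l, e l = Finsupp.single (⟨Nat.pair 0 l, fun _ => false⟩ : JJ) (1 : 𝕜)) (N : ℕ) :
    ∀ s : Finset ℕ, (∀ l ∈ s, Nat.pair 0 l < N) →
      pp raw N (∑ l ∈ s, c l • e l) = ∑ l ∈ s, ‖c l‖ := by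
  classical
  have hsupp : ∀ (s : Finset ℕ) (j : JJ), (∑ l ∈ s, c l • e l) j ≠ 0 →
      ∃ l ∈ s, j.1 = Nat.pair 0 l := by
    intro s j hj
    by_contra h
    push Not at h
    apply hj
    rw [Finsupp.finsetSum_apply]
    refine Finset.sum_eq_zero fun l hl => ?_
    rw [Finsupp.smul_apply, he l, Finsupp.single_eq_of_ne, smul_zero]
    intro h2
    apply h l hl
    rw [h2]
  induction N with
  | zero =>
    intro s hs
    have : s = ∅ := by
      rw [Finset.eq_empty_iff_forall_notMem]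
      intro l hl
      exact absurd (hs l hl) (Nat.not_lt_zero _)
    rw [this, Finset.sum_empty, Finset.sum_empty, map_zero]
  | succ N ih =>
    intro s hs
    by_cases h : ∃ l0 ∈ s, Nat.pair 0 l0 = N
    · obtain ⟨l0, hl0, rfl⟩ := h
      have hlt : ∀ l ∈ s.erase l0, Nat.pair 0 l < Nat.pair 0 l0 := by
        intro l hl
        rw [Finset.mem_erase] at hl
        have h1 := hs l hl.2
        have h2 : Nat.pair 0 l ≠ Nat.pair 0 l0 := by
          intro h3
          exact hl.1 (Nat.pair_eq_pair.mp h3).2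
        omega
      rw [← Finset.add_sum_erase s _ hl0, ← Finset.add_sum_erase s (fun l => ‖c l‖) hl0]
      set v' : VV 𝕜 := ∑ l ∈ s.erase l0, c l • e l with hv'
      have h1 : pp raw (Nat.pair 0 l0 + 1) (c l0 • e l0 + v') =
        pq (pp raw (Nat.pair 0 l0)) (xx raw (pp raw (Nat.pair 0 l0)) (Nat.pair 0 l0))
          (c l0 • e l0 + v', blk (Nat.pair 0 l0) (c l0 • e l0 + v')) := rfl
      have hz : (Nat.unpair (Nat.pair 0 l0)).1 = 0 := by
        rw [Nat.unpair_pair]
      rw [h1, h86_pq_triv _ hz, h86_l1_zero hz _ (fun _ => false)]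
      have h2 : blk (Nat.pair 0 l0) (c l0 • e l0 + v') (fun _ => false) = c l0 := by
        change (c l0 • e l0 + v') ⟨Nat.pair 0 l0, fun _ => false⟩ = c l0
        rw [Finsupp.add_apply, Finsupp.smul_apply, he l0, Finsupp.single_eq_same, smul_eq_mul,
          mul_one]
        have : v' ⟨Nat.pair 0 l0, fun _ => false⟩ = 0 := by
          by_contra h3
          obtain ⟨l, hl, hl2⟩ := hsupp _ _ h3
          have := hlt l hl
          rw [← hl2] at this
          exact absurd this (lt_irrefl _)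
        rw [this, add_zero]
      have h3 : pp raw (Nat.pair 0 l0) (c l0 • e l0) = 0 := by
        rw [map_smul_eq_mul, pp_ignore raw _ (e l0), mul_zero]
        intro j hj
        rw [he l0] at hj
        rw [h86_supp_single _ _ _ hj]
      have h4 : pp raw (Nat.pair 0 l0) (c l0 • e l0 + v') = pp raw (Nat.pair 0 l0) v' := by
        apply le_antisymm
        · refine (map_add_le_add _ _ _).trans ?_
          rw [h3, zero_add]
        · have h5 : v' = (c l0 • e l0 + v') + -(c l0 • e l0) := by abel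
          calc pp raw (Nat.pair 0 l0) v'
              = pp raw (Nat.pair 0 l0) ((c l0 • e l0 + v') + -(c l0 • e l0)) := by rw [← h5]
            _ ≤ pp raw (Nat.pair 0 l0) (c l0 • e l0 + v') +
                pp raw (Nat.pair 0 l0) (-(c l0 • e l0)) := map_add_le_add _ _ _
            _ = pp raw (Nat.pair 0 l0) (c l0 • e l0 + v') := by rw [map_neg_eq_map, h3, add_zero]
      rw [h2, h4, ih _ hlt, add_comm]
    · push Not at h
      have hlt : ∀ l ∈ s, Nat.pair 0 l < N := by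
        intro l hl
        have h1 := hs l hl
        have h2 := h l hl
        omega
      rw [pp_succ raw N, ih s hlt]
      funext w
      change (∑ l ∈ s, c l • e l) ⟨N, w⟩ = 0
      by_contra h3
      obtain ⟨l, hl, hl2⟩ := hsupp _ _ h3
      exact h l hl hl2.symm

theorem exists_sn {𝕜 : Type} [RCLike 𝕜] (Q : Set (VV 𝕜)) (hQ : Q.Countable) :
    ∃ P : Seminorm 𝕜 (VV 𝕜), Cot P 29 ∧
      (∀ (j : JJ) (c : 𝕜), P (Finsupp.single j c) ≤ ‖c‖) ∧
      (∀ (m : ℕ) (x : Fin m → VV 𝕜), (∀ i, x i ∈ Q) →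
        (∀ a : Fin m → 𝕜, P (∑ i, a i • x i) ≤ 1 / 22 * l1 𝕜 m (rs a)) →
        ∃ φ : Cube m → VV 𝕜, (∀ w, P (φ w) ≤ 1) ∧ ∀ i, P (co 𝕜 φ i - x i) = 0) ∧
      ∃ e : ℕ → VV 𝕜, ∀ (s : Finset ℕ) (c : ℕ → 𝕜),
        P (∑ l ∈ s, c l • e l) = ∑ l ∈ s, ‖c l‖ := by
  classical
  have hQ' : (insert 0 Q : Set (VV 𝕜)).Countable := hQ.insert 0
  have hex : ∀ m : ℕ, ∃ f : ℕ → Fin m → VV 𝕜,
      {x : Fin m → VV 𝕜 | ∀ i, x i ∈ (insert 0 Q : Set (VV 𝕜))} = Set.range f := fun m =>
    (Set.countable_pi (fun _ : Fin m => hQ')).exists_eq_range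
      ⟨0, fun i => Set.mem_insert _ _⟩
  choose raw hraw using hex
  obtain ⟨P, hcot, hP⟩ := exists_lim raw
  refine ⟨P, hcot, ?_, ?_, ?_⟩
  · rintro ⟨n, w⟩ c
    rw [hP _ (n + 1) fun j hj => ?_]
    · refine (h86_pp_single raw n w c).trans (div_le_self (norm_nonneg _) ?_)
      exact one_le_pow₀ one_le_two
    · rw [h86_supp_single _ _ _ hj]
      exact Nat.lt_succ_self n
  · intro m x hx ha
    have h1 : x ∈ Set.range (raw m) := by
      rw [← hraw m]
      exact fun i => Set.mem_insert_of_mem _ (hx i)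
    obtain ⟨k, hk⟩ := h1
    obtain ⟨N, hN⟩ : ∃ N : ℕ, ∀ i j, x i j ≠ 0 → j.1 < N := by
      refine ⟨(Finset.univ.sup fun i => (x i).support.sup fun j => j.1) + 1, fun i j hj => ?_⟩
      have h2 : j.1 ≤ (x i).support.sup fun j => j.1 :=
        Finset.le_sup (f := fun j : JJ => j.1) (Finsupp.mem_support_iff.mpr hj)
      have h3 : ((x i).support.sup fun j => j.1) ≤
          Finset.univ.sup fun i => (x i).support.sup fun j => j.1 :=
        Finset.le_sup (f := fun i => (x i).support.sup fun j : JJ => j.1) (Finset.mem_univ i)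
      omega
    obtain ⟨n, hn1, hn2, hn3⟩ : ∃ n : ℕ, (Nat.unpair n).1 = m ∧
        (Nat.unpair (Nat.unpair n).2).1 = k ∧ N ≤ n := by
      refine ⟨Nat.pair m (Nat.pair k N), ?_, ?_, ?_⟩
      · rw [Nat.unpair_pair]
      · rw [Nat.unpair_pair, Nat.unpair_pair]
      · exact (Nat.right_le_pair _ _).trans (Nat.right_le_pair _ _)
    subst hn1
    subst hn2
    exact h86_ext raw P hP n x hk (fun i j hj => (hN i j hj).trans_le hn3) ha
  · refine ⟨fun l => Finsupp.single (⟨Nat.pair 0 l, fun _ => false⟩ : JJ) (1 : 𝕜), fun s c => ?_⟩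
    have hb : ∀ l ∈ s, Nat.pair 0 l < (s.sup fun l => Nat.pair 0 l) + 1 := by
      intro l hl
      have : Nat.pair 0 l ≤ s.sup fun l => Nat.pair 0 l :=
        Finset.le_sup (f := fun l => Nat.pair 0 l) hl
      omega
    rw [← h86_sum_e raw c (fun l => Finsupp.single (⟨Nat.pair 0 l, fun _ => false⟩ : JJ) (1 : 𝕜))
      (fun _ => rfl) ((s.sup fun l => Nat.pair 0 l) + 1) s hb]
    apply hP
    intro j hj
    by_contra h
    apply hj
    rw [Finsupp.finsetSum_apply]
    refine Finset.sum_eq_zero fun l hl => ?_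
    rw [Finsupp.smul_apply, Finsupp.single_eq_of_ne, smul_zero]
    intro h2
    apply h
    rw [h2]
    exact hb l hl

end Pool.Agent.Helper54.PI
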