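import Mathlib
import Pool.Agent.Helper54.PI.Defs
import Pool.Agent.Helper54.PI.SeqDefs
import Pool.Agent.Helper54.PI.Alg
import Pool.Agent.Helper54.PI.Scal
import Pool.Agent.Helper54.PI.Props
import Pool.Agent.Helper54.PI.Banach
import Pool.Agent.Helper54.PI.Dense
import Pool.Agent.Helper54.PI.Good

/-!
PROJECT PI, module PI-18. The Banach space `E`.

PROOF. `Q` of `exists_dense`, `P` of `exists_sn Q`, `E`, `T` of `exists_banach P`.
* `T '' Q` is dense in `E` (`T` has dense range, `‖T v - T v'‖ = P (v - v')`), countable: `E` is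
  separable.
* not finite-dimensional: the vectors `T (e l)` are linearly independent
  (`‖∑ c_l T e_l‖ = ∑ ‖c_l‖`), infinitely many (`LinearIndependent` of an infinite family and
  `Module.Finite`: `LinearIndependent.finite` / `not_finite`).
* cotype: for `z : Fin k → E` and `δ > 0` choose `v j` with `‖z j - T (v j)‖ ≤ δ`; `Cot P 29` for `v`;
  both sides are continuous in `z`:
  `sqrt (∑ ‖z j‖ ^ 2) ≤ sqrt (∑ ‖T v j‖ ^ 2) + √k δ`, `‖rs (T ∘ v) w‖ ≤ ‖rs z w‖ + k δ`. Or: the set of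
  `z : Fin k → E` which satisfy the inequality is closed and contains the dense range of
  `(Fin k → V) → (Fin k → E)` (`DenseRange.piMap` / `isClosed_property`).
* extension: let `x : Fin n → E` with `‖∑ a_i x_i‖ ≤ |a|_2`. Choose `v i ∈ Q` with
  `‖(1/66) x i - T (v i)‖ ≤ δ`, `δ = 1 / (66 * 22 * (n + 1))`. Then
  `P (∑ a_i v_i) ≤ (1/66) |a|_2 + δ ∑ ‖a_i‖ ≤ (1/66 + δ √n) |a|_2 ≤ (1/66 + δ √n) √2 l1 (rs a)
  ≤ (1/22) l1 (rs a)` (`le_l1_rs`; `√2 < 1.42`, `(1/66)(1 + √n / (22 (n+1))) * 1.42 ≤ 1/22`).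
  So there is `ψ : Cube n → VV` with `P (ψ w) ≤ 1`, `T (co ψ i) = T (v i)`. Put
  `φ w = 66 • T (ψ w) + rs y w` with `y i = x i - 66 • T (v i)`, `‖y i‖ ≤ 66 δ ≤ 1 / (n + 1)`, so
  `‖φ w‖ ≤ 66 + n / (n + 1) ≤ 67` and `co φ i = 66 T (v i) + y i = x i` (`co_rs`, `co_map`).
-/

set_option autoImplicit false

namespace Pool.Agent.Helper54.PI

open Finset

theorem exists_space (𝕜 : Type) [RCLike 𝕜] :
    ∃ (E : Type) (_ : NormedAddCommGroup E) (_ : NormedSpace 𝕜 E) (_ : CompleteSpace E),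
      TopologicalSpace.SeparableSpace E ∧ ¬ FiniteDimensional 𝕜 E ∧ GoodSp 𝕜 E := by
  obtain ⟨Q, hQc, hQ⟩ := exists_dense 𝕜
  obtain ⟨P, hcot, hsingle, hext, e, he⟩ := exists_sn Q hQc
  have hdense := hQ P hsingle
  obtain ⟨E, i1, i2, i3, T, hT, hTd⟩ := exists_banach P
  have happ : ∀ (z : E) (δ : ℝ), 0 < δ → ∃ v ∈ Q, ‖z - T v‖ ≤ δ := by
    intro z δ hδ
    obtain ⟨v, hv⟩ := hTd.exists_dist_lt z (half_pos hδ)
    obtain ⟨v', hv', hvv⟩ := hdense v (δ / 2) (half_pos hδ)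
    refine ⟨v', hv', ?_⟩
    have h1 : ‖T v - T v'‖ ≤ δ / 2 := by
      rw [← map_sub, hT]
      exact hvv
    have h2 : ‖z - T v‖ < δ / 2 := by
      rw [← dist_eq_norm]
      exact hv
    calc ‖z - T v'‖ = ‖(z - T v) + (T v - T v')‖ := by
          congr 1
          abel
      _ ≤ ‖z - T v‖ + ‖T v - T v'‖ := norm_add_le _ _
      _ ≤ δ := by linarith
  refine ⟨E, i1, i2, i3, ?_, ?_, ?_, ?_⟩
  · refine ⟨⟨T '' Q, hQc.image T, ?_⟩⟩
    rw [Metric.dense_iff]
    intro z r hr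
    obtain ⟨v, hv, hzv⟩ := happ z (r / 2) (half_pos hr)
    refine ⟨T v, ?_, Set.mem_image_of_mem T hv⟩
    rw [Metric.mem_ball, dist_comm, dist_eq_norm]
    linarith
  · intro hfd
    have hli : LinearIndependent 𝕜 fun l : ℕ => T (e l) := by
      rw [linearIndependent_iff']
      intro s c hc l hl
      have h1 : ‖T (∑ l ∈ s, c l • e l)‖ = 0 := by
        rw [map_sum, Finset.sum_congr rfl fun l _ => map_smul T (c l) (e l), hc, norm_zero]
      rw [hT, he] at h1
      have h2 := (Finset.sum_eq_zero_iff_of_nonneg fun l _ => norm_nonneg (c l)).1 h1 l hl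
      exact norm_eq_zero.1 h2
    have := hli.finite
    exact not_finite ℕ
  · intro k
    have hd : DenseRange (Pi.map fun (_ : Fin k) => (T : VV 𝕜 → E)) :=
      DenseRange.piMap fun _ => hTd
    refine isClosed_property hd ?_ ?_
    · refine isClosed_le ?_ ?_
      · fun_prop
      · unfold av rs
        fun_prop
    · intro v
      have h1 := hcot k v
      have h2 : ∀ j, ‖(Pi.map fun (_ : Fin k) => (T : VV 𝕜 → E)) v j‖ = P (v j) := fun j =>
        hT (v j)
      have h3 : ∀ w, ‖rs ((Pi.map fun (_ : Fin k) => (T : VV 𝕜 → E)) v) w‖ = P (rs v w) := by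
        intro w
        rw [← hT, ← rs_map]
        rfl
      simp only [h2, h3]
      exact h1
  · intro n x hx
    obtain ⟨δ, hδd⟩ : ∃ δ : ℝ, δ = 1 / (66 * 22 * (n + 1)) := ⟨_, rfl⟩
    have hn1 : (0 : ℝ) < n + 1 := by positivity
    have hδ : 0 < δ := by
      rw [hδd]
      positivity
    have hδn : δ * (n + 1) = 1 / (66 * 22) := by
      rw [hδd]
      field_simp
    choose v hv hvδ using fun i => happ ((66 : 𝕜)⁻¹ • x i) δ hδ
    have hclaim : ∀ a : Fin n → 𝕜, P (∑ i, a i • v i) ≤ 1 / 22 * l1 𝕜 n (rs a) := by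
      intro a
      have hS := le_l1_rs a
      obtain ⟨S, hSd⟩ : ∃ S, S = Real.sqrt (∑ i, ‖a i‖ ^ 2) := ⟨_, rfl⟩
      have hS0 : 0 ≤ S := by
        rw [hSd]
        exact Real.sqrt_nonneg _
      have hai : ∀ i, ‖a i‖ ≤ S := by
        intro i
        rw [hSd]
        refine Real.le_sqrt_of_sq_le ?_
        exact Finset.single_le_sum (f := fun i => ‖a i‖ ^ 2) (fun i _ => sq_nonneg _)
          (Finset.mem_univ i)
      have h66 : ‖(66 : 𝕜)⁻¹‖ = 1 / 66 := by
        rw [norm_inv, RCLike.norm_ofNat, one_div]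
      have h1 : T (∑ i, a i • v i) =
          (66 : 𝕜)⁻¹ • (∑ i, a i • x i) - ∑ i, a i • ((66 : 𝕜)⁻¹ • x i - T (v i)) := by
        rw [map_sum, Finset.smul_sum, ← Finset.sum_sub_distrib]
        refine Finset.sum_congr rfl fun i _ => ?_
        rw [map_smul, smul_sub, smul_comm (a i) ((66 : 𝕜)⁻¹) (x i)]
        abel
      have h2 : ‖∑ i, a i • ((66 : 𝕜)⁻¹ • x i - T (v i))‖ ≤ 1 / (66 * 22) * S := by
        refine (norm_sum_le _ _).trans ?_
        have h3 : ∀ i ∈ (Finset.univ : Finset (Fin n)),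
            ‖a i • ((66 : 𝕜)⁻¹ • x i - T (v i))‖ ≤ S * δ := by
          intro i _
          rw [norm_smul]
          exact mul_le_mul (hai i) (hvδ i) (norm_nonneg _) hS0
        refine (Finset.sum_le_sum h3).trans ?_
        rw [Finset.sum_const, Finset.card_univ, Fintype.card_fin, nsmul_eq_mul, ← hδn]
        have h4 : 0 ≤ S * δ := mul_nonneg hS0 hδ.le
        nlinarith
      have h3 : ‖(66 : 𝕜)⁻¹ • (∑ i, a i • x i)‖ ≤ 1 / 66 * S := by
        rw [norm_smul, h66, hSd]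
        exact mul_le_mul_of_nonneg_left (hx a) (by norm_num)
      have h4 : ‖T (∑ i, a i • v i)‖ ≤ 1 / 66 * S + 1 / (66 * 22) * S := by
        rw [h1]
        exact (norm_sub_le _ _).trans (add_le_add h3 h2)
      rw [hT] at h4
      have h5 : Real.sqrt 2 ≤ 3 / 2 := by
        rw [Real.sqrt_le_left (by norm_num)]
        norm_num
      have h6 : 0 ≤ l1 𝕜 n (rs a) := apply_nonneg _ _
      rw [← hSd] at hS
      have h7 : Real.sqrt 2 * l1 𝕜 n (rs a) ≤ 3 / 2 * l1 𝕜 n (rs a) :=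
        mul_le_mul_of_nonneg_right h5 h6
      linarith
    obtain ⟨ψ, hψ1, hψ2⟩ := hext n v hv hclaim
    have hTco : ∀ i, T (co 𝕜 ψ i) = T (v i) := by
      intro i
      rw [← sub_eq_zero, ← map_sub, ← norm_eq_zero, hT]
      exact hψ2 i
    obtain ⟨y, hy⟩ : ∃ y : Fin n → E, y = fun i => (66 : 𝕜) • T (v i) - x i := ⟨_, rfl⟩
    have hyn : ∀ i, ‖y i‖ ≤ 66 * δ := by
      intro i
      have h1 : y i = -((66 : 𝕜) • ((66 : 𝕜)⁻¹ • x i - T (v i))) := by
        rw [hy, smul_sub, smul_smul, mul_inv_cancel₀ (by norm_num), one_smul]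
        exact (neg_sub _ _).symm
      rw [h1, norm_neg, norm_smul, RCLike.norm_ofNat]
      exact mul_le_mul_of_nonneg_left (hvδ i) (by norm_num)
    have hsg : ∀ (b : Bool) (z : E), ‖sg b • z‖ = ‖z‖ := by
      intro b z
      cases b
      · simp [sg]
      · simp [sg]
    have hrs : ∀ w, ‖rs y w‖ ≤ 1 := by
      intro w
      unfold rs
      refine (norm_sum_le _ _).trans ?_
      refine (Finset.sum_le_sum fun j _ => ((hsg (w j) (y j)).trans_le (hyn j))).trans ?_
      rw [Finset.sum_const, Finset.card_univ, Fintype.card_fin, nsmul_eq_mul]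
      nlinarith
    refine ⟨fun w => ((66 : 𝕜) • T) (ψ w) - rs y w, ?_, ?_⟩
    · intro w
      have h1 : ‖((66 : 𝕜) • T) (ψ w)‖ ≤ 66 := by
        rw [LinearMap.smul_apply, norm_smul, RCLike.norm_ofNat, hT]
        have := hψ1 w
        linarith
      refine (norm_sub_le _ _).trans ?_
      have := hrs w
      linarith
    · intro i
      rw [co_sub (fun w => ((66 : 𝕜) • T) (ψ w)) (rs y) i, co_map, co_rs,
        LinearMap.smul_apply, hTco, hy]
      exact sub_sub_cancel _ _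

end Pool.Agent.Helper54.PI
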