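import Mathlib
import Pool.Agent.Helper54.PI.Spec
import Pool.Agent.Helper54.PI.Space
import Pool.Agent.Helper54.PI.Proj
import Pool.Agent.Helper54.PI.Bib

/-!
PROJECT PI, module PI-23. The final statement.

PROOF. `E` of `exists_space`. If `(x, f)` is bibasic and equivalent, `bib_proj` gives `C` and
projections of every rank `N` with `‖P‖ ≤ C`; `proj_bound`:
`sqrt (N / 3) ≤ 3886 N ^ (1/3) C` for all `N ≥ 1`, false for large `N` (put `N = M ^ 6`: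
`M ^ 3 / √3 ≤ 3886 C M ^ 2`).
-/

set_option autoImplicit false

namespace Pool.Agent.Helper54.PI

theorem main_pi (𝕜 : Type) [RCLike 𝕜] :
    ∃ (E : Type) (_ : NormedAddCommGroup E) (_ : NormedSpace 𝕜 E) (_ : CompleteSpace E),
      TopologicalSpace.SeparableSpace E ∧ ¬ FiniteDimensional 𝕜 E ∧
        ∀ (x : ℕ → E) (f : ℕ → E →L[𝕜] 𝕜), Bibasic 𝕜 x f → ¬ SeqEquiv 𝕜 f (restr x f) := by
  obtain ⟨E, i1, i2, i3, hsep, hinf, hgood⟩ := exists_space 𝕜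
  refine ⟨E, i1, i2, i3, hsep, hinf, fun x f hb he => ?_⟩
  obtain ⟨C, hC⟩ := bib_proj x f hb he
  obtain ⟨M, hM⟩ := exists_nat_gt (29 * 2 * 67 * 2 * C)
  set L : ℕ := M + 1 with hL
  obtain ⟨P, hP1, hP2, hP3, hP4⟩ := hC (L ^ 6)
  have h1 := proj_bound hgood P hP2 (L ^ 6) (Nat.one_le_pow _ _ (by omega)) hP3 hP4
  have hLpos : (0 : ℝ) < (L : ℝ) := by positivity
  have h2 : (((L ^ 6 : ℕ) : ℝ)) ^ (1 / 3 : ℝ) = (L : ℝ) ^ 2 := by
    have e1 : (((L ^ 6 : ℕ) : ℝ)) = ((L : ℝ) ^ 2) ^ (3 : ℕ) := by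
      push_cast
      ring
    rw [e1, ← Real.rpow_natCast, ← Real.rpow_mul (by positivity)]
    norm_num
  have h3 : (L : ℝ) ^ 3 / 2 ≤ Real.sqrt (((L ^ 6 : ℕ) : ℝ) / 3) := by
    refine Real.le_sqrt_of_sq_le ?_
    push_cast
    have : (0 : ℝ) < (L : ℝ) ^ 6 := by positivity
    nlinarith
  rw [h2] at h1
  have h4 : (L : ℝ) ^ 3 / 2 ≤ 29 * (2 * (L : ℝ) ^ 2 * (67 * C)) := by
    refine h3.trans (h1.trans ?_)
    have : (0 : ℝ) < (L : ℝ) ^ 2 := by positivity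
    have h5 : (L : ℝ) ^ 2 * ‖P‖ ≤ (L : ℝ) ^ 2 * C := mul_le_mul_of_nonneg_left hP1 this.le
    nlinarith
  have h6 : (L : ℝ) ≤ 29 * 2 * 67 * 2 * C := by
    have h7 : (0 : ℝ) < (L : ℝ) ^ 2 := by positivity
    have h8 : (L : ℝ) ^ 2 * (L : ℝ) ≤ (L : ℝ) ^ 2 * (29 * 2 * 67 * 2 * C) := by nlinarith
    exact le_of_mul_le_mul_left h8 h7
  have h9 : (M : ℝ) < (L : ℝ) := by
    rw [hL]
    push_cast
    linarith
  linarith

end Pool.Agent.Helper54.PI
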